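import Pool.Agent.Lib.MP_5a0708_an.Spec

/-!
# MP_5a0708_an : assembly
-/

set_option autoImplicit false

namespace Pool.MP_5a0708_an

/-! ### Elements of `G` are automorphisms -/

theorem exists_isAut_of_mem_G (hC : CHL) {ψ : Equiv.Perm Pt} (h : ψ ∈ G) : ∃ r, IsAut r ψ := by
  induction h using Subgroup.closure_induction with
  | mem x hx =>
    rcases hx with hx | hx
    · rw [Set.mem_singleton_iff] at hx
      subst hx
      exact ⟨_, isAut_trE 1⟩
    · obtain ⟨r, θ, h1, h2⟩ := hC x hx.1 x.bijective hx.2.2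
      have : θ = x := Equiv.ext h1
      subst this
      exact ⟨r, h2⟩
  | one => exact ⟨0, IsAut.one⟩
  | mul x y _ _ hx hy =>
    obtain ⟨r, hr⟩ := hx
    obtain ⟨s, hs⟩ := hy
    exact ⟨r + s, hr.mul hs⟩
  | inv x _ hx =>
    obtain ⟨r, hr⟩ := hx
    exact ⟨r, hr.inv⟩

/-! ### The flip -/

/-- exchange of the two letters -/
def flipE : Equiv.Perm Pt where
  toFun x := fun n => !(x n)
  invFun x := fun n => !(x n)
  left_inv x := by funext n; simp
  right_inv x := by funext n; simp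

theorem isAut_flipE : IsAut 0 flipE := by
  refine ⟨?_, ?_, ?_⟩
  · intro x y i hxy
    change (!(x i)) = !(y i)
    rw [hxy i (by simp) (by simp)]
  · intro x y i hxy
    change (!(x i)) = !(y i)
    rw [hxy i (by simp) (by simp)]
  · intro k x; rfl

theorem flipE_mem_G : flipE ∈ G :=
  isInv_mem_G (isAut_flipE.isInv (fun x => by funext n; simp [flipE]))

/-- Every automorphism fixes `0^∞` after composition with the flip or not. -/
theorem exists_fix_zero {r : ℕ} {θ : Equiv.Perm Pt} (h : IsAut r θ) :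
    ∃ ψ : Equiv.Perm Pt, ψ ∈ G ∧ IsAut r (ψ * θ) ∧ (ψ * θ) zpt = zpt := by
  have hconst : ∀ i, θ zpt i = θ zpt 0 := by
    intro i
    have h1 := h.comm i zpt
    have h2 : tr i zpt = zpt := rfl
    rw [h2] at h1
    have h3 := congrFun h1 0
    rw [h3]
    simp [tr]
  by_cases h0 : θ zpt 0 = false
  · refine ⟨1, G.one_mem, by simpa using h, ?_⟩
    funext i
    simp [hconst i, h0, zpt]
  · refine ⟨flipE, flipE_mem_G, ?_, ?_⟩
    · have := isAut_flipE.mul h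
      simpa using this
    · funext i
      have h1 : θ zpt 0 = true := by simpa using h0
      change (!(θ zpt i)) = false
      rw [hconst i, h1]
      rfl

/-! ### Stage 1: the last one -/

/-- A code with the standard tree preserves the last one. -/
theorem presLast_of_code {r J : ℕ} {θ : Equiv.Perm Pt} (h : IsAut r θ) (h0 : θ zpt = zpt)
    (hJ : 0 < J) (hc : Code θ (Std J) J) : PresLast θ := by
  have key : ∀ z g g', IsLast z g → IsLast (θ z) g' → g' = g := by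
    intro z g g' h1 h2
    have h3 := hc z g g' h1 h2
    have h4 : ∀ n : ℕ, n < J ↔ (n : ℤ) < g' - g + J := by
      intro n
      rw [← h3 n, mem_Std, length_adr]
    rcases lt_trichotomy g' g with hlt | heq | hgt
    · have h5 := h4 (g' - g + J).toNat
      by_cases h6 : 0 ≤ g' - g + J
      · omega
      · have h7 := h4 0
        omega
    · exact heq
    · have h5 := h4 J
      omega
  intro x g
  constructor
  · intro hx
    have h1 := h.symm.isLast_image (symm_zpt h0) hx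
    rw [Equiv.symm_apply_apply] at h1
    obtain ⟨g', h2, -, -⟩ := h1
    rw [key x g' g h2 hx]
    exact h2
  · intro hx
    obtain ⟨g', h2, -, -⟩ := h.isLast_image h0 hx
    rw [← key x g g' hx h2]
    exact h2

/-- a bound for the lengths -/
theorem exists_bound (I : Finset (List Bool)) (n : ℕ) : ∃ d : ℕ, ∀ p ∈ I, p.length + n < d := by
  refine ⟨I.sup List.length + n + 1, ?_⟩
  intro p hp
  have := Finset.le_sup (f := List.length) hp
  omega

theorem stage1 (hC : CHL) (hM : MoveU) (hEx : CodeEx) (hSt : CodeStep) (hEc : ExchComb)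
    (hB : CountBal) (hLC : LeafCount) {r : ℕ} {θ : Equiv.Perm Pt} (h : IsAut r θ)
    (h0 : θ zpt = zpt) :
    ∃ ψ : Equiv.Perm Pt, ψ ∈ G ∧ (ψ * θ) zpt = zpt ∧ PresLast ⇑(ψ * θ) := by
  obtain ⟨k, hk, hbal⟩ := hB r θ h
  set θ' : Equiv.Perm Pt := trE k * θ with hθ'
  have hA : IsAut (2 * r) θ' := ((isAut_trE k).mul h).mono (by omega)
  have h0' : θ' zpt = zpt := by
    rw [hθ', Equiv.Perm.mul_apply, h0]; rfl
  set J : ℕ := 2 * r + 1 with hJ
  obtain ⟨I, hI, hcode⟩ := hEx (2 * r) J θ' hA h0' (by omega)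
  have hleaf := hLC (2 * r) J θ' I hA h0' (by omega) hI hcode
  have hcard : I.card + 1 = 2 ^ J := by
    rw [← hleaf]
    have e1 := hbal 1 (-(J : ℤ)) (by omega)
    have e0 := hbal 0 (-(J : ℤ)) (by omega)
    have hfun : (fun z => tr k (θ z)) = (θ' : Pt → Pt) := by
      funext z; rfl
    rw [hfun] at e1 e0
    have hset : {z : Pt | IsLast z 0 ∧ ZL (θ' z) (-(J : ℤ))} =
        BSet θ' 1 (-(J : ℤ)) \ BSet θ' 0 (-(J : ℤ)) := by
      ext z
      simp only [BSet, Set.mem_ofPred_eq, Set.mem_sdiff, not_and]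
      constructor
      · rintro ⟨hz, hl⟩
        refine ⟨⟨hz.zr, hl⟩, ?_⟩
        intro hzr
        have := hzr 0 le_rfl
        rw [hz.1] at this
        cases this
      · rintro ⟨⟨hz, hl⟩, hn⟩
        refine ⟨⟨?_, fun i hi => hz i (by omega)⟩, hl⟩
        by_contra hcon
        apply hn ?_ hl
        intro i hi
        rcases hi.eq_or_lt with rfl | hi
        · simpa using hcon
        · exact hz i (by omega)
    have hsub : BSet θ' 0 (-(J : ℤ)) ⊆ BSet θ' 1 (-(J : ℤ)) := by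
      rintro z ⟨h1, h2⟩
      exact ⟨fun i hi => h1 i (by omega), h2⟩
    rw [hset, Set.ncard_sdiff hsub e0.1, e1.2, e0.2]
    have t1 : (1 - -(J : ℤ)).toNat = J + 1 := by omega
    have t0 : (0 - -(J : ℤ)).toNat = J := by omega
    rw [t1, t0, pow_succ]
    omega
  have hcard' : I.card = (Std J).card := by
    have := card_Std J
    omega
  have hQ := hEc (fun _ => 0) (fun _ _ _ _ => rfl) J
    (fun I => ∃ ψ : Equiv.Perm Pt, ψ ∈ G ∧ ψ zpt = zpt ∧ Code ⇑(ψ * θ') I J) ?_ I hI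
    ⟨1, G.one_mem, rfl, by simpa using hcode⟩ ?_
  · obtain ⟨ψ, hψ, hψ0, hψc⟩ := hQ
    obtain ⟨s, hs⟩ := exists_isAut_of_mem_G hC hψ
    refine ⟨ψ * trE k, G.mul_mem hψ (trE_mem_G k), ?_, ?_⟩
    · rw [mul_assoc, ← hθ', Equiv.Perm.mul_apply, h0', hψ0]
    · rw [mul_assoc, ← hθ']
      refine presLast_of_code (hs.mul hA) ?_ (by omega) hψc
      rw [Equiv.Perm.mul_apply, h0', hψ0]
  · rintro I hI ⟨ψ, hψ, hψ0, hψc⟩ a b ha hpa hb hab hba - - -
    obtain ⟨s, hs⟩ := exists_isAut_of_mem_G hC hψ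
    obtain ⟨d, hd⟩ := exists_bound I a.length
    obtain ⟨χ, hχ, hχ0, hχs⟩ := hM a b d hab hba
    refine ⟨χ * ψ, G.mul_mem hχ hψ, ?_, ?_⟩
    · rw [Equiv.Perm.mul_apply, hψ0, hχ0]
    · have h1 := hSt (s + 2 * r) J d (ψ * θ') χ I a b (hs.mul hA)
        (by rw [Equiv.Perm.mul_apply, h0', hψ0]) hI hψc ha hpa hb hab hba hχs hd
      exact h1.1
  · intro k
    by_cases hk0 : 0 = k
    · subst hk0
      simp [hcard']
    · simp [hk0]

/-! ### Stage 2: the last one, with the first one preserved -/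

theorem stage2 (hC : CHL) (hM : MoveT) (hEx : CodeEx) (hSt : CodeStep) (hEc : ExchComb)
    (hC2 : Count2) {r : ℕ} {θ : Equiv.Perm Pt} (h : IsAut r θ)
    (h0 : θ zpt = zpt) (hF : PresFirst θ) :
    ∃ ψ : Equiv.Perm Pt, ψ ∈ G ∧ (ψ * θ) zpt = zpt ∧ PresLast ⇑(ψ * θ) ∧ PresFirst ⇑(ψ * θ) := by
  obtain ⟨I, hI, hcode⟩ := hEx r (r + 1) θ h h0 (by omega)
  have hcard := hC2 r (r + 1) θ I h h0 hF hcode
  have hQ := hEc ty (fun a b s hab => ty_append s hab) (r + 1)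
    (fun I => ∃ ψ : Equiv.Perm Pt, ψ ∈ G ∧ ψ zpt = zpt ∧ PresFirst ψ ∧ Code ⇑(ψ * θ) I (r + 1)) ?_ I hI
    ⟨1, G.one_mem, rfl, fun x g => Iff.rfl, by simpa using hcode⟩ hcard
  · obtain ⟨ψ, hψ, hψ0, hψF, hψc⟩ := hQ
    obtain ⟨s, hs⟩ := exists_isAut_of_mem_G hC hψ
    have h00 : (ψ * θ) zpt = zpt := by rw [Equiv.Perm.mul_apply, h0, hψ0]
    refine ⟨ψ, hψ, h00, presLast_of_code (hs.mul h) h00 (by omega) hψc, ?_⟩
    intro x g
    rw [Equiv.Perm.mul_apply, hψF, hF]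
  · rintro I hI ⟨ψ, hψ, hψ0, hψF, hψc⟩ a b ha hpa hb hab hba hty - -
    obtain ⟨s, hs⟩ := exists_isAut_of_mem_G hC hψ
    obtain ⟨d, hd⟩ := exists_bound I a.length
    obtain ⟨χ, hχ, hχ0, hχs, hχF⟩ := hM a b d hab hba hty
    refine ⟨χ * ψ, G.mul_mem hχ hψ, ?_, ?_, ?_⟩
    · rw [Equiv.Perm.mul_apply, hψ0, hχ0]
    · intro x g
      rw [Equiv.Perm.mul_apply, hχF, hψF]
    · have h1 := hSt (s + r) (r + 1) d (ψ * θ) χ I a b (hs.mul h)
        (by rw [Equiv.Perm.mul_apply, h0, hψ0]) hI hψc ha hpa hb hab hba hχs hd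
      exact h1.1

/-! ### The mirror -/

/-- reflection at the origin -/
def mirE : Equiv.Perm Pt where
  toFun x := fun n => x (-n)
  invFun x := fun n => x (-n)
  left_inv x := by funext n; simp
  right_inv x := by funext n; simp

theorem mirE_apply (x : Pt) (n : ℤ) : mirE x n = x (-n) := rfl

theorem mirE_mirE (x : Pt) : mirE (mirE x) = x := by
  funext n; simp [mirE_apply]

theorem mirE_tr (k : ℤ) (x : Pt) : mirE (tr k x) = tr (-k) (mirE x) := by
  funext n; simp only [mirE_apply, tr]; congr 1; ring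

theorem mirE_symm : mirE.symm = mirE := rfl

theorem mirE_inv : mirE⁻¹ = mirE := rfl

theorem mirE_mul_self : mirE * mirE = 1 := by
  ext x : 1; exact mirE_mirE x

theorem loc_mir {r : ℕ} {f : Pt → Pt} (h : Loc r f) : Loc r (fun x => mirE (f (mirE x))) := by
  intro x y i hxy
  change f (mirE x) (-i) = f (mirE y) (-i)
  apply h
  intro j h1 h2
  rw [mirE_apply, mirE_apply]
  exact hxy _ (by omega) (by omega)

theorem isAut_mir {r : ℕ} {θ : Equiv.Perm Pt} (h : IsAut r θ) : IsAut r (mirE * θ * mirE) := by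
  refine ⟨loc_mir h.loc, loc_mir h.locSymm, ?_⟩
  intro k x
  simp only [Equiv.Perm.mul_apply]
  rw [mirE_tr, h.comm, mirE_tr, neg_neg]

theorem mir_mem_G (hC : CHL) {ψ : Equiv.Perm Pt} (h : ψ ∈ G) : mirE * ψ * mirE ∈ G := by
  induction h using Subgroup.closure_induction with
  | mem x hx =>
    rcases hx with hx | hx
    · rw [Set.mem_singleton_iff] at hx
      subst hx
      have : mirE * trE 1 * mirE = trE (-1) := by
        ext x : 1
        simp only [Equiv.Perm.mul_apply, trE_apply]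
        rw [mirE_tr, mirE_mirE]
      rw [this]
      exact trE_mem_G _
    · obtain ⟨r, hr⟩ := exists_isAut_of_mem_G hC (isInv_mem_G hx)
      apply isInv_mem_G
      apply (isAut_mir hr).isInv
      intro y
      simp only [Equiv.Perm.mul_apply]
      rw [mirE_mirE, hx.2.1, mirE_mirE]
  | one => 
    rw [mul_one, mirE_mul_self]
    exact G.one_mem
  | mul x y _ _ hx hy =>
    have : mirE * (x * y) * mirE = (mirE * x * mirE) * (mirE * y * mirE) := by
      have h1 : (mirE * x * mirE) * (mirE * y * mirE) =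
        mirE * x * (mirE * mirE) * y * mirE := by group
      rw [h1, mirE_mul_self]; group
    rw [this]
    exact G.mul_mem hx hy
  | inv x _ hx =>
    have : mirE * x⁻¹ * mirE = (mirE * x * mirE)⁻¹ := by
      rw [mul_inv_rev, mul_inv_rev, mirE_inv, mul_assoc]
    rw [this]
    exact G.inv_mem hx

theorem isLast_mir {x : Pt} {g : ℤ} : IsLast (mirE x) g ↔ IsFirst x (-g) := by
  constructor
  · rintro ⟨h1, h2⟩
    refine ⟨h1, fun i hi => ?_⟩
    have := h2 (-i) (by omega)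
    rwa [mirE_apply, neg_neg] at this
  · rintro ⟨h1, h2⟩
    exact ⟨h1, fun i hi => h2 (-i) (by omega)⟩

theorem isFirst_mir {x : Pt} {g : ℤ} : IsFirst (mirE x) g ↔ IsLast x (-g) := by
  constructor
  · rintro ⟨h1, h2⟩
    refine ⟨h1, fun i hi => ?_⟩
    have := h2 (-i) (by omega)
    rwa [mirE_apply, neg_neg] at this
  · rintro ⟨h1, h2⟩
    exact ⟨h1, fun i hi => h2 (-i) (by omega)⟩

theorem presFirst_mir {θ : Equiv.Perm Pt} (h : PresLast θ) : PresFirst ⇑(mirE * θ * mirE) := by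
  intro x g
  simp only [Equiv.Perm.mul_apply]
  rw [isFirst_mir, h, isLast_mir, neg_neg]

theorem presLast_mir {θ : Equiv.Perm Pt} (h : PresFirst θ) : PresLast ⇑(mirE * θ * mirE) := by
  intro x g
  simp only [Equiv.Perm.mul_apply]
  rw [isLast_mir, h, isFirst_mir, neg_neg]

theorem mirE_zpt : mirE zpt = zpt := rfl

/-- Both ends. -/
theorem both_ends (hC : CHL) (hMU : MoveU) (hMT : MoveT) (hEx : CodeEx) (hSt : CodeStep)
    (hEc : ExchComb) (hB : CountBal) (hLC : LeafCount) (hC2 : Count2) {r : ℕ}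
    {θ : Equiv.Perm Pt} (h : IsAut r θ) :
    ∃ ψ : Equiv.Perm Pt, ψ ∈ G ∧ (ψ * θ) zpt = zpt ∧ PresLast ⇑(ψ * θ) ∧ PresFirst ⇑(ψ * θ) := by
  obtain ⟨ψ0, hψ0, hA0, hz0⟩ := exists_fix_zero h
  obtain ⟨ψ1, hψ1, hz1, hL1⟩ := stage1 hC hMU hEx hSt hEc hB hLC hA0 hz0
  obtain ⟨s1, hs1⟩ := exists_isAut_of_mem_G hC hψ1
  have hA1 := hs1.mul hA0
  set θ1 := ψ1 * (ψ0 * θ) with hθ1
  obtain ⟨ψ2, hψ2, hz2, hL2, hF2⟩ := stage2 hC hMT hEx hSt hEc hC2 (isAut_mir hA1)
    (by simp only [Equiv.Perm.mul_apply]; rw [mirE_zpt, hz1, mirE_zpt]) (presFirst_mir hL1)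
  have key : mirE * ψ2 * mirE * ψ1 * ψ0 * θ = mirE * (ψ2 * (mirE * θ1 * mirE)) * mirE := by
    have h1 : mirE * (ψ2 * (mirE * θ1 * mirE)) * mirE =
      mirE * ψ2 * mirE * θ1 * (mirE * mirE) := by group
    rw [h1, mirE_mul_self, hθ1]; group
  refine ⟨mirE * ψ2 * mirE * ψ1 * ψ0, G.mul_mem (G.mul_mem (mir_mem_G hC hψ2) hψ1) hψ0, ?_, ?_, ?_⟩
  · rw [key, Equiv.Perm.mul_apply, Equiv.Perm.mul_apply, mirE_zpt, hz2, mirE_zpt]
  · rw [key]; exact presLast_mir hF2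
  · rw [key]; exact presFirst_mir hL2

/-! ### Main theorem -/

theorem main_perm (hC : CHL) (hMU : MoveU) (hMT : MoveT) (hEx : CodeEx) (hSt : CodeStep)
    (hEc : ExchComb) (hB : CountBal) (hLC : LeafCount) (hC2 : Count2) (hS : Straight)
    (hG : GoodOf) (hF : CellFix) (hA : CellAgree) {r : ℕ} {θ : Equiv.Perm Pt} (h : IsAut r θ) :
    (∃ ψ : Equiv.Perm Pt, ψ ∈ G ∧ ∃ L0 : ℕ, ∀ L : ℕ, L0 ≤ L → ∀ (x : Pt) (i : ℤ),
      ZOn (ψ (θ x)) i (i + L) ↔ ZOn x i (i + L)) ∧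
    (∃ L : ℕ, ∀ n : ℕ, ∃ ψ : Equiv.Perm Pt, ψ ∈ G ∧ ∀ x : Pt,
      (∃ p : ℤ, -(n : ℤ) ≤ p ∧ p + L ≤ 0 ∧ ZOn x p (p + L)) →
      (∃ q : ℤ, 0 ≤ q ∧ q + L ≤ n ∧ ZOn x q (q + L)) → ψ x 0 = θ x 0) := by
  obtain ⟨ψ, hψ, hz, hL, hF'⟩ := both_ends hC hMU hMT hEx hSt hEc hB hLC hC2 h
  obtain ⟨s, hs⟩ := exists_isAut_of_mem_G hC hψ
  have hA1 := hs.mul h
  have hZ := hS (s + r) (ψ * θ) hA1 hz hL hF'
  refine ⟨⟨ψ, hψ, 2 * (s + r), fun L hL => hZ L hL⟩, ?_⟩
  set L : ℕ := 2 * (s + r) + 1 with hLdef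
  have hgood : Good L ⇑(ψ * θ) := hG (s + r) L (ψ * θ) hA1 (by omega) (hZ L (by omega))
  refine ⟨L + s + 1, ?_⟩
  intro n
  obtain ⟨ρ, hρ, hρg, hρc⟩ := hF L (2 * n) (ψ * θ) (by omega) hgood
  refine ⟨ψ⁻¹ * ρ, G.mul_mem (G.inv_mem hψ) hρ, ?_⟩
  rintro x ⟨p, hp1, hp2, hp3⟩ ⟨q, hq1, hq2, hq3⟩
  have h1 : θ x = ψ.symm ((ψ * θ) x) := by
    rw [Equiv.Perm.mul_apply, Equiv.symm_apply_apply]
  rw [h1]
  change ψ.symm (ρ x) 0 = _
  apply hs.locSymm
  intro j hj1 hj2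
  push_cast at hp2 hp3 hq2 hq3
  refine hA L (2 * n) ⇑(ψ * θ) ρ (by omega) hgood hρg hρc x p (q + s + 1) j ?_ ?_ ?_ ?_ ?_
  · intro i hi1 hi2
    exact hp3 i hi1 (by omega)
  · intro i hi1 hi2
    exact hq3 i (by omega) (by omega)
  · omega
  · omega
  · push_cast; omega

end Pool.MP_5a0708_an
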