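import Pool.Agent.Lib.MP_5a0708_an.Defs

/-!
# MP_5a0708_an : basic lemmas
-/

set_option autoImplicit false

namespace Pool.MP_5a0708_an

/-! ### Locality, continuity, automorphisms -/

theorem Loc.mono {r s : ℕ} {f : Pt → Pt} (h : Loc r f) (hrs : r ≤ s) : Loc s f := by
  intro x y i hxy
  exact h x y i (fun j h1 h2 => hxy j (by omega) (by omega))

theorem Loc.comp {r s : ℕ} {f g : Pt → Pt} (hf : Loc r f) (hg : Loc s g) :
    Loc (r + s) (f ∘ g) := by
  intro x y i hxy
  apply hf
  intro j h1 h2
  apply hg
  intro k h3 h4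
  exact hxy k (by push_cast; omega) (by push_cast; omega)

theorem Loc.continuous {r : ℕ} {f : Pt → Pt} (h : Loc r f) : Continuous f := by
  refine continuous_pi (fun i => ?_)
  refine IsLocallyConstant.continuous ?_
  rw [IsLocallyConstant.iff_exists_open]
  intro x
  refine ⟨{y | ∀ j ∈ Finset.Icc (i - (r : ℤ)) (i + r), y j = x j}, ?_, fun j _ => rfl, ?_⟩
  · have : {y : Pt | ∀ j ∈ Finset.Icc (i - (r : ℤ)) (i + r), y j = x j} =
        ⋂ j ∈ Finset.Icc (i - (r : ℤ)) (i + r), {y : Pt | y j = x j} := by
      ext y; simp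
    rw [this]
    refine isOpen_biInter_finset (fun j _ => ?_)
    exact IsOpen.preimage (f := fun y : Pt => y j) (continuous_apply j)
      (isOpen_discrete ({x j} : Set Bool))
  · intro y hy
    apply h
    intro j h1 h2
    exact hy j (Finset.mem_Icc.2 ⟨h1, h2⟩)

theorem tr_tr (k l : ℤ) (x : Pt) : tr k (tr l x) = tr (k + l) x := by
  funext n; simp [tr, add_assoc]

theorem tr_zero (x : Pt) : tr 0 x = x := by
  funext n; simp [tr]

theorem tr_apply (k : ℤ) (x : Pt) (n : ℤ) : tr k x n = x (n + k) := rfl

theorem trE_apply (k : ℤ) (x : Pt) : trE k x = tr k x := rfl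

theorem trE_symm_apply (k : ℤ) (x : Pt) : (trE k).symm x = tr (-k) x := rfl

/-- commuting with the shift implies commuting with all translations -/
theorem comm_tr {f : Pt → Pt} (h : ∀ x : Pt, f (fun n => x (n + 1)) = fun n => f x (n + 1))
    (k : ℤ) (x : Pt) : f (tr k x) = tr k (f x) := by
  have h1 : ∀ x : Pt, f (tr 1 x) = tr 1 (f x) := h
  have hn : ∀ (n : ℕ) (x : Pt), f (tr (n : ℤ) x) = tr (n : ℤ) (f x) := by
    intro n
    induction n with
    | zero => intro x; simp [tr_zero]
    | succ n ih =>
      intro x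
      have e : ((n + 1 : ℕ) : ℤ) = 1 + (n : ℤ) := by push_cast; ring
      rw [e, ← tr_tr, h1, ih, tr_tr]
  have hneg : ∀ (n : ℕ) (x : Pt), f (tr (-(n : ℤ)) x) = tr (-(n : ℤ)) (f x) := by
    intro n x
    have h2 := hn n (tr (-(n : ℤ)) x)
    rw [tr_tr, add_neg_cancel, tr_zero] at h2
    rw [h2, tr_tr, neg_add_cancel, tr_zero]
  rcases Int.eq_nat_or_neg k with ⟨n, rfl | rfl⟩
  · exact hn n x
  · exact hneg n x

theorem IsAut.mono {r s : ℕ} {θ : Equiv.Perm Pt} (h : IsAut r θ) (hrs : r ≤ s) : IsAut s θ :=
  ⟨h.loc.mono hrs, h.locSymm.mono hrs, h.comm⟩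

theorem IsAut.comm_symm {r : ℕ} {θ : Equiv.Perm Pt} (h : IsAut r θ) (k : ℤ) (x : Pt) :
    θ.symm (tr k x) = tr k (θ.symm x) := by
  apply θ.injective
  rw [h.comm, Equiv.apply_symm_apply, Equiv.apply_symm_apply]

theorem IsAut.symm {r : ℕ} {θ : Equiv.Perm Pt} (h : IsAut r θ) : IsAut r θ.symm :=
  ⟨h.locSymm, h.loc, h.comm_symm⟩

theorem IsAut.inv {r : ℕ} {θ : Equiv.Perm Pt} (h : IsAut r θ) : IsAut r θ⁻¹ := h.symm

theorem IsAut.mul {r s : ℕ} {θ ψ : Equiv.Perm Pt} (h : IsAut r θ) (h' : IsAut s ψ) :
    IsAut (r + s) (θ * ψ) := by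
  refine ⟨?_, ?_, ?_⟩
  · exact h.loc.comp h'.loc
  · have := h'.locSymm.comp h.locSymm
    rw [add_comm] at this
    exact this
  · intro k x
    simp only [Equiv.Perm.mul_apply]
    rw [h'.comm, h.comm]

theorem IsAut.one : IsAut 0 (1 : Equiv.Perm Pt) := by
  refine ⟨?_, ?_, ?_⟩
  · intro x y i hxy
    exact hxy i (by simp) (by simp)
  · intro x y i hxy
    exact hxy i (by simp) (by simp)
  · intro k x; rfl

theorem isAut_trE (k : ℤ) : IsAut k.natAbs (trE k) := by
  refine ⟨?_, ?_, ?_⟩
  · intro x y i hxy
    exact hxy (i + k) (by omega) (by omega)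
  · intro x y i hxy
    exact hxy (i + -k) (by omega) (by omega)
  · intro l x
    simp only [trE_apply, tr_tr, add_comm]

theorem IsAut.continuous {r : ℕ} {θ : Equiv.Perm Pt} (h : IsAut r θ) : Continuous θ :=
  h.loc.continuous

theorem IsAut.isInv {r : ℕ} {θ : Equiv.Perm Pt} (h : IsAut r θ) (h2 : ∀ x, θ (θ x) = x) :
    IsInv θ :=
  ⟨h.continuous, h2, fun x => h.comm 1 x⟩

/-! ### The group `G` -/

theorem isInv_mem_G {ι : Equiv.Perm Pt} (h : IsInv ι) : ι ∈ G :=
  Subgroup.subset_closure (Or.inr h)

theorem trE_add (k l : ℤ) : trE (k + l) = trE k * trE l := by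
  ext x : 1
  simp only [Equiv.Perm.mul_apply, trE_apply, tr_tr]

theorem trE_zero : trE 0 = 1 := by
  ext x : 1
  simp only [trE_apply, tr_zero, Equiv.Perm.one_apply]

theorem trE_neg (k : ℤ) : trE (-k) = (trE k)⁻¹ := by
  rw [eq_inv_iff_mul_eq_one, ← trE_add, neg_add_cancel, trE_zero]

theorem trE_mem_G (k : ℤ) : trE k ∈ G := by
  have h1 : trE 1 ∈ G := Subgroup.subset_closure (Or.inl rfl)
  have hn : ∀ n : ℕ, trE (n : ℤ) ∈ G := by
    intro n
    induction n with
    | zero => simp [trE_zero]
    | succ n ih =>
      push_cast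
      rw [trE_add]
      exact G.mul_mem ih h1
  rcases Int.eq_nat_or_neg k with ⟨n, rfl | rfl⟩
  · exact hn n
  · rw [trE_neg]; exact G.inv_mem (hn n)

/-- Every element of `G` is a composition of involutions applied after a power of the shift. -/
theorem gen_of_mem_G {ψ : Equiv.Perm Pt} (h : ψ ∈ G) : Gen ψ := by
  have key : ∀ ψ ∈ G, ∃ k : ℤ, ∃ L : List (Equiv.Perm Pt), (∀ g ∈ L, IsInv g) ∧
      ψ = L.prod * trE k := by
    intro ψ hψ
    induction hψ using Subgroup.closure_induction with
    | mem x hx =>
      rcases hx with hx | hx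
      · exact ⟨1, [], by simp, by simpa using hx⟩
      · exact ⟨0, [x], by simpa using hx, by simp [trE_zero]⟩
    | one => exact ⟨0, [], by simp, by simp [trE_zero]⟩
    | mul x y _ _ hx hy =>
      obtain ⟨k, L, hL, rfl⟩ := hx
      obtain ⟨l, M, hM, rfl⟩ := hy
      refine ⟨k + l, L ++ M, ?_, ?_⟩
      · intro g hg
        rcases List.mem_append.1 hg with hg | hg
        · exact hL g hg
        · exact hM g hg
      · have hc : ∀ M : List (Equiv.Perm Pt), (∀ g ∈ M, IsInv g) →
            trE k * M.prod = M.prod * trE k := by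
          intro M hM
          induction M with
          | nil => simp
          | cons m M ih =>
            have hm := hM m (by simp)
            have h1 : trE k * m = m * trE k := by
              ext x : 1
              simp only [Equiv.Perm.mul_apply, trE_apply]
              rw [comm_tr hm.2.2]
            rw [List.prod_cons, ← mul_assoc, h1, mul_assoc,
              ih (fun g hg => hM g (by simp [hg])), mul_assoc]
        rw [List.prod_append, trE_add, mul_assoc, ← mul_assoc (trE k), hc M hM]
        simp only [mul_assoc]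
    | inv x _ hx =>
      obtain ⟨k, L, hL, rfl⟩ := hx
      have hinv : ∀ L : List (Equiv.Perm Pt), (∀ g ∈ L, IsInv g) →
          (L.prod)⁻¹ = L.reverse.prod := by
        intro L hL
        induction L with
        | nil => simp
        | cons m L ih =>
          have hm := hL m (by simp)
          have h1 : m⁻¹ = m := by
            rw [inv_eq_iff_mul_eq_one]
            ext x : 1
            exact hm.2.1 x
          rw [List.prod_cons, mul_inv_rev, ih (fun g hg => hL g (by simp [hg])), h1,
            List.reverse_cons, List.prod_append]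
          simp
      have hc : ∀ M : List (Equiv.Perm Pt), (∀ g ∈ M, IsInv g) →
            trE (-k) * M.prod = M.prod * trE (-k) := by
          intro M hM
          induction M with
          | nil => simp
          | cons m M ih =>
            have hm := hM m (by simp)
            have h1 : trE (-k) * m = m * trE (-k) := by
              ext x : 1
              simp only [Equiv.Perm.mul_apply, trE_apply]
              rw [comm_tr hm.2.2]
            rw [List.prod_cons, ← mul_assoc, h1, mul_assoc,
              ih (fun g hg => hM g (by simp [hg])), mul_assoc]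
      refine ⟨-k, L.reverse, by simpa using hL, ?_⟩
      rw [mul_inv_rev, ← trE_neg, hinv L hL]
      exact hc _ (by simpa using hL)
  obtain ⟨k, L, hL, rfl⟩ := key ψ h
  refine ⟨k, L.map (fun g : Equiv.Perm Pt => (g : Pt → Pt)), ?_, ?_⟩
  · intro g hg
    rw [List.mem_map] at hg
    obtain ⟨g', hg', rfl⟩ := hg
    exact hL g' hg'
  · intro x
    rw [Equiv.Perm.mul_apply, trE_apply]
    have : ∀ (L : List (Equiv.Perm Pt)) (y : Pt),
        (L.prod) y = ((L.map (fun g : Equiv.Perm Pt => (g : Pt → Pt))).foldr (· ∘ ·) id) y := by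
      intro L y
      induction L with
      | nil => rfl
      | cons m L ih =>
        rw [List.prod_cons, Equiv.Perm.mul_apply, ih]
        rfl
    exact this L _

/-! ### Last ones and first ones -/

theorem IsLast.unique {x : Pt} {g g' : ℤ} (h : IsLast x g) (h' : IsLast x g') : g = g' := by
  rcases lt_trichotomy g g' with hlt | heq | hgt
  · have := h.2 g' hlt; rw [h'.1] at this; cases this
  · exact heq
  · have := h'.2 g hgt; rw [h.1] at this; cases this

theorem IsFirst.unique {x : Pt} {g g' : ℤ} (h : IsFirst x g) (h' : IsFirst x g') : g = g' := by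
  rcases lt_trichotomy g g' with hlt | heq | hgt
  · have := h'.2 g hlt; rw [h.1] at this; cases this
  · exact heq
  · have := h.2 g' hgt; rw [h'.1] at this; cases this

theorem exists_last_of_ZR {x : Pt} {n : ℤ} (h : ZR x n) (hx : x ≠ zpt) :
    ∃ g, g < n ∧ IsLast x g := by
  have h1 : ∃ m, x m = true := by
    by_contra hcon
    push Not at hcon
    apply hx
    funext m
    simpa [zpt] using hcon m
  have hlt : ∀ m, x m = true → m < n := by
    intro m hm
    by_contra hcon
    rw [h m (by omega)] at hm
    cases hm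
  obtain ⟨g, hg, hmax⟩ := Int.exists_greatest_of_bdd (P := fun m => x m = true)
    ⟨n, fun m hm => (hlt m hm).le⟩ h1
  refine ⟨g, hlt g hg, hg, ?_⟩
  intro i hi
  by_contra hcon
  have := hmax i (by simpa using hcon)
  omega

theorem exists_first_of_ZL {x : Pt} {n : ℤ} (h : ZL x n) (hx : x ≠ zpt) :
    ∃ g, n ≤ g ∧ IsFirst x g := by
  have h1 : ∃ m, x m = true := by
    by_contra hcon
    push Not at hcon
    apply hx
    funext m
    simpa [zpt] using hcon m
  have hlt : ∀ m, x m = true → n ≤ m := by
    intro m hm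
    by_contra hcon
    rw [h m (by omega)] at hm
    cases hm
  obtain ⟨g, hg, hmin⟩ := Int.exists_least_of_bdd (P := fun m => x m = true)
    ⟨n, fun m hm => hlt m hm⟩ h1
  refine ⟨g, hlt g hg, hg, ?_⟩
  intro i hi
  by_contra hcon
  have := hmin i (by simpa using hcon)
  omega

theorem IsLast.ne_zpt {x : Pt} {g : ℤ} (h : IsLast x g) : x ≠ zpt := by
  rintro rfl
  exact absurd h.1 (by simp [zpt])

theorem IsFirst.ne_zpt {x : Pt} {g : ℤ} (h : IsFirst x g) : x ≠ zpt := by
  rintro rfl
  exact absurd h.1 (by simp [zpt])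

theorem IsLast.zr {x : Pt} {g : ℤ} (h : IsLast x g) : ZR x (g + 1) :=
  fun i hi => h.2 i (by omega)

theorem IsFirst.zl {x : Pt} {g : ℤ} (h : IsFirst x g) : ZL x g := h.2

theorem isLast_tr {x : Pt} {g k : ℤ} : IsLast (tr k x) g ↔ IsLast x (g + k) := by
  constructor
  · rintro ⟨h1, h2⟩
    refine ⟨h1, fun i hi => ?_⟩
    have := h2 (i - k) (by omega)
    simpa [tr] using this
  · rintro ⟨h1, h2⟩
    exact ⟨h1, fun i hi => h2 (i + k) (by omega)⟩

theorem isFirst_tr {x : Pt} {g k : ℤ} : IsFirst (tr k x) g ↔ IsFirst x (g + k) := by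
  constructor
  · rintro ⟨h1, h2⟩
    refine ⟨h1, fun i hi => ?_⟩
    have := h2 (i - k) (by omega)
    simpa [tr] using this
  · rintro ⟨h1, h2⟩
    exact ⟨h1, fun i hi => h2 (i + k) (by omega)⟩

/-- An automorphism fixing `0^∞` maps points vanishing from `n` on to points vanishing from
`n + r` on. -/
theorem IsAut.zr {r : ℕ} {θ : Equiv.Perm Pt} (h : IsAut r θ) (h0 : θ zpt = zpt) {x : Pt} {n : ℤ}
    (hx : ZR x n) : ZR (θ x) (n + r) := by
  intro i hi
  have := h.loc x zpt i (fun j h1 _ => by rw [hx j (by omega)]; rfl)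
  rw [this, h0]; rfl

theorem IsAut.zl {r : ℕ} {θ : Equiv.Perm Pt} (h : IsAut r θ) (h0 : θ zpt = zpt) {x : Pt} {n : ℤ}
    (hx : ZL x n) : ZL (θ x) (n - r) := by
  intro i hi
  have := h.loc x zpt i (fun j _ h2 => by rw [hx j (by omega)]; rfl)
  rw [this, h0]; rfl

theorem symm_zpt {θ : Equiv.Perm Pt} (h0 : θ zpt = zpt) : θ.symm zpt = zpt := by
  rw [Equiv.symm_apply_eq, h0]

theorem IsAut.isLast_image {r : ℕ} {θ : Equiv.Perm Pt} (h : IsAut r θ) (h0 : θ zpt = zpt)
    {x : Pt} {g : ℤ} (hx : IsLast x g) : ∃ g', IsLast (θ x) g' ∧ g - r ≤ g' ∧ g' ≤ g + r := by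
  have h1 := h.zr h0 hx.zr
  have hne : θ x ≠ zpt := by
    intro he
    rw [← h0] at he
    exact hx.ne_zpt (θ.injective he)
  obtain ⟨g', hg', hl⟩ := exists_last_of_ZR h1 hne
  refine ⟨g', hl, ?_, by omega⟩
  by_contra hcon
  have h2 := h.symm.zr (symm_zpt h0) hl.zr
  rw [Equiv.symm_apply_apply] at h2
  have h3 := h2 g (by omega)
  rw [hx.1] at h3
  cases h3

/-! ### Addresses -/

@[simp] theorem length_adr (x : Pt) (g : ℤ) (n : ℕ) : (adr x g n).length = n := by
  simp [adr]

@[simp] theorem adr_zero (x : Pt) (g : ℤ) : adr x g 0 = [] := rfl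

theorem adr_succ (x : Pt) (g : ℤ) (n : ℕ) : adr x g (n + 1) = adr x g n ++ [x (g - 1 - n)] := by
  simp [adr, List.range_succ]

theorem getElem_adr (x : Pt) (g : ℤ) (n k : ℕ) (hk : k < (adr x g n).length) :
    (adr x g n)[k] = x (g - 1 - (k : ℤ)) := by
  simp [adr]

theorem adr_add (x : Pt) (g : ℤ) (m n : ℕ) : adr x g (m + n) = adr x g m ++ adr x (g - m) n := by
  apply List.ext_getElem
  · simp
  · intro k h1 h2
    rw [getElem_adr]
    by_cases hk : k < m
    · rw [List.getElem_append_left (by simpa using hk), getElem_adr]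
    · rw [List.getElem_append_right (by simpa using Nat.le_of_not_lt hk), getElem_adr]
      congr 1
      simp only [length_adr]
      omega

theorem adr_take (x : Pt) (g : ℤ) (m n : ℕ) (h : m ≤ n) : (adr x g n).take m = adr x g m := by
  obtain ⟨k, rfl⟩ := Nat.exists_eq_add_of_le h
  rw [adr_add, List.take_left' (length_adr _ _ _)]

theorem adr_congr {x y : Pt} {g : ℤ} {n : ℕ} (h : ∀ i : ℤ, g - n ≤ i → i < g → x i = y i) :
    adr x g n = adr y g n := by
  apply List.ext_getElem
  · simp
  · intro k h1 h2
    rw [getElem_adr, getElem_adr]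
    simp only [length_adr] at h1
    exact h _ (by omega) (by omega)

theorem adr_eq_iff {x y : Pt} {g g' : ℤ} {n : ℕ} :
    adr x g n = adr y g' n ↔ ∀ k : ℕ, k < n → x (g - 1 - k) = y (g' - 1 - k) := by
  constructor
  · intro h k hk
    have h1 : k < (adr x g n).length := by simpa using hk
    have h2 : k < (adr y g' n).length := by simpa using hk
    rw [← getElem_adr x g n k h1, ← getElem_adr y g' n k h2]
    simp only [h]
  · intro h
    apply List.ext_getElem
    · simp
    · intro k h1 h2
      rw [getElem_adr, getElem_adr]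
      simp only [length_adr] at h1
      exact h k h1

theorem adr_eq_list_iff {x : Pt} {g : ℤ} {w : List Bool} :
    adr x g w.length = w ↔ ∀ (k : ℕ) (hk : k < w.length), x (g - 1 - k) = w[k] := by
  constructor
  · intro h k hk
    have h1 : k < (adr x g w.length).length := by simpa using hk
    rw [← getElem_adr x g w.length k h1]
    simp only [h]
  · intro h
    apply List.ext_getElem
    · simp
    · intro k h1 h2
      rw [getElem_adr]
      exact h k h2

theorem adr_tr (x : Pt) (g k : ℤ) (n : ℕ) : adr (tr k x) g n = adr x (g + k) n := by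
  rw [adr_eq_iff]
  intro j _
  simp only [tr]
  congr 1
  ring

theorem LA.isLast {x : Pt} {g : ℤ} {w : List Bool} (h : LA x g w) : IsLast x g := h.1

theorem la_append {x : Pt} {g : ℤ} {v w : List Bool} (h : LA x g (v ++ w)) : LA x g v := by
  refine ⟨h.1, ?_⟩
  have h2 := h.2
  rw [List.length_append, adr_add] at h2
  exact (List.append_inj h2 (by simp)).1

theorem la_prefix {x : Pt} {g : ℤ} {v w : List Bool} (h : LA x g w) (hv : v <+: w) :
    LA x g v := by
  obtain ⟨u, rfl⟩ := hv
  exact la_append h

/-- Two addresses of the same point are comparable. -/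
theorem la_comparable {x : Pt} {g : ℤ} {v w : List Bool} (h : LA x g v) (h' : LA x g w)
    (hl : v.length ≤ w.length) : v <+: w := by
  have h1 := adr_take x g v.length w.length hl
  rw [h'.2, h.2] at h1
  rw [← h1]
  exact List.take_prefix _ _

/-! ### Cores and types -/

theorem coreW_length (w : List Bool) : coreW w w.length = true := by
  simp [coreW]

theorem coreW_gt (w : List Bool) {k : ℕ} (hk : w.length < k) : coreW w k = false := by
  unfold coreW
  rw [List.getD_eq_default]
  simpa using hk

theorem coreW_lt (w : List Bool) {k : ℕ} (hk : k < w.length) :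
    coreW w k = w[w.length - 1 - k]'(by omega) := by
  unfold coreW
  rw [List.getD_append _ _ _ _ (by simpa using hk), List.getD_eq_getElem _ _ (by simpa using hk),
    List.getElem_reverse]

theorem lz_append_of_all {l m : List Bool} (h : ∀ b ∈ l, b = false) :
    lz (l ++ m) = l.length + lz m := by
  induction l with
  | nil => simp
  | cons b l ih =>
    have hb := h b (by simp)
    subst hb
    simp only [List.cons_append, lz, List.length_cons]
    rw [ih (fun b hb => h b (by simp [hb]))]
    omega

theorem lz_append_of_ex {l m : List Bool} (h : ∃ b ∈ l, b = true) : lz (l ++ m) = lz l := by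
  induction l with
  | nil => simp at h
  | cons b l ih =>
    cases b with
    | true => rfl
    | false =>
      simp only [List.cons_append, lz]
      rw [ih]
      obtain ⟨b, hb, h2⟩ := h
      refine ⟨b, ?_, h2⟩
      rcases List.mem_cons.1 hb with h3 | h3
      · rw [h3] at h2; cases h2
      · exact h3

theorem ty_append {a b : List Bool} (s : List Bool) (h : ty a = ty b) :
    ty (a ++ s) = ty (b ++ s) := by
  unfold ty at *
  rw [List.reverse_append, List.reverse_append]
  by_cases hs : ∃ b ∈ s.reverse, b = true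
  · rw [lz_append_of_ex hs, lz_append_of_ex hs]
  · push Not at hs
    have hs' : ∀ b ∈ s.reverse, b = false := fun b hb => by simpa using hs b hb
    rw [lz_append_of_all hs', lz_append_of_all hs', h]

theorem lz_le_length (l : List Bool) : lz l ≤ l.length := by
  induction l with
  | nil => simp [lz]
  | cons b l ih =>
    cases b with
    | true => simp [lz]
    | false => simp [lz]; exact ih

theorem ty_le_length (p : List Bool) : ty p ≤ p.length := by
  simpa [ty] using lz_le_length p.reverse

theorem getD_lz (l : List Bool) : (l ++ [true]).getD (lz l) false = true := by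
  induction l with
  | nil => simp [lz]
  | cons b l ih =>
    cases b with
    | true => simp [lz]
    | false => simpa [lz] using ih

theorem getD_lt_lz (l : List Bool) {j : ℕ} (hj : j < lz l) :
    (l ++ [true]).getD j false = false := by
  induction l generalizing j with
  | nil => simp [lz] at hj
  | cons b l ih =>
    cases b with
    | true => simp [lz] at hj
    | false =>
      cases j with
      | zero => simp
      | succ j =>
        simp only [lz] at hj
        simpa using ih (by omega)

theorem coreW_ty (p : List Bool) : coreW p (ty p) = true := getD_lz p.reverse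

theorem coreW_lt_ty (p : List Bool) {j : ℕ} (hj : j < ty p) : coreW p j = false :=
  getD_lt_lz p.reverse hj

theorem ty_unique {p : List Bool} {k : ℕ} (h1 : coreW p k = true)
    (h2 : ∀ j < k, coreW p j = false) : ty p = k := by
  rcases lt_trichotomy (ty p) k with h | h | h
  · have := h2 _ h; rw [coreW_ty] at this; cases this
  · exact h
  · have := coreW_lt_ty p h; rw [h1] at this; cases this

/-- A point with the last one at `g` and the address `w` reads the core of `w` at `g - |w|`. -/
theorem la_iff_reads {x : Pt} {c : ℤ} {w : List Bool} {h : ℕ} (hw : w.length < h) :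
    LA x (c + w.length) w ↔ Reads x c h (coreW w) ∧ ZR x (c + h) := by
  constructor
  · rintro ⟨⟨h1, h2⟩, h3⟩
    rw [adr_eq_list_iff] at h3
    refine ⟨?_, fun i hi => h2 i (by omega)⟩
    intro k hk
    rcases lt_trichotomy k w.length with hlt | heq | hgt
    · rw [coreW_lt w hlt]
      rw [← h3 (w.length - 1 - k) (by omega)]
      congr 1
      omega
    · subst heq
      rw [coreW_length, h1]
    · rw [coreW_gt w hgt]
      exact h2 _ (by omega)
  · rintro ⟨h1, h2⟩
    refine ⟨⟨?_, ?_⟩, ?_⟩
    · rw [h1 w.length hw, coreW_length]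
    · intro i hi
      by_cases hih : i < c + h
      · have h3 := h1 (i - c).toNat (by omega)
        have e : c + (((i - c).toNat : ℕ) : ℤ) = i := by omega
        rw [e] at h3
        rw [h3, coreW_gt w (by omega)]
      · exact h2 i (by omega)
    · rw [adr_eq_list_iff]
      intro k hk
      have h3 := h1 (w.length - 1 - k) (by omega)
      have e : c + ((w.length - 1 - k : ℕ) : ℤ) = c + w.length - 1 - k := by omega
      rw [e] at h3
      rw [h3, coreW_lt w (by omega)]
      congr 1
      omega

/-! ### Sites -/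

/-- `c` is a site of `x` for the address `w`: the core of `w` is read on `[c, c+h)` and then
zeros follow on `[c+h, c+N)`. -/
def Site (x : Pt) (c : ℤ) (h N : ℕ) (w : List Bool) : Prop :=
  Reads x c h (coreW w) ∧ ZOn x (c + h) (c + N)

theorem Site.one {x : Pt} {c : ℤ} {h N : ℕ} {w : List Bool} (hs : Site x c h N w)
    (hw : w.length < h) : x (c + w.length) = true := by
  rw [hs.1 w.length hw, coreW_length]

theorem Site.zero {x : Pt} {c : ℤ} {h N : ℕ} {w : List Bool} (hs : Site x c h N w) {i : ℤ}
    (h1 : c + w.length < i) (h2 : i < c + N) : x i = false := by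
  by_cases hi : i < c + h
  · have := hs.1 (i - c).toNat (by omega)
    have e : c + (((i - c).toNat : ℕ) : ℤ) = i := by omega
    rw [e] at this
    rw [this, coreW_gt w (by omega)]
  · exact hs.2 i (by omega) h2

/-- The letters of the address are read to the left of the last one of the core. -/
theorem Site.letter {x : Pt} {c : ℤ} {h N : ℕ} {w : List Bool} (hs : Site x c h N w)
    (hw : w.length < h) {k : ℕ} (hk : k < w.length) : x (c + w.length - 1 - k) = w[k] := by
  have := hs.1 (w.length - 1 - k) (by omega)
  have e : c + ((w.length - 1 - k : ℕ) : ℤ) = c + w.length - 1 - k := by omega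
  rw [e] at this
  rw [this, coreW_lt w (by omega)]
  congr 1
  omega

/-- Separation of two different sites. -/
theorem site_sep {x : Pt} {c c' : ℤ} {h N : ℕ} {w w' : List Bool} (hw : w.length < h)
    (hw' : w'.length < h) (hN : h ≤ N) (hinc : ¬ w' <+: w ∨ w = w')
    (hs : Site x c h N w) (hs' : Site x c' h N w') (hcc : c < c') :
    c + N ≤ c' + w'.length := by
  by_contra hcon
  have h1 := hs.one hw
  have h1' := hs'.one hw'
  have h2 : c' + w'.length ≤ c + w.length := by
    by_contra h3
    rw [hs.zero (by omega) (by omega)] at h1'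
    cases h1'
  have h2' : c + w.length ≤ c' + w'.length := by
    by_contra h3
    rw [hs'.zero (by omega) (by omega)] at h1
    cases h1
  rcases hinc with hinc | hinc
  · apply hinc
    rw [List.prefix_iff_getElem]
    refine ⟨by omega, ?_⟩
    intro k hk
    rw [← hs.letter hw (k := k) (by omega), ← hs'.letter hw' (k := k) hk]
    congr 1
    omega
  · subst hinc
    omega

/-- A site of a point with the last one at `g`. -/
theorem site_last {x : Pt} {c g : ℤ} {h N : ℕ} {w : List Bool} (hw : w.length < h)
    (hs : Site x c h N w) (hx : IsLast x g) :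
    (c + w.length = g ∧ LA x g w) ∨ (c + w.length < g ∧ c + N ≤ g) := by
  have h1 := hs.one hw
  rcases lt_trichotomy (c + w.length) g with h2 | h2 | h2
  · right
    refine ⟨h2, ?_⟩
    by_contra hcon
    have := hs.zero h2 (by omega)
    rw [hx.1] at this
    cases this
  · left
    refine ⟨h2, ?_⟩
    subst h2
    rw [la_iff_reads hw]
    exact ⟨hs.1, fun i hi => hx.2 i (by omega)⟩
  · rw [hx.2 _ h2] at h1
    cases h1

theorem site_of_la {x : Pt} {g : ℤ} {w : List Bool} {h : ℕ} (N : ℕ) (hw : w.length < h)
    (hx : LA x g w) : Site x (g - w.length) h N w := by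
  have e : g = (g - w.length) + w.length := by ring
  rw [e] at hx
  rw [la_iff_reads hw] at hx
  exact ⟨hx.1, fun i hi _ => hx.2 i hi⟩

/-! ### `Std` and `exch` -/

theorem mem_Std {J : ℕ} {p : List Bool} : p ∈ Std J ↔ p.length < J := by
  unfold Std
  simp only [Finset.mem_biUnion, Finset.mem_range, Finset.mem_image, Finset.mem_univ, true_and]
  constructor
  · rintro ⟨n, hn, v, rfl⟩
    simpa using hn
  · intro h
    exact ⟨p.length, h, p.get, List.ofFn_get p⟩

theorem card_Std (J : ℕ) : (Std J).card + 1 = 2 ^ J := by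
  have : (Std J).card = ∑ n ∈ Finset.range J, 2 ^ n := by
    unfold Std
    rw [Finset.card_biUnion]
    · apply Finset.sum_congr rfl
      intro n _
      rw [Finset.card_image_of_injective _ List.ofFn_injective]
      simp
    · intro m _ n _ hmn
      rw [Function.onFun, Finset.disjoint_left]
      intro p hp hq
      simp only [Finset.mem_image, Finset.mem_univ, true_and] at hp hq
      obtain ⟨v, rfl⟩ := hp
      obtain ⟨w, hw⟩ := hq
      apply hmn
      have := congrArg List.length hw
      simpa using this.symm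
  rw [this]
  have := Nat.geomSum_eq (le_refl 2) J
  simp only [Nat.reduceSub, Nat.div_one] at this
  rw [this]
  have : 1 ≤ 2 ^ J := Nat.one_le_two_pow
  omega

theorem prefClosed_Std (J : ℕ) : PrefClosed (Std J) := by
  intro p q h
  rw [mem_Std] at *
  rw [List.length_append] at h
  omega

theorem mem_exch {I : Finset (List Bool)} {a b p : List Bool} :
    p ∈ exch I a b ↔ (p ∈ I ∧ ¬ b <+: p) ∨ ∃ s, b ++ s ∈ I ∧ p = a ++ s := by
  unfold exch
  simp only [Finset.mem_union, Finset.mem_filter, Finset.mem_image]
  constructor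
  · rintro (h | ⟨q, ⟨hq, ⟨s, rfl⟩⟩, rfl⟩)
    · exact Or.inl h
    · refine Or.inr ⟨s, hq, ?_⟩
      simp
  · rintro (h | ⟨s, hs, rfl⟩)
    · exact Or.inl h
    · refine Or.inr ⟨b ++ s, ⟨hs, ⟨s, rfl⟩⟩, ?_⟩
      simp

theorem PrefClosed.prefix_mem {I : Finset (List Bool)} (h : PrefClosed I) {p q : List Bool}
    (hpq : p <+: q) (hq : q ∈ I) : p ∈ I := by
  obtain ⟨s, rfl⟩ := hpq
  exact h p s hq

/-! ### Gluing -/

/-- the point equal to `x` before `c` and to `y` from `c` on -/
def glue (x y : Pt) (c : ℤ) : Pt := fun i => if i < c then x i else y i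

theorem glue_lt {x y : Pt} {c i : ℤ} (h : i < c) : glue x y c i = x i := by simp [glue, h]

theorem glue_ge {x y : Pt} {c i : ℤ} (h : c ≤ i) : glue x y c i = y i := by
  have : ¬ i < c := by omega
  simp [glue, this]

end Pool.MP_5a0708_an
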