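import Pool.Agent.Lib.MP_5a0708_an.Basic

/-!
# MP_5a0708_an : the modules (statements and paper proofs)

Every `def ... : Prop` is a module.  A module file proves `theorem xxx : XXX` (or
`theorem xxx (h1 : YYY) ... : XXX` when the docstring says that YYY may be used).
Everything needed about `adr`, `LA`, `coreW`, `ty`, `Site`, `exch`, `Std`, `IsAut` is in
`Basic.lean`.
-/

set_option autoImplicit false

namespace Pool.MP_5a0708_an

/-- **CHL** (Curtis-Hedlund-Lyndon).  Proof: (1) a continuous `f : Pt → Pt` commuting with the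
shift is `Loc r` for some `r`: for every `x` the set `{y | f y 0 = f x 0}` is open, hence contains
`{y | ∀ j ∈ I, y j = x j}` for a finite set `I`; by compactness finitely many of these sets cover
`Pt`; take `r` with all their `I ⊆ [-r, r]`; then `y = z` on `[-r,r]` implies `f y 0 = f z 0`;
use `comm_tr` to get it at every `i`.  (2) `φ` continuous bijective on a compact Hausdorff space:
the inverse is continuous (`Continuous.homeoOfEquivCompactToT2`) and commutes with the shift;
apply (1) to both, take the maximum. -/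
def CHL : Prop := ∀ φ : Pt → Pt, Continuous φ → Function.Bijective φ →
  (∀ x : Pt, φ (fun n => x (n + 1)) = fun n => φ x (n + 1)) →
  ∃ (r : ℕ) (θ : Equiv.Perm Pt), (∀ x, θ x = φ x) ∧ IsAut r θ

/-- **Swap**.  Define `ι x i`: if there is `c` with `S x c` and `c ≤ i < c + h` (unique by
`disj`) then `B (i - c)` if `Reads x c h A`, else `A (i - c)`; otherwise `ι x i = x i`.
Claim `S (ι x) c ↔ S x c`: (→direction of `mono`) `y = ι x` satisfies the two hypotheses of `mono`
for `(x, y)`, so `S x ⊆ S y`.  Now `mono` for `(y, x)`: if `S y c` and `S x c` then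
`Reads x c h A ∨ Reads x c h B` by `core`; if `S y c` and not `S x c` then `[c,c+h)` is disjoint
from all `[c1, c1+h)` with `S x c1` (as `S y c1`, `disj` for `y`, `c ≠ c1`), so `x = y` on
`[c,c+h)` and `core` for `y` gives it.  If `y i ≠ x i` then `i` is in `[c, c+h)` for some `c` with
`S x c`, hence `S y c`.  So `S y ⊆ S x`.  Then `ι (ι x) = x`: for `i` in the site `c`: if
`Reads x c h A` then `ι x` reads `B` at `c`, so `ι (ι x) i` is `A (i-c)` or (if `ι x` also reads
`A` at `c`, i.e. `A = B` on `[0,h)`) `B (i - c) = A (i-c)`; both equal `x i`.  Similarly otherwise.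
`ι` is shift-commuting by `cov` (and commutes with all `tr k`) and `Loc (R + h) ι` by `loc`
(so `IsAut (R+h) ι`, `IsAut.isInv`). -/
def Swap : Prop := ∀ (h R : ℕ) (A B : ℕ → Bool) (S : Pt → ℤ → Prop), SwapData h R A B S →
  ∃ ι : Equiv.Perm Pt, IsInv ι ∧ IsAut (R + h) ι ∧
    (∀ (x : Pt) (c : ℤ), S (ι x) c ↔ S x c) ∧
    (∀ (x : Pt) (c : ℤ), S x c → Reads x c h A → Reads (ι x) c h B) ∧
    (∀ (x : Pt) (c : ℤ), S x c → Reads x c h B → Reads (ι x) c h A) ∧
    (∀ (x : Pt) (i : ℤ), ι x i ≠ x i → ∃ c : ℤ, S x c ∧ c ≤ i ∧ i < c + h)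

/-- The sites of the typed move. -/
def S0 (a b : List Bool) (h N : ℕ) (x : Pt) (c : ℤ) : Prop := Site x c h N a ∨ Site x c h N b

/-- The sites of the first involution of the untyped move. -/
def S1 (a b : List Bool) (h N : ℕ) (x : Pt) (c : ℤ) : Prop :=
  S0 a b h N x c ∧ ∃ i : ℤ, c - 2 * h ≤ i ∧ i < c ∧ x i = true

/-- Isolated cores. -/
def W (a b : List Bool) (h : ℕ) (x : Pt) (c : ℤ) : Prop :=
  ZOn x (c - 2 * h) c ∧ S0 a b h (2 * h) x c

/-- The sites of the second involution of the untyped move. -/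
def S2 (a b : List Bool) (h N : ℕ) (x : Pt) (c : ℤ) : Prop :=
  W a b h x c ∧ ZOn x (c + h) (c + N) ∧ ∀ c' : ℤ, c < c' → c' < c + N → ¬ W a b h x c'

/-- **TData**.  `loc`: the site at `c` depends on `[c, c+N)`.  `disj`: `site_sep` gives
`c + N ≤ c' + |w'|` and `|w'| < h`, `2 h ≤ N`.  `mono`: let `S0 x c`; the core of `y` at `c` is
given.  `ZOn y (c+h) (c+N)`: let `i ∈ [c+h, c+N)`; `x i = false`.  If `x i ≠ y i` there is `c1` with
`S0 x c1`, `c1 ≤ i < c1 + h`.  `c1 = c` is impossible; `c1 < c` is impossible (`disj`: `c ≥ c1+h`).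
If `c < c1`: let `w1` be the address at `c1` in `x`, `k = ty a = ty b = ty w1`; `x (c1 + k) = true`
and `c1 + k ≥ c + h`, so `c1 + k ≥ c + N > i`, so `i - c1 < k` and `y i = coreW _ (i - c1) = false`
by `coreW_lt_ty` (whatever `y` reads at `c1`).  Contradiction. -/
def TData : Prop := ∀ (a b : List Bool) (h N : ℕ), a.length < h → b.length < h → 2 * h ≤ N →
  ¬ a <+: b → ¬ b <+: a → ty a = ty b → SwapData h N (coreW a) (coreW b) (S0 a b h N)

/-- **MoveT** (uses `Swap`, `TData`).  `h = max |a| |b| + 1`, `N = 2 h + d`, `ψ = ι`.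
`ψ zpt = zpt` because `zpt` has no sites (a site contains a one).
`ab`: `LA x g (a ++ t)`, put `c = g - |a|`; `Site x c h N a` (`site_of_la`, `la_append`), so `ι x`
reads `coreW b` at `c`.  A changed position is in `[c1, c1+h)` for a site `c1`; if `c1 ≠ c` then
by `site_last` either `LA x g w1` and `c1 + |w1| = g` (then `w1` is `a` by incomparability with
`la_comparable`, so `c1 = c`) or `c1 + N ≤ g`, so `c1 + h ≤ g - N + h < c - d`.  Hence `ι x = x` on
`[c-d, c)` and on `[c+h, ∞)`.  So (with `la_iff_reads`) `LA (ι x) (c + |b|) b`, and the next `d`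
letters are those of `x`, i.e. `t` (`adr_add`, `adr_congr`).  `ba`: the same.
`other`: all sites `c1` have `c1 + N ≤ g`, so nothing changes on `[g - d, ∞)`.
`PresFirst`: as `ι` is an involution it is enough that `IsFirst x g → IsFirst (ι x) g`.  Let
`k = ty a = ty b`.  If `g` is in the core of the site `c` then `x (c+k) = true` and
`coreW w (g - c) = true`, so `g - c ≥ k` by `coreW_lt_ty`, and `g ≤ c + k` as `g` is the first
one: `g = c + k` and `ι x g = true`.  If `g` is in no core, `ι x g = x g`.  For `i < g`: if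
`ι x i ≠ x i`, `i` is in the core of a site `c1` and `c1 + k ≥ g > i`, so `ι x i = false`. -/
def MoveT : Prop := ∀ (a b : List Bool) (d : ℕ), ¬ a <+: b → ¬ b <+: a → ty a = ty b →
  ∃ ψ : Equiv.Perm Pt, ψ ∈ G ∧ ψ zpt = zpt ∧ MoveSpec a b d ψ ∧ PresFirst ψ

/-- **Data1**.  The sites `S1` depend on `[c - 2h, c + N)`.  Two sites `c < c'` satisfy
`c + N ≤ c'`: `site_sep` gives `c' > c + N - h`; there is `i ∈ [c' - 2h, c')` with `x i = true` and
`c + h ≤ c + N - 3h < i`, so `i ≥ c + N` as `x = 0` on `[c+h, c+N)`.  `mono`: changed positions are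
in cores of sites `c1`; for a site `c`: `[c+h, c+N)` meets no core (a site `c1 > c` has
`c1 ≥ c + N`, a site `c1 < c` has `c1 + h ≤ c`), and `[c - 2h, c)` meets no core (a site `c1 < c`
has `c1 + N ≤ c`, so `c1 + h ≤ c - 3h`); so both conditions persist. -/
def Data1 : Prop := ∀ (a b : List Bool) (h N : ℕ), a.length < h → b.length < h → 4 * h ≤ N →
  ¬ a <+: b → ¬ b <+: a → SwapData h N (coreW a) (coreW b) (S1 a b h N)

/-- **Data2**.  `W x c` depends on `[c - 2h, c + 2h)`, so `S2 x c` depends on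
`[c - 2h, c + N + 2h)`, `R = 2 N`.
(a) Let `W x c`, `W x c'`, `c < c'` (addresses `w`, `w'`).  Then `c + 2h + |w| < c'`:
`site_sep` (with `N := 2h`) gives `c + 2h ≤ c' + |w'|`, so `c + h < c'`; the one at `c + |w|`
is not in `[c' - 2h, c')`, and `c + |w| < c'`, so `c + |w| < c' - 2h`.
(b) Let `x, y` be as in `mono` (`S = S2`): `T` = the sites `S2 x`; `x` and `y` differ only in
the cores `[c1, c1+h)`, `c1 ∈ T`, and `y` reads `coreW a` or `coreW b` at every `c1 ∈ T`.
Claim `W x c → W y c`: core: if `c ∈ T` given; otherwise the cores of `T` are disjoint from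
`[c, c+h)` by (a), so `y = x` there.  `[c-2h, c)`: a core `[c1,c1+h)` (`c1 ∈ T`) meeting it has
`c1 < c`, and then `c ≥ c1 + N ≥ c1 + 4h` because `W x c` and `S2 x c1`: no meeting.
`[c+h, c+2h)`: a core meeting it has `c1 > c`, and `c1 > c + 2h` by (a): no.
(c) Claim `W y c → W x c`: suppose `W y c` and not `W x c`.  Then some position of
`[c - 2h, c + 2h)` was changed, so there is `c1 ∈ T` with `[c1, c1+h)` meeting `[c-2h, c+2h)`;
`c1 ≠ c`.  By (b) `W y c1`; by (a) in `y`: if `c < c1` then `c1 > c + 2h`, no meeting.  So `c1 < c`,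
`c > c1 + 2h`, `c < c1 + 3h`.  In `x`: `x = 0` on `[c1 + h, c1 + N)` which contains `[c, c+h)`.  No
position of `[c, c+h)` was changed: it would be in a core `[c2, c2+h)`, `c2 ∈ T`, with
`c1 < c2 < c1 + N`, against `S2 x c1` (as `W x c2`).  So `y = 0` on `[c,c+h)`, against `W y c`.
(d) `S2 x c → S2 y c`: `W y c` by (b); `ZOn y (c+h) (c+N)`: a changed position in there would be
in a core `c1 ∈ T` with `c < c1 < c + N` (`c1 ≤ c` is impossible, cores are disjoint), against
`S2 x c`; no `W y c'` in `(c, c+N)` by (c).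
`disj`: by (a). -/
def Data2 : Prop := ∀ (a b : List Bool) (h N : ℕ), a.length < h → b.length < h → 4 * h ≤ N →
  ¬ a <+: b → ¬ b <+: a → SwapData h (2 * N) (coreW a) (coreW b) (S2 a b h N)

/-- **MoveU** (uses `Swap`, `Data1`, `Data2`).  `h = max |a| |b| + 1`, `N = 4h + d`,
`ψ = ι2 * ι1` (`ι1` first).  `ψ zpt = zpt`: no sites in `zpt`.
For both involutions the sites are `S0`-sites (`S2` with `ZOn x (c+h) (c+N)`), so by `site_last`
for `x` with the last one at `g`: a site `c1` with address `w1` has `c1 + |w1| = g` and `LA x g w1`,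
or `c1 + N ≤ g` and then `c1 + h ≤ g - 3h - d`.
`other`: `x` has only sites of the second kind, so `ι1 x = x` on `[g - d, ∞)` (even on
`[g - 3h - d, ∞)`); then `ι1 x` has the last one at `g`, is not `LA _ g a`, `LA _ g b`
(as `|a|, |b| < h`), and the same argument applies to `ι2`.
`ab`: `LA x g (a ++ t)`, `c = g - |a|`; `Site x c h N a`.
Case 1: there is a one in `[c - 2h, c)`.  Then `S1 x c`, so `y = ι1 x` reads `coreW b` at `c`; all
other changed positions are `< g - 3h - d ≤ c - 2h - d` (note `g ≤ c + h - 1`), so `y = x` on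
`[c - 2h - d, c)` and on `[c+h, ∞)`; so `LA y (c + |b|) (b ++ t)` and there is a one of `y` in
`[c - 2h, c)`.  Now `ι2`: `c` is not a `W`-site of `y`; all sites are `≠ c`, so (by incomparability)
of the second kind (with `g' = c + |b|`), nothing changes on `[g' - 3h - d, ∞)`.
Case 2: no one in `[c - 2h, c)`.  Then `c` is not an `S1`-site, all changed positions are
`< c - 2h - d`, `y = ι1 x` equals `x` on `[c - 2h - d, ∞)`.  `S2 y c`: `W y c` clear, zeros clear; a
`W`-site `c'` with `c < c' < c + N` has by `site_last` (`N := 2h`) `c' + |w'| = g`, `LA y g w'`, so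
`w' = a`, `c' = c`, or `c' + 2h ≤ g < c + h`, impossible.  So `ι2 y` reads `coreW b` at `c`, other
changes are `< c - 2h - d`.  `ba`: the same with `a`, `b` exchanged. -/
def MoveU : Prop := ∀ (a b : List Bool) (d : ℕ), ¬ a <+: b → ¬ b <+: a →
  ∃ ψ : Equiv.Perm Pt, ψ ∈ G ∧ ψ zpt = zpt ∧ MoveSpec a b d ψ

/-- **CodeEx**.  Put `I = {p | ∃ z g g', IsLast z g ∧ IsLast (θ z) g' ∧ p = adr (θ z) g' |p| ∧
|p| < g' - g + J}`.  Lengths are `< r + J` (`isLast_image`), so `I` is a subset of `Std (r+J)`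
(define `I` as a `filter` of it).  Prefix closed: `adr_take`.  `Code`: `←` is the definition.  `→`:
let `adr (θ z) g' n = adr (θ z1) g1' n` with `n < g1' - g1 + J`.  Replace `z1` by `tr` of it
(`isLast_tr`, `adr_tr`, `comm`) so that `g1' = g'`.  Then `θ z = θ z1` on `[g' - n, ∞)`.
Suppose `n ≥ g' - g + J`.  Then `g' - n ≤ g - J`, so `z = z1` on `[g - J + r, ∞)` (locality of the
inverse), which contains `[g, ∞)`; so `z1` has its last one at `g`, `g1 = g`, and
`g' - n > g1 - J = g - J ≥ g' - n`, a contradiction. -/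
def CodeEx : Prop := ∀ (r J : ℕ) (θ : Equiv.Perm Pt), IsAut r θ → θ zpt = zpt → r ≤ J →
  ∃ I : Finset (List Bool), PrefClosed I ∧ Code θ I J

/-- **CodeStep**.  Let `z` have the last one at `g`, `θ z` at `g'` (exists by `isLast_image`), and
`ψ (θ z)` at `g''`; `I' = exch I a b`, `mem_exch`.  Write `ℓ = g' - g + J`; `Code` says
`adr (θ z) g' n ∈ I ↔ n < ℓ`.
Case A: `LA (θ z) g' a`.  As `a ∉ I` and the proper prefixes of `a` are in `I`, `ℓ = |a|`
(`adr_take`; `a ≠ []` as `a` is not a prefix of `b`).  Write `adr (θ z) g' (|a| + d) = a ++ t`; so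
`g'' = g' - |a| + |b|` and `adr (ψ (θ z)) g'' (|b| + d) = b ++ t`.  To show:
`adr (ψ (θ z)) g'' n ∈ I' ↔ n < g'' - g + J = |b|`.  For `n < |b|`: it is a proper prefix of `b`, in
`I`, without the prefix `b`: in `I'`.  For `n ≥ |b|`: it has the prefix `b`, so it is in `I'` only if
it has the prefix `a`, impossible (two prefixes of the same list are comparable).
Case B: `LA (θ z) g' b`.  `adr (θ z) g' (|b| + d) = b ++ t`, `g'' = g' - |b| + |a|`,
`adr (ψ (θ z)) g'' (|a| + d) = a ++ t`; to show `adr .. n ∈ I' ↔ n < ℓ - |b| + |a|`.  `|b| < ℓ` as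
`b ∈ I`.  `n < |a|`: a proper prefix of `a`, in `I`, without prefix `b`: in `I'`; and the right side
holds.  `n = |a| + m`, `m ≤ d`: it is `a ++ t.take m`; in `I'` iff `b ++ t.take m ∈ I` (it is not in
`I` as `a ∉ I`) iff `|b| + m < ℓ`.  `n > |a| + d`: it is `a ++ s` with `|s| > d`, not in `I'` as
`b ++ s ∉ I` by the length; and `ℓ ≤ d` because `adr (θ z) g' (ℓ-1) ∈ I` (if `ℓ ≥ 1`) has length
`< d`; so the right side is false.
Case C: neither.  `g'' = g'` and the first `d` letters agree.  `n ≤ d`: `adr (ψ (θ z)) g'' n =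
adr (θ z) g' n = p` (`adr_take`), which has neither the prefix `b` nor `a`; so `p ∈ I' ↔ p ∈ I`.
`n > d`: not in `I'` (all words of `I'` have length `≤ d`: `|p| + |a| < d` for `p ∈ I`), and
`ℓ ≤ d`.
`PrefClosed I'`: let `p ++ q ∈ I'`.  If `p ++ q ∈ I` without prefix `b` then `p ∈ I` without prefix
`b`.  If `p ++ q = a ++ s`, `b ++ s ∈ I`: either `p = a ++ s1`, `s = s1 ++ q` and `b ++ s1 ∈ I`; or
`p` is a proper prefix of `a`, in `I`, and `b` is not a prefix of `p`. -/
def CodeStep : Prop := ∀ (r J d : ℕ) (θ ψ : Equiv.Perm Pt) (I : Finset (List Bool))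
  (a b : List Bool), IsAut r θ → θ zpt = zpt → PrefClosed I → Code θ I J →
  a ∉ I → (∀ p, p <+: a → p ≠ a → p ∈ I) → b ∈ I → ¬ a <+: b → ¬ b <+: a →
  MoveSpec a b d ψ → (∀ p ∈ I, p.length + a.length < d) →
  Code (fun z => ψ (θ z)) (exch I a b) J ∧ PrefClosed (exch I a b)

/-- **ExchComb** (pure combinatorics of finite sets of words).  Induction on
`#(Std J \ I)`.  If `Std J ⊆ I` then (summing the hypothesis over `k`, or: for every `k` the filter
of `Std J` is contained in that of `I` and has the same cardinality) `I = Std J`.  Otherwise choose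
`a ∈ Std J \ I` of minimal length; its proper prefixes are shorter, in `Std J`, hence in `I`.  Let
`k = τ a`.  As `#I_k = #(Std J)_k` and `a ∈ (Std J)_k \ I_k`, there is `b ∈ I_k \ (Std J)_k`, so
`|b| ≥ J > |a|`, `τ b = τ a`.  `b` is not a prefix of `a` (length), `a` is not a prefix of `b`
(`PrefClosed I`, `a ∉ I`).  `I' = exch I a b`: `PrefClosed I'` (let `p ++ q ∈ I'`.  If `p ++ q ∈ I`
without prefix `b` then `p ∈ I` without prefix `b`.  If `p ++ q = a ++ s`, `b ++ s ∈ I`: either
`p = a ++ s1`, `s = s1 ++ q`, `b ++ s1 ∈ I`; or `p` is a proper prefix of `a`, so in `I`, and `b` is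
not a prefix of `p`).  `Q I'` by hypothesis.  `#I'_k = #I_k` for all `k`: the map `b ++ s ↦ a ++ s`
(identity on the other elements) is a bijection `I → I'` preserving `τ` (the words `a ++ s` are not
in `I`).  `Std J \ I' ⊂ Std J \ I` strictly: `p ∈ Std J ∩ I` has no prefix `b` by its length, so
it is in `I'`; `a ∈ I'` (as `b ∈ I`), `a ∉ I`. -/
def ExchComb : Prop := ∀ (τ : List Bool → ℕ),
  (∀ a b s : List Bool, τ a = τ b → τ (a ++ s) = τ (b ++ s)) →
  ∀ (J : ℕ) (Q : Finset (List Bool) → Prop),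
  (∀ I : Finset (List Bool), PrefClosed I → Q I → ∀ a b : List Bool, a ∉ I →
    (∀ p, p <+: a → p ≠ a → p ∈ I) → b ∈ I → ¬ a <+: b → ¬ b <+: a → τ a = τ b →
    a.length < J → J ≤ b.length → Q (exch I a b)) →
  ∀ I : Finset (List Bool), PrefClosed I → Q I →
    (∀ k : ℕ, (I.filter (fun p => τ p = k)).card = ((Std J).filter (fun p => τ p = k)).card) →
    Q (Std J)

/-- **CountInd**.  `CSet θ r ρ lam c` is finite: `z` in it is determined on `(-∞, c - r)` by
`θ z` on `(-∞, c)` (locality of the inverse), i.e. by `lam`, and on `[c + r, ∞)` by `ρ`; so `z` is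
determined by its restriction to `[c - r, c + r)` (inject into `Fin (2r) → Bool`).
The cardinality does not depend on `ρ`: `z ↦ glue z ρ' (c + r)` maps `CSet ρ` to `CSet ρ'`
(`θ z` before `c` depends only on `z` before `c + r`), with inverse `w ↦ glue w ρ (c + r)`.
It does not depend on `lam`: `z ↦ θ.symm (glue lam' (θ z) c)` maps `CSet lam` to `CSet lam'` (the
image agrees with `z` on `[c + r, ∞)` by locality of the inverse), with the inverse
`w ↦ θ.symm (glue lam (θ w) c)`.  It does not depend on `c`: `tr k` maps `CSet ρ lam c` onto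
`CSet (tr k ρ) (tr k lam) (c - k)`. -/
def CountInd : Prop := ∀ (r : ℕ) (θ : Equiv.Perm Pt), IsAut r θ →
  ∃ K : ℕ, ∀ (ρ lam : Pt) (c : ℤ), (CSet θ r ρ lam c).Finite ∧ (CSet θ r ρ lam c).ncard = K

/-- **CountPow** (uses `CountInd` for `θ` and `θ.symm`).  Let `K`, `K'` be the two constants.
`K * K' = 2 ^ (2 r)`: fix `c = 0`.  `T = {z | z = 0 on (-∞, -r) and on [r, ∞)}` has
`2 ^ (2 r)` elements.  Map `z ∈ T` to `m z = glue (θ z) zpt 0` (`θ z` before 0, zero from 0 on).
Fibre of `m` over `m z0`, `z0 ∈ T`: it is exactly `CSet θ r zpt (θ z0) 0` (if `z = 0` on `[r, ∞)`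
and `θ z = θ z0` before 0 then `z = z0 = 0` before `-r`), so it has `K` elements.  The image of `m`
is `CSet θ.symm r zpt zpt (-r)` `= {w | w = 0 on [0, ∞), θ.symm w = 0 before -r}`: if `z ∈ T`,
`w = glue (θ z) zpt 0` then `θ.symm w = z = 0` before `-r`; conversely for such `w` put
`z = glue (θ.symm w) zpt r`: `z ∈ T`, and `θ z = w` before 0.  So it has `K'` elements.
Now `K` divides `2 ^ (2r)`: `(Nat.dvd_prime_pow Nat.prime_two).1`. -/
def CountPow : Prop := ∀ (r : ℕ) (θ : Equiv.Perm Pt) (K : ℕ), IsAut r θ →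
  (∀ (ρ lam : Pt) (c : ℤ), (CSet θ r ρ lam c).Finite ∧ (CSet θ r ρ lam c).ncard = K) →
  ∃ m : ℕ, m ≤ 2 * r ∧ K = 2 ^ m

/-- **CountBal** (uses `CountInd`, `CountPow`).  `BSet θ (c' + r) c' = CSet θ r zpt zpt c'`
has `2 ^ m` elements for all `c'`.  For `n ≥ c' + r` the set `BSet θ (n+1) c'` has twice as many
elements as `BSet θ n c'`: changing `z` at `n` (`Function.update`) does not change `θ z` before
`c'`.  So `BSet θ n c'` is finite with `2 ^ (m + (n - c' - r))` elements.  Put `k = m - r`, then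
`|k| ≤ r`, and with `c' = c + k`: `ZL (tr k (θ z)) c ↔ ZL (θ z) (c + k)`, the exponent is
`m + n - c - k - r = n - c`. -/
def CountBal : Prop := ∀ (r : ℕ) (θ : Equiv.Perm Pt), IsAut r θ →
  ∃ k : ℤ, k.natAbs ≤ r ∧ ∀ (n c : ℤ), c + 2 * r ≤ n →
    (BSet (fun z => tr k (θ z)) n c).Finite ∧
    (BSet (fun z => tr k (θ z)) n c).ncard = 2 ^ (n - c).toNat

/-- **LeafComb**.  The set `I ∪ leaves` is `{[]} ∪ {p ++ [b] | p ∈ I, b}` (for a prefix closed
`I`; note that `p ∉ I` all of whose proper prefixes are in `I` is `[]` or `q ++ [b]` with `q ∈ I`),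
which has `2 #I + 1` elements; so there are `#I + 1` leaves. -/
def LeafComb : Prop := ∀ I : Finset (List Bool), PrefClosed I →
  {p : List Bool | p ∉ I ∧ ∀ q, q <+: p → q ≠ p → q ∈ I}.ncard = I.card + 1

/-- **LeafCount** (uses `LeafComb`).  Bijection between
`{z | IsLast z 0 ∧ ZL (θ z) (-J)}` and the leaves.  To `z` (with the last one of `θ z` at `g'`,
`g' ≥ -r ≥ -J`) associate `p = adr (θ z) g' (g' + J)`; by `Code` (`g = 0`) `p ∉ I`, its proper
prefixes are in `I`.  Injective: `θ z` is zero before `-J`, so it is determined by `p`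
(`g' = |p| - J`) and `p`.  Surjective: let `p` be a leaf; let `w` be the point with the last one at
`g' = |p| - J`, `adr w g' |p| = p` and zero before `-J`; `z = θ.symm w` has a last one `g`
(`isLast_image` for the inverse); by `Code`: `|p| ≥ g' - g + J` (as `p ∉ I`), and if `p ≠ []` then
`|p| - 1 < g' - g + J` (as `p.dropLast ∈ I`), so `|p| = g' - g + J`, i.e. `g = 0`; if `p = []` then
`I = ∅` (prefix closed), and `Code` says `g' - g + J ≤ 0`, while `0 ≤ g' - g + J` by `g' ≥ g - r`;
so `g' = g - J`, and `g' = -J` gives `g = 0`. -/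
def LeafCount : Prop := ∀ (r J : ℕ) (θ : Equiv.Perm Pt) (I : Finset (List Bool)), IsAut r θ →
  θ zpt = zpt → r ≤ J → PrefClosed I → Code θ I J →
  {z : Pt | IsLast z 0 ∧ ZL (θ z) (-(J : ℤ))}.ncard = I.card + 1

/-- **Count2**.  For an address `p` let `w_p` be the point with the last one at `|p|`,
`adr w_p |p| |p| = p` and zero before 0; its first one is at `ty p` (`w_p k = coreW p k` for
`k ≥ 0`).  Conversely a point `w` with the last one at `n : ℕ` and zero before 0 is `w_p`
for `p = adr w n n`.  Bijection from `I_k` to `(Std J)_k`: for `p ∈ I`, `ty p = k`, put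
`z = θ.symm w_p`; its first one is at `k` (`PresFirst`), its last one at some `g ≥ k ≥ 0`
(`isLast_image` for the inverse); `p ∈ I` and `Code` give `|p| < |p| - g + J`, so `g < J`;
`q = adr z g g` has length `g < J` and type `k`, `z = w_q`.  Conversely for `q ∈ Std J`, `ty q = k`,
`θ w_q` has its first one at `k ≥ 0`, its last one at some `g' ≥ k`; `p = adr (θ w_q) g' g'`;
by `Code` with `n = g'`: `p ∈ I ↔ g' < g' - |q| + J`, true.  The two maps are inverse to each
other. -/
def Count2 : Prop := ∀ (r J : ℕ) (θ : Equiv.Perm Pt) (I : Finset (List Bool)), IsAut r θ →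
  θ zpt = zpt → PresFirst θ → Code θ I J →
  ∀ k : ℕ, (I.filter (fun p => ty p = k)).card = ((Std J).filter (fun p => ty p = k)).card

/-- **Straight**.  `ZR x n → ZR (θ x) n` (`x = zpt`, or the last one is `< n`,
`exists_last_of_ZR`), the same for `ZL x n → ZL (θ x) n`.  Let `ZOn x i (i+L)`, `j ∈ [i, i+L)`.
`xR = glue zpt x i` satisfies `ZL xR (i+L)`, so `θ xR j = false`; `xL = glue x zpt (i+L)`
satisfies `ZR xL i`, so `θ xL j = false`.  If `j - r ≥ i` then `x = xR` on `[j-r, j+r]`, otherwise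
`j + r < i + L` and `x = xL` on `[j - r, j + r]`.  So `θ x j = false`.  The other direction: apply
this to `θ.symm`, which has the same properties. -/
def Straight : Prop := ∀ (r : ℕ) (θ : Equiv.Perm Pt), IsAut r θ → θ zpt = zpt → PresLast θ →
  PresFirst θ → ∀ L : ℕ, 2 * r ≤ L → ∀ (x : Pt) (i : ℤ), ZOn (θ x) i (i + L) ↔ ZOn x i (i + L)

/-- **GoodOf**.  An automorphism of radius `r ≤ L` that preserves the occurrences of `0^L`
exactly is `Good L`: for a cell, `[c - r, c + ℓ + r)` is covered by the cell and the two zero blocks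
next to it; so `θ x (c + k)` depends only on the word in the cell (use `comm` to translate
`y` by `c' - c`). -/
def GoodOf : Prop := ∀ (r L : ℕ) (θ : Equiv.Perm Pt), IsAut r θ → r ≤ L →
  (∀ (x : Pt) (i : ℤ), ZOn (θ x) i (i + L) ↔ ZOn x i (i + L)) → Good L θ

/-- **CellImage**.  If `θ` is `Good L` and `1 ≤ L` then `θ` preserves cells: the zero
blocks are preserved by `zpres`; given `ZOn x (c - L) c`: `x c = true` iff not
`ZOn x (c - L + 1) (c + 1)`, the same for `θ x`; similarly at the right end; no `0^L` inside. -/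
def CellImage : Prop := ∀ (L : ℕ) (θ : Pt → Pt), 1 ≤ L →
  (∀ (x : Pt) (i : ℤ), ZOn (θ x) i (i + L) ↔ ZOn x i (i + L)) →
  ∀ (x : Pt) (c : ℤ) (ℓ : ℕ), CellAt L (θ x) c ℓ ↔ CellAt L x c ℓ

/-- **CellSwap** (uses `Swap`).  For two cell words `v`, `v'` of length `ℓ` the sites are
`S x c := (Reads x c ℓ v ∨ Reads x c ℓ v') ∧ ZOn x (c - L) c ∧ ZOn x (c+ℓ) (c+ℓ+L)`.
`disj`: let `c < c'` be sites; `x c = true` (a cell word begins with a one), so `c < c' - L`
(as `ZOn x (c'-L) c'`); if `c' ≤ c + ℓ` then `[c'-L, c')` is inside `[c, c+ℓ)`, against the fact that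
cell words contain no `0^L`; so `c' > c+ℓ`, and as `x c' = true`, `c' ≥ c + ℓ + L`.  `mono`: the zero
blocks of a site meet no core of another site.  The swap `ι` (`ι * ι = 1`) preserves `S`.
`ι` is `Good L`: (i) `ZOn (ι x) i (i+L) ↔ ZOn x i (i+L)`: (it is enough to show ← as `ι` is an
involution) if `[i, i+L)` is zero in `x` and a position in it is in a core `[c, c+ℓ)`, then (as
`x c = x (c+ℓ-1) = true`) `[i,i+L)` is inside `[c, c+ℓ)`, impossible; so nothing is changed there.
(ii) cell rule: if `CellAt L x c ℓ'` then for a site `c1` whose core meets `[c, c+ℓ')` one has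
`c1 = c` and `ℓ = ℓ'` (both are cells); so `ι x (c+k)` is `v' k` if the word is `v`, `v k` if the word
is `v'`, and `x (c+k)` otherwise. -/
def CellSwap : Prop := ∀ (L ℓ : ℕ) (v v' : ℕ → Bool), 1 ≤ L → CW L ℓ v → CW L ℓ v' →
  ∃ ι : Equiv.Perm Pt, IsInv ι ∧ Good L ι ∧
    (∀ (x : Pt) (c : ℤ), CellAt L x c ℓ → Reads x c ℓ v → Reads (ι x) c ℓ v') ∧
    (∀ (x : Pt) (c : ℤ), CellAt L x c ℓ → Reads x c ℓ v' → Reads (ι x) c ℓ v) ∧
    (∀ (x : Pt) (c : ℤ) (ℓ' : ℕ), CellAt L x c ℓ' → ¬ (ℓ' = ℓ ∧ (Reads x c ℓ v ∨ Reads x c ℓ v')) →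
      ∀ k : ℕ, k < ℓ' → ι x (c + k) = x (c + k))

/-- **CellFix** (uses `CellSwap`, `CellImage`).  For a list `v` let `pt v` be the point equal to
`v` on `[0, |v|)` and zero elsewhere.  The cell words of length `≤ m` form a finite set `C`
(a filter of `Std (m+1)`).  Call `v ∈ C` bad for `θ` if `θ (pt v)` differs from `pt v` on
`[0, |v|)`.  Induction on the number of bad words.  None: `ρ = 1` (by `Good.cell` comparing `x` at
`c` with `pt v` at `0`).  Otherwise let `v` be bad, `v'` the word of `θ (pt v)` on `[0, |v|)`; it is a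
cell word (`CellImage`), `v' ≠ v`.  Let `ι` be the swap of `v`, `v'` (`CellSwap`), `θ' = ι * θ`,
`Good L θ'` (compositions of `Good` maps are `Good`, with `CellImage`).  `v` is not bad for `θ'`; if `u`
is not bad for `θ` then `u ≠ v`, and `u ≠ v'` (if `v'` were not bad, `θ (pt v)` and `θ (pt v')` would
both be `pt v'` (both vanish outside `[0,|v|)` by `zpres`), against injectivity), so `u` is not bad
for `θ'`.  By induction there is `ρ'` for `θ'`; put `ρ = ι * ρ'` (`ι ∈ G` by `isInv_mem_G`): on a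
cell, `ρ' x` and `θ' x = ι (θ x)` have the same word, both have this cell, so by `Good.cell` for
`ι`: `ι (ρ' x) = ι (ι (θ x)) = θ x` there. -/
def CellFix : Prop := ∀ (L m : ℕ) (θ : Equiv.Perm Pt), 1 ≤ L → Good L θ →
  ∃ ρ : Equiv.Perm Pt, ρ ∈ G ∧ Good L ρ ∧ ∀ (x : Pt) (c : ℤ) (ℓ : ℕ), ℓ ≤ m → CellAt L x c ℓ →
    ∀ k : ℕ, k < ℓ → ρ x (c + k) = θ x (c + k)

/-- **CellAgree**.  If `i` lies in a zero block `[j, j+L)` of `x` then both values are `false` by
`zpres`.  Otherwise let `c` be the largest `e ≤ i` with `ZOn x (e - L) e` (exists: `p + L`;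
`Int.exists_greatest_of_bdd`), `e'` the smallest `e' > i` with `ZOn x e' (e' + L)` (exists: `q`),
`ℓ = e' - c ≤ q - (p + L) ≤ m`.  `x c = true`: otherwise `ZOn x (c+1-L) (c+1)`, against the choice of
`c` if `c < i`, or `i = c` is in a zero block.  Similarly `x (e' - 1) = true`.  There is no zero
block `[j, j+L)` inside `[c, e')`: it does not contain `i`; left of `i`: `j + L ≤ i` and `j + L > c`
(`1 ≤ L`), against the choice of `c`; right: `j > i`, `j < e'`, against the choice of `e'`.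
So `CellAt L x c ℓ` and `i = c + k`, `k < ℓ`. -/
def CellAgree : Prop := ∀ (L m : ℕ) (θ ρ : Pt → Pt), 1 ≤ L → Good L θ → Good L ρ →
  (∀ (x : Pt) (c : ℤ) (ℓ : ℕ), ℓ ≤ m → CellAt L x c ℓ →
    ∀ k : ℕ, k < ℓ → ρ x (c + k) = θ x (c + k)) →
  ∀ (x : Pt) (p q i : ℤ), ZOn x p (p + L) → ZOn x q (q + L) → p + L ≤ i → i < q →
    q - (p + L) ≤ m → ρ x i = θ x i

/-- **MeasureCor**.  `μ` is shift invariant, so `tr k` preserves `μ` for all `k ∈ ℤ`
(`trE k`; `μ.map (tr 1) = μ`).  Let `E n = {x | ∃ p, 0 ≤ p ∧ p + L ≤ n ∧ ZOn x p (p+L)}` and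
`F = {x | ∃ p ≥ 0, ZOn x p (p+L)} = ⋃ n, E n`.  `tr k` maps... the sets
`F_k = {x | ∃ p ≥ k, ZOn x p (p+L)}` (`k ∈ ℤ`) all have the same measure (preimages of each other
under translations), they increase as `k → -∞` to a set of full measure, so `μ F = 1`; hence
`μ (E n)ᶜ → 0` (`tendsto_measure_iInter...`/continuity from below).  The same to the left.  Given
`ε`, choose `n` with both complements of measure `< ε / 2` and `ψ_n`; the set where `ψ_n x 0 ≠
φ x 0` is contained in the union of the two complements.  (All sets are open or closed, hence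
measurable; measurability of the bad set itself is not needed.) -/
def MeasureCor : Prop := ∀ (φ : Pt → Pt) (L : ℕ) (P : (Pt → Pt) → Prop),
  (∀ n : ℕ, ∃ ψ : Pt → Pt, P ψ ∧ ∀ x : Pt,
    (∃ p : ℤ, -(n : ℤ) ≤ p ∧ p + L ≤ 0 ∧ ZOn x p (p + L)) →
    (∃ q : ℤ, 0 ≤ q ∧ q + L ≤ n ∧ ZOn x q (q + L)) → ψ x 0 = φ x 0) →
  ∀ μ : MeasureTheory.Measure Pt, MeasureTheory.IsProbabilityMeasure μ →
    MeasureTheory.MeasurePreserving (fun x : Pt => fun n : ℤ => x (n + 1)) μ μ →
    (∀ᵐ x ∂μ, ∃ p : ℤ, ZOn x p (p + L)) →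
    ∀ ε : ENNReal, 0 < ε → ∃ ψ : Pt → Pt, P ψ ∧ μ {x | ψ x 0 ≠ φ x 0} < ε

end Pool.MP_5a0708_an
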