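import Mathlib
import Pool.Agent.Lib.MP_5a0708_an.Spec

/-!
# MP_5a0708_an : the theorem of Curtis, Hedlund and Lyndon
-/

set_option autoImplicit false

open scoped Topology

namespace Pool.MP_5a0708_an.CHL

/-- A continuous boolean function depends near each point on finitely many coordinates. -/
theorem exists_finset {e : Pt → Bool} (he : Continuous e) (x : Pt) :
    ∃ I : Finset ℤ, ∀ y : Pt, (∀ j ∈ I, y j = x j) → e y = e x := by
  have h1 : IsOpen {y : Pt | e y = e x} := by
    have : {y : Pt | e y = e x} = e ⁻¹' {e x} := rfl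
    rw [this]
    exact (isOpen_discrete _).preimage he
  rw [isOpen_pi_iff] at h1
  obtain ⟨I, u, hu, hsub⟩ := h1 x rfl
  refine ⟨I, fun y hy => hsub ?_⟩
  intro j hj
  rw [hy j hj]
  exact (hu j hj).2

theorem isOpen_cyl (I : Finset ℤ) (x : Pt) : IsOpen {y : Pt | ∀ j ∈ I, y j = x j} := by
  have : {y : Pt | ∀ j ∈ I, y j = x j} = ⋂ j ∈ I, {y : Pt | y j = x j} := by
    ext y; simp
  rw [this]
  refine isOpen_biInter_finset (fun j _ => ?_)
  exact IsOpen.preimage (f := fun y : Pt => y j) (continuous_apply j)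
    (isOpen_discrete ({x j} : Set Bool))

/-- A continuous boolean function depends on finitely many coordinates. -/
theorem exists_radius {e : Pt → Bool} (he : Continuous e) :
    ∃ r : ℕ, ∀ y z : Pt, (∀ j : ℤ, -(r : ℤ) ≤ j → j ≤ r → y j = z j) → e y = e z := by
  choose I hI using fun x => exists_finset he x
  obtain ⟨t, ht⟩ := CompactSpace.elim_nhds_subcover
    (fun x : Pt => {y : Pt | ∀ j ∈ I x, y j = x j})
    (fun x => (isOpen_cyl (I x) x).mem_nhds (fun j _ => rfl))
  refine ⟨t.sup fun x => (I x).sup Int.natAbs, fun y z hyz => ?_⟩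
  have hy : y ∈ (⊤ : Set Pt) := trivial
  rw [← ht] at hy
  obtain ⟨x, hx, hxy⟩ := Set.mem_iUnion₂.mp hy
  have hxy' : ∀ j ∈ I x, y j = x j := hxy
  rw [hI x y hxy', hI x z]
  intro j hj
  rw [← hxy' j hj]
  have h1 : j.natAbs ≤ (I x).sup Int.natAbs := Finset.le_sup (f := Int.natAbs) hj
  have h2 : (I x).sup Int.natAbs ≤ t.sup fun x => (I x).sup Int.natAbs :=
    Finset.le_sup (f := fun x => (I x).sup Int.natAbs) hx
  exact (hyz j (by omega) (by omega)).symm

theorem exists_loc {f : Pt → Pt} (hf : Continuous f)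
    (hc : ∀ (k : ℤ) (x : Pt), f (tr k x) = tr k (f x)) : ∃ r : ℕ, Loc r f := by
  obtain ⟨r, hr⟩ := exists_radius (e := fun x => f x 0) ((continuous_apply 0).comp hf)
  refine ⟨r, fun x y i hxy => ?_⟩
  have h1 : f (tr i x) 0 = f (tr i y) 0 := by
    apply hr
    intro j h1 h2
    exact hxy (j + i) (by omega) (by omega)
  rw [hc, hc, tr_apply, tr_apply, zero_add] at h1
  exact h1

end Pool.MP_5a0708_an.CHL

namespace Pool.MP_5a0708_an

theorem chl : CHL := by
  intro φ hφ hb hs
  set θ : Equiv.Perm Pt := Equiv.ofBijective φ hb with hθ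
  have hθφ : ∀ x, θ x = φ x := fun x => rfl
  have hcont : Continuous θ := hφ
  have hcomm : ∀ (k : ℤ) (x : Pt), θ (tr k x) = tr k (θ x) := fun k x => comm_tr hs k x
  have hcont' : Continuous θ.symm :=
    (Continuous.homeoOfEquivCompactToT2 (f := θ) hcont).symm.continuous
  have hcomm' : ∀ (k : ℤ) (x : Pt), θ.symm (tr k x) = tr k (θ.symm x) := by
    intro k x
    rw [Equiv.symm_apply_eq, hcomm, Equiv.apply_symm_apply]
  obtain ⟨r, hr⟩ := CHL.exists_loc hcont hcomm
  obtain ⟨s, hs⟩ := CHL.exists_loc hcont' hcomm'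
  exact ⟨max r s, θ, hθφ, hr.mono (le_max_left _ _), hs.mono (le_max_right _ _), hcomm⟩

end Pool.MP_5a0708_an
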