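import Pool.Agent.Lib.MP_5a0708_an.Spec

/-!
# MP_5a0708_an : CellAgree
-/

set_option autoImplicit false

namespace Pool.MP_5a0708_an

theorem cellAgree : CellAgree := by
  intro L m θ ρ hL hθ hρ hag x p q i hp hq hpi hiq hm
  by_cases hz : ∃ j : ℤ, j ≤ i ∧ i < j + L ∧ ZOn x j (j + L)
  · obtain ⟨j, h1, h2, h3⟩ := hz
    rw [(hθ.zpres x j).2 h3 i h1 h2, (hρ.zpres x j).2 h3 i h1 h2]
  · have hL' : (1 : ℤ) ≤ L := by exact_mod_cast hL
    obtain ⟨c, ⟨hci, hcz⟩, hcmax⟩ := Int.exists_greatest_of_bdd
      (P := fun e : ℤ => e ≤ i ∧ ZOn x (e - L) e) ⟨i, fun z h => h.1⟩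
      ⟨p + L, hpi, by
        have : p + L - L = p := by ring
        rw [this]; exact hp⟩
    obtain ⟨e, ⟨hie, hez⟩, hemin⟩ := Int.exists_least_of_bdd
      (P := fun e : ℤ => i < e ∧ ZOn x e (e + L)) ⟨i, fun z h => h.1.le⟩ ⟨q, hiq, hq⟩
    have hpc : p + L ≤ c := hcmax (p + L) ⟨hpi, by
        have : p + L - L = p := by ring
        rw [this]; exact hp⟩
    have heq : e ≤ q := hemin q ⟨hiq, hq⟩
    have hxc : x c = true := by
      by_contra hne
      have hf : x c = false := by simpa using hne
      have hz2 : ZOn x (c + 1 - L) (c + 1) := by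
        intro t h1 h2
        rcases lt_or_eq_of_le (show t ≤ c by omega) with h | h
        · exact hcz t (by omega) h
        · rw [h]; exact hf
      rcases lt_or_eq_of_le hci with h | h
      · have := hcmax (c + 1) ⟨by omega, hz2⟩
        omega
      · apply hz
        refine ⟨c + 1 - L, by omega, by omega, ?_⟩
        have : c + 1 - L + L = c + 1 := by ring
        rw [this]; exact hz2
    have hxe : x (e - 1) = true := by
      by_contra hne
      have hf : x (e - 1) = false := by simpa using hne
      have hz2 : ZOn x (e - 1) (e - 1 + L) := by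
        intro t h1 h2
        rcases lt_or_eq_of_le h1 with h | h
        · exact hez t (by omega) (by omega)
        · rw [← h]; exact hf
      rcases lt_or_eq_of_le (show i ≤ e - 1 by omega) with h | h
      · have := hemin (e - 1) ⟨h, hz2⟩
        omega
      · exact hz ⟨e - 1, by omega, by omega, hz2⟩
    obtain ⟨ℓ, hℓ⟩ := Int.eq_ofNat_of_zero_le (show 0 ≤ e - c by omega)
    obtain ⟨k, hk⟩ := Int.eq_ofNat_of_zero_le (show 0 ≤ i - c by omega)
    have hcell : CellAt L x c ℓ := by
      refine ⟨hcz, ?_, ?_, ?_, ?_, ?_⟩
      · have : c + ℓ = e := by omega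
        rw [this]; exact hez
      · omega
      · simpa using hxc
      · have : c + ((ℓ - 1 : ℕ) : ℤ) = e - 1 := by omega
        show x (c + ((ℓ - 1 : ℕ) : ℤ)) = true
        rw [this]; exact hxe
      · intro j hj
        by_contra hne
        push Not at hne
        have hzb : ZOn x (c + j) (c + j + L) := by
          intro t h1 h2
          obtain ⟨s, hs⟩ := Int.eq_ofNat_of_zero_le (show 0 ≤ t - c by omega)
          have h3 := hne s (by omega) (by omega)
          have h4 : c + (s : ℤ) = t := by omega
          rw [h4] at h3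
          simpa using h3
        rcases le_or_gt (c + j) i with h | h
        · rcases lt_or_ge i (c + j + L) with h' | h'
          · exact hz ⟨c + j, h, h', hzb⟩
          · have h5 := hcmax (c + j + L) ⟨h', by
              have : c + j + L - L = c + j := by ring
              rw [this]; exact hzb⟩
            omega
        · have h5 := hemin (c + j) ⟨h, hzb⟩
          omega
    have h6 := hag x c ℓ (by omega) hcell k (by omega)
    have h7 : c + (k : ℤ) = i := by omega
    rw [h7] at h6
    exact h6

end Pool.MP_5a0708_an
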