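import Pool.Agent.Lib.MP_5a0708_an.Spec

/-!
# MP_5a0708_an : CellFix
-/

set_option autoImplicit false

namespace Pool.MP_5a0708_an

namespace CellFix

/-- The point equal to `v` on `[0, |v|)` and zero elsewhere. -/
def pt (v : List Bool) : Pt := fun i => if 0 ≤ i then v.getD i.toNat false else false

theorem pt_nat (v : List Bool) (k : ℕ) : pt v (k : ℤ) = v.getD k false := by
  simp [pt]

theorem pt_neg (v : List Bool) {i : ℤ} (h : i < 0) : pt v i = false := by
  have : ¬ 0 ≤ i := by omega
  simp [pt, this]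

theorem pt_ge (v : List Bool) {i : ℤ} (h : (v.length : ℤ) ≤ i) : pt v i = false := by
  have h1 : 0 ≤ i := by omega
  simp only [pt, h1, if_true]
  rw [List.getD_eq_default]
  omega

/-- `v` is a cell word. -/
def cw (L : ℕ) (v : List Bool) : Prop := CW L v.length (fun k : ℕ => pt v (k : ℤ))

/-- `v` is bad for `θ`. -/
def Bad (θ : Pt → Pt) (v : List Bool) : Prop :=
  ∃ k : ℕ, k < v.length ∧ θ (pt v) (k : ℤ) ≠ pt v (k : ℤ)

theorem cellAt_pt {L : ℕ} {v : List Bool} (h : cw L v) : CellAt L (pt v) 0 v.length := by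
  refine ⟨?_, ?_, ?_⟩
  · intro i _ h2
    exact pt_neg v h2
  · intro i h1 _
    exact pt_ge v (by omega)
  · have h1 : CW L v.length (fun k : ℕ => pt v (k : ℤ)) := h
    simpa only [zero_add] using h1

theorem zero_out {L : ℕ} (hL : 1 ≤ L) {θ : Pt → Pt} (hθ : Good L θ) (v : List Bool) {i : ℤ}
    (hi : i < 0 ∨ (v.length : ℤ) ≤ i) : θ (pt v) i = false := by
  rcases hi with hi | hi
  · have h1 := (hθ.zpres (pt v) (i + 1 - L)).2 (by
      intro j _ h2
      exact pt_neg v (by omega))
    exact h1 i (by omega) (by omega)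
  · have h1 := (hθ.zpres (pt v) i).2 (by
      intro j h1 _
      exact pt_ge v (by omega))
    exact h1 i (by omega) (by omega)

theorem good_one (L : ℕ) : Good L (1 : Equiv.Perm Pt) :=
  ⟨fun _ _ => Iff.rfl, fun _ _ _ _ _ _ _ h => h⟩

theorem good_mul (hI : CellImage) {L : ℕ} (hL : 1 ≤ L) {ι θ : Equiv.Perm Pt} (hι : Good L ι)
    (hθ : Good L θ) : Good L (ι * θ : Equiv.Perm Pt) := by
  refine ⟨?_, ?_⟩
  · intro x i
    exact (hι.zpres (θ x) i).trans (hθ.zpres x i)
  · intro x y c c' ℓ hx hy hxy
    have h1 : CellAt L (θ x) c ℓ := (hI L θ hL hθ.zpres x c ℓ).2 hx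
    have h2 : CellAt L (θ y) c' ℓ := (hI L θ hL hθ.zpres y c' ℓ).2 hy
    exact hι.cell (θ x) (θ y) c c' ℓ h1 h2 (hθ.cell x y c c' ℓ hx hy hxy)

theorem pt_ext {u v : List Bool} (hl : u.length = v.length)
    (h : ∀ k : ℕ, k < v.length → pt u (k : ℤ) = pt v (k : ℤ)) : pt u = pt v := by
  funext i
  by_cases h1 : i < 0
  · rw [pt_neg u h1, pt_neg v h1]
  · by_cases h2 : (v.length : ℤ) ≤ i
    · rw [pt_ge u (by omega), pt_ge v h2]
    · have h3 := h i.toNat (by omega)
      have e : ((i.toNat : ℕ) : ℤ) = i := by omega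
      rwa [e] at h3

end CellFix

open CellFix in
theorem cellFix (hS : CellSwap) (hI : CellImage) : CellFix := by
  classical
  intro L m θ hL
  set C : Finset (List Bool) := (Std (m + 1)).filter (cw L) with hC
  have key : ∀ (n : ℕ) (θ : Equiv.Perm Pt), (C.filter (Bad θ)).card = n → Good L θ →
      ∃ ρ : Equiv.Perm Pt, ρ ∈ G ∧ Good L ρ ∧ ∀ (x : Pt) (c : ℤ) (ℓ : ℕ), ℓ ≤ m →
        CellAt L x c ℓ → ∀ k : ℕ, k < ℓ → ρ x (c + k) = θ x (c + k) := by
    intro n
    induction n using Nat.strong_induction_on with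
    | _ n ih =>
    intro θ hn hθ
    by_cases hbad : ∃ v ∈ C, Bad θ v
    · obtain ⟨v, hvC, hvb⟩ := hbad
      have hv : cw L v := (Finset.mem_filter.1 hvC).2
      have hcell := cellAt_pt hv
      have hcell' : CellAt L (θ (pt v)) 0 v.length := (hI L θ hL hθ.zpres (pt v) 0 v.length).2 hcell
      have hcw' : CW L v.length (fun k : ℕ => θ (pt v) (k : ℤ)) := by
        simpa only [zero_add] using hcell'.2.2
      obtain ⟨ι, hι1, hι2, hι3, hι4, hι5⟩ := hS L v.length (fun k : ℕ => pt v (k : ℤ))
        (fun k : ℕ => θ (pt v) (k : ℤ)) hL hv hcw'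
      have hθ' : Good L (ι * θ : Equiv.Perm Pt) := good_mul hI hL hι2 hθ
      have h1 : ¬ Bad (ι * θ : Equiv.Perm Pt) v := by
        rintro ⟨k, hk, hne⟩
        apply hne
        have h2 := hι4 (θ (pt v)) 0 hcell' (by
          intro k _
          rw [zero_add])
        have h3 := h2 k hk
        rw [zero_add] at h3
        exact h3
      have h2 : ∀ u ∈ C, ¬ Bad θ u → ¬ Bad (ι * θ : Equiv.Perm Pt) u := by
        intro u huC hu
        have hucw : cw L u := (Finset.mem_filter.1 huC).2
        have hucell := cellAt_pt hucw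
        have hucell' : CellAt L (θ (pt u)) 0 u.length :=
          (hI L θ hL hθ.zpres (pt u) 0 u.length).2 hucell
        have hu' : ∀ k : ℕ, k < u.length → θ (pt u) (k : ℤ) = pt u (k : ℤ) := by
          intro k hk
          by_contra hne
          exact hu ⟨k, hk, hne⟩
        have hnot : ¬ (u.length = v.length ∧ (Reads (θ (pt u)) 0 v.length (fun k : ℕ => pt v (k : ℤ)) ∨
            Reads (θ (pt u)) 0 v.length (fun k : ℕ => θ (pt v) (k : ℤ)))) := by
          rintro ⟨hl, hr⟩
          have hpt : pt u = pt v := by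
            rcases hr with hr | hr
            · apply pt_ext hl
              intro k hk
              have h3 := hr k hk
              rw [zero_add, hu' k (by omega)] at h3
              exact h3
            · apply θ.injective
              funext i
              by_cases hi : i < 0 ∨ (v.length : ℤ) ≤ i
              · rw [zero_out hL hθ v hi, zero_out hL hθ u (by rw [hl]; exact hi)]
              · push Not at hi
                have h3 := hr i.toNat (by omega)
                have e : ((i.toNat : ℕ) : ℤ) = i := by omega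
                simpa only [zero_add, e] using h3
          obtain ⟨k, hk, hne⟩ := hvb
          apply hne
          rw [← hpt]
          exact hu' k (by omega)
        rintro ⟨k, hk, hne⟩
        apply hne
        have h3 := hι5 (θ (pt u)) 0 u.length hucell' hnot k hk
        rw [zero_add] at h3
        rw [← hu' k hk]
        exact h3
      have h3 : (C.filter (Bad (ι * θ : Equiv.Perm Pt))).card < n := by
        rw [← hn]
        apply Finset.card_lt_card
        rw [Finset.ssubset_iff_of_subset]
        · exact ⟨v, Finset.mem_filter.2 ⟨hvC, hvb⟩, fun h => h1 (Finset.mem_filter.1 h).2⟩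
        · intro u hu
          rw [Finset.mem_filter] at hu ⊢
          refine ⟨hu.1, ?_⟩
          by_contra hcon
          exact h2 u hu.1 hcon hu.2
      obtain ⟨ρ, hρ1, hρ2, hρ3⟩ := ih _ h3 (ι * θ) rfl hθ'
      refine ⟨ι * ρ, G.mul_mem (isInv_mem_G hι1) hρ1, good_mul hI hL hι2 hρ2, ?_⟩
      intro x c ℓ hℓ hx k hk
      have h4 : CellAt L (ρ x) c ℓ := (hI L ρ hL hρ2.zpres x c ℓ).2 hx
      have h5 : CellAt L ((ι * θ : Equiv.Perm Pt) x) c ℓ := (hI L _ hL hθ'.zpres x c ℓ).2 hx
      have h6 := hι2.cell _ _ c c ℓ h4 h5 (hρ3 x c ℓ hℓ hx) k hk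
      have h7 : ι ((ι * θ : Equiv.Perm Pt) x) = θ x := hι1.2.1 (θ x)
      rw [h7] at h6
      exact h6
    · push Not at hbad
      refine ⟨1, G.one_mem, good_one L, ?_⟩
      intro x c ℓ hℓ hx k hk
      set v : List Bool := List.ofFn (fun k : Fin ℓ => x (c + ((k : ℕ) : ℤ))) with hv
      have hvl : v.length = ℓ := by simp [hv]
      have hvk : ∀ j : ℕ, j < ℓ → pt v (j : ℤ) = x (c + j) := by
        intro j hj
        rw [pt_nat, List.getD_eq_getElem _ _ (by omega)]
        simp [hv]
      have hvcw : cw L v := by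
        obtain ⟨a1, a2, a3, a4⟩ := hx.2.2
        refine ⟨by omega, ?_, ?_, ?_⟩
        · rw [← a2]
          exact hvk 0 a1
        · rw [hvl, ← a3]
          exact hvk (ℓ - 1) (by omega)
        · intro j hj
          obtain ⟨i, hi1, hi2, hi3⟩ := a4 j (by omega)
          refine ⟨i, hi1, hi2, ?_⟩
          rw [← hi3]
          exact hvk i (by omega)
      have hvC : v ∈ C := by
        rw [hC, Finset.mem_filter, mem_Std]
        exact ⟨by omega, hvcw⟩
      have h1 := hbad v hvC
      have h2 : θ (pt v) (k : ℤ) = pt v (k : ℤ) := by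
        by_contra hne
        exact h1 ⟨k, by omega, hne⟩
      have h3 := cellAt_pt hvcw
      rw [hvl] at h3
      have h4 := hθ.cell x (pt v) c 0 ℓ hx h3 (by
        intro j hj
        rw [zero_add, hvk j hj]) k hk
      rw [zero_add, h2, hvk k hk] at h4
      exact h4.symm
  intro hθ
  exact key _ θ rfl hθ

end Pool.MP_5a0708_an
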