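import Pool.Agent.Lib.MP_5a0708_an.Spec

/-!
# MP_5a0708_an : the swap of two cell words
-/

set_option autoImplicit false

namespace Pool.MP_5a0708_an

namespace CellSwap

theorem cell_first {L ℓ : ℕ} {x : Pt} {c : ℤ} (h : CellAt L x c ℓ) : x c = true := by
  have h1 := h.2.2.2.1
  simpa using h1

theorem cell_pos {L ℓ : ℕ} {x : Pt} {c : ℤ} (h : CellAt L x c ℓ) : 0 < ℓ := h.2.2.1

theorem cell_last {L ℓ : ℕ} {x : Pt} {c : ℤ} (h : CellAt L x c ℓ) : x (c + ℓ - 1) = true := by
  have h1 := h.2.2.2.2.1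
  have h2 := cell_pos h
  simp only at h1
  have e : c + ((ℓ - 1 : ℕ) : ℤ) = c + ℓ - 1 := by omega
  rw [e] at h1
  exact h1

/-- a zero block does not meet a cell -/
theorem block_cell {L ℓ : ℕ} {x : Pt} {c i : ℤ} (h : CellAt L x c ℓ)
    (hz : ZOn x i (i + L)) : i + L ≤ c ∨ c + ℓ ≤ i := by
  by_contra hcon
  push Not at hcon
  obtain ⟨h1, h2⟩ := hcon
  have hf := cell_first h
  have hl := cell_last h
  by_cases hi : i ≤ c
  · rw [hz c hi h1] at hf
    cases hf
  · by_cases hj : c + ℓ - 1 < i + L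
    · rw [hz _ (by omega) hj] at hl
      cases hl
    · obtain ⟨k, hk1, hk2, hk3⟩ := h.2.2.2.2.2 (i - c).toNat (by omega)
      simp only at hk3
      rw [hz _ (by omega) (by omega)] at hk3
      cases hk3

theorem cell_sep {L ℓ ℓ' : ℕ} {x : Pt} {c c' : ℤ} (hL : 1 ≤ L) (h : CellAt L x c ℓ)
    (h' : CellAt L x c' ℓ') (hcc : c < c') : c + ℓ + L ≤ c' := by
  have h1 := h'.1
  have e : ZOn x (c' - L) (c' - L + L) := by
    intro i hi1 hi2
    exact h1 i hi1 (by omega)
  have h2 := block_cell h e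
  have hf' := cell_first h'
  rcases h2 with h2 | h2
  · omega
  · omega

theorem cell_len {L ℓ ℓ' : ℕ} {x : Pt} {c : ℤ} (hL : 1 ≤ L) (h : CellAt L x c ℓ)
    (h' : CellAt L x c ℓ') : ℓ = ℓ' := by
  have hp := cell_pos h
  have hp' := cell_pos h'
  rcases block_cell h' h.2.1 with h1 | h1
  · omega
  · rcases block_cell h h'.2.1 with h2 | h2
    · omega
    · omega

theorem cw_congr {L ℓ : ℕ} {v w : ℕ → Bool} (h : CW L ℓ v) (hw : ∀ k : ℕ, k < ℓ → w k = v k) :
    CW L ℓ w := by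
  obtain ⟨h0, h1, h2, h3⟩ := h
  refine ⟨h0, ?_, ?_, ?_⟩
  · rw [hw 0 h0]; exact h1
  · rw [hw _ (by omega)]; exact h2
  · intro j hj
    obtain ⟨i, hi1, hi2, hi3⟩ := h3 j hj
    exact ⟨i, hi1, hi2, by rw [hw i (by omega)]; exact hi3⟩

/-- the sites -/
def SS (L ℓ : ℕ) (v v' : ℕ → Bool) (x : Pt) (c : ℤ) : Prop :=
  (Reads x c ℓ v ∨ Reads x c ℓ v') ∧ ZOn x (c - L) c ∧ ZOn x (c + ℓ) (c + ℓ + L)

theorem SS.cell {L ℓ : ℕ} {v v' : ℕ → Bool} (hv : CW L ℓ v) (hv' : CW L ℓ v') {x : Pt} {c : ℤ}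
    (h : SS L ℓ v v' x c) : CellAt L x c ℓ := by
  refine ⟨h.2.1, h.2.2, ?_⟩
  rcases h.1 with h1 | h1
  · exact cw_congr hv h1
  · exact cw_congr hv' h1

theorem SS_of_cell {L ℓ : ℕ} {v v' : ℕ → Bool} {x : Pt} {c : ℤ}
    (h : CellAt L x c ℓ) (hr : Reads x c ℓ v ∨ Reads x c ℓ v') : SS L ℓ v v' x c :=
  ⟨hr, h.1, h.2.1⟩

theorem data {L ℓ : ℕ} {v v' : ℕ → Bool} (hL : 1 ≤ L) (hv : CW L ℓ v) (hv' : CW L ℓ v') :
    SwapData ℓ (L + ℓ) v v' (SS L ℓ v v') where
  loc := by
    intro x y c hxy h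
    have hr : ∀ w : ℕ → Bool, Reads x c ℓ w → Reads y c ℓ w := by
      intro w hw k hk
      rw [← hxy _ (by push_cast; omega) (by push_cast; omega)]
      exact hw k hk
    refine ⟨h.1.imp (hr v) (hr v'), ?_, ?_⟩
    · intro i h1 h2
      rw [← hxy _ (by push_cast; omega) (by push_cast; omega)]
      exact h.2.1 i h1 h2
    · intro i h1 h2
      rw [← hxy _ (by push_cast; omega) (by push_cast; omega)]
      exact h.2.2 i h1 h2
  cov := by
    intro x c k
    have hr : ∀ w : ℕ → Bool, Reads (tr k x) c ℓ w ↔ Reads x (c + k) ℓ w := by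
      intro w
      unfold Reads
      apply forall_congr'; intro j
      apply imp_congr_right; intro _
      have e : tr k x (c + (j : ℤ)) = x (c + k + (j : ℤ)) := by
        simp only [tr]; congr 1; ring
      rw [e]
    have hz : ∀ a b : ℤ, ZOn (tr k x) a b ↔ ZOn x (a + k) (b + k) := by
      intro a b
      constructor
      · intro h i h1 h2
        have := h (i - k) (by omega) (by omega)
        simpa [tr] using this
      · intro h i h1 h2
        exact h (i + k) (by omega) (by omega)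
    unfold SS
    rw [hr, hr, hz, hz]
    have e1 : c - (L : ℤ) + k = c + k - L := by ring
    have e2 : c + (ℓ : ℤ) + k = c + k + ℓ := by ring
    have e3 : c + (ℓ : ℤ) + L + k = c + k + ℓ + L := by ring
    rw [e1, e2, e3]
  core := by
    intro x c h
    exact h.1
  disj := by
    intro x c c' h h' hcc
    have := cell_sep hL (h.cell hv hv') (h'.cell hv hv') hcc
    omega
  mono := by
    intro x y hc hd c h
    refine ⟨hc c h, ?_, ?_⟩
    · intro i h1 h2
      by_contra hcon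
      have hx := h.2.1 i h1 h2
      have hne : x i ≠ y i := by
        rw [hx]; exact fun e => hcon e.symm
      obtain ⟨c1, hs1, h3, h4⟩ := hd i hne
      have e : ZOn x (c - L) (c - L + L) := by
        intro j hj1 hj2
        exact h.2.1 j hj1 (by omega)
      rcases block_cell (hs1.cell hv hv') e with h5 | h5 <;> omega
    · intro i h1 h2
      by_contra hcon
      have hx := h.2.2 i h1 h2
      have hne : x i ≠ y i := by
        rw [hx]; exact fun e => hcon e.symm
      obtain ⟨c1, hs1, h3, h4⟩ := hd i hne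
      rcases block_cell (hs1.cell hv hv') h.2.2 with h5 | h5 <;> omega

end CellSwap

open CellSwap in
theorem cellSwap (hS : Swap) : CellSwap := by
  intro L ℓ v v' hL hv hv'
  obtain ⟨ι, hinv, -, -, hA, hB, hch⟩ := hS ℓ (L + ℓ) v v' (SS L ℓ v v') (data hL hv hv')
  have hrest : ∀ (x : Pt) (c : ℤ) (ℓ' : ℕ), CellAt L x c ℓ' →
      ¬ (ℓ' = ℓ ∧ (Reads x c ℓ v ∨ Reads x c ℓ v')) →
      ∀ k : ℕ, k < ℓ' → ι x (c + k) = x (c + k) := by
    intro x c ℓ' hc hn k hk
    by_contra hcon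
    obtain ⟨c1, hs1, h1, h2⟩ := hch x _ hcon
    have hc1 := hs1.cell hv hv'
    rcases lt_trichotomy c c1 with h3 | h3 | h3
    · have := cell_sep hL hc hc1 h3
      omega
    · subst h3
      have h4 := cell_len hL hc hc1
      exact hn ⟨h4, hs1.1⟩
    · have := cell_sep hL hc1 hc h3
      omega
  have hz : ∀ (x : Pt) (i : ℤ), ZOn x i (i + L) → ZOn (ι x) i (i + L) := by
    intro x i h j h1 h2
    by_contra hcon
    have hne : ι x j ≠ x j := by
      rw [h j h1 h2]; exact hcon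
    obtain ⟨c1, hs1, h3, h4⟩ := hch x j hne
    rcases block_cell (hs1.cell hv hv') h with h5 | h5 <;> omega
  refine ⟨ι, hinv, ⟨?_, ?_⟩, ?_, ?_, hrest⟩
  · intro x i
    constructor
    · intro h
      have := hz (ι x) i h
      rw [hinv.2.1] at this
      exact this
    · exact hz x i
  · intro x y c c' ℓ' hx hy hxy k hk
    have hr : ℓ' = ℓ → ∀ w : ℕ → Bool, Reads x c ℓ w ↔ Reads y c' ℓ w := by
      intro e w
      subst e
      constructor
      · intro h j hj
        rw [← hxy j hj]; exact h j hj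
      · intro h j hj
        rw [hxy j hj]; exact h j hj
    by_cases hn : ℓ' = ℓ ∧ (Reads x c ℓ v ∨ Reads x c ℓ v')
    · obtain ⟨e, hn⟩ := hn
      have hr' := hr e
      subst e
      rcases hn with h1 | h1
      · have h2 := (hr' v).1 h1
        rw [hA x c (SS_of_cell hx (Or.inl h1)) h1 k hk,
          hA y c' (SS_of_cell hy (Or.inl h2)) h2 k hk]
      · have h2 := (hr' v').1 h1
        rw [hB x c (SS_of_cell hx (Or.inr h1)) h1 k hk,
          hB y c' (SS_of_cell hy (Or.inr h2)) h2 k hk]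
    · have hn' : ¬ (ℓ' = ℓ ∧ (Reads y c' ℓ v ∨ Reads y c' ℓ v')) := by
        rintro ⟨e, h⟩
        have hr' := hr e
        exact hn ⟨e, by rwa [hr' v, hr' v']⟩
      rw [hrest x c ℓ' hx hn k hk, hrest y c' ℓ' hy hn' k hk, hxy k hk]
  · intro x c hc hr
    exact hA x c (SS_of_cell hc (Or.inl hr)) hr
  · intro x c hc hr
    exact hB x c (SS_of_cell hc (Or.inr hr)) hr

end Pool.MP_5a0708_an
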