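import Pool.Agent.Lib.MP_5a0708_an.Spec

/-!
# MP_5a0708_an : existence of the code
-/

set_option autoImplicit false

namespace Pool.MP_5a0708_an

open Classical in
theorem codeEx : CodeEx := by
  intro r J θ hθ h0 hrJ
  -- bounds
  have hbd : ∀ (z : Pt) (g g' : ℤ), IsLast z g → IsLast (θ z) g' → g - r ≤ g' ∧ g' ≤ g + r := by
    intro z g g' hz hz'
    obtain ⟨g'', h1, h2, h3⟩ := hθ.isLast_image h0 hz
    have := h1.unique hz'
    subst this
    exact ⟨h2, h3⟩
  set I : Finset (List Bool) := (Std (r + J)).filter (fun p => ∃ (z : Pt) (g g' : ℤ),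
    IsLast z g ∧ IsLast (θ z) g' ∧ adr (θ z) g' p.length = p ∧ (p.length : ℤ) < g' - g + J) with hI
  refine ⟨I, ?_, ?_⟩
  · intro p q hpq
    rw [hI, Finset.mem_filter, mem_Std] at hpq ⊢
    obtain ⟨h1, z, g, g', h2, h3, h4, h5⟩ := hpq
    rw [List.length_append] at h1 h4 h5
    refine ⟨by omega, z, g, g', h2, h3, ?_, by push_cast at h5; omega⟩
    rw [adr_add] at h4
    exact (List.append_inj h4 (by simp)).1
  · intro z g g' hz hz' n
    rw [hI, Finset.mem_filter, mem_Std, length_adr]
    constructor
    · rintro ⟨-, z1, g1, g1', hz1, hz1', he, hn⟩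
      by_contra hcon
      set k := g1' - g' with hk
      set z2 := tr k z1 with hz2
      have hl2 : IsLast z2 (g1 - k) := by
        rw [hz2, isLast_tr]
        rwa [show g1 - k + k = g1 by ring]
      have hθ2 : θ z2 = tr k (θ z1) := hθ.comm k z1
      have hl2' : IsLast (θ z2) g' := by
        rw [hθ2, isLast_tr]
        rwa [show g' + k = g1' by omega]
      have he2 : adr (θ z2) g' n = adr (θ z) g' n := by
        rw [hθ2, adr_tr, show g' + k = g1' by omega]
        exact he
      -- agreement of the images
      have hag : ∀ i : ℤ, g' - n ≤ i → θ z2 i = θ z i := by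
        intro i hi
        rcases lt_trichotomy i g' with h1 | h1 | h1
        · have h2 := (adr_eq_iff.1 he2) (g' - 1 - i).toNat (by omega)
          have e : g' - 1 - (((g' - 1 - i).toNat : ℕ) : ℤ) = i := by omega
          rwa [e] at h2
        · rw [h1, hl2'.1, hz'.1]
        · rw [hl2'.2 i h1, hz'.2 i h1]
      have hag2 : ∀ i : ℤ, g ≤ i → z2 i = z i := by
        intro i hi
        have h1 := hθ.locSymm (θ z2) (θ z) i (fun j hj _ => hag j (by omega))
        rwa [Equiv.symm_apply_apply, Equiv.symm_apply_apply] at h1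
      have hl3 : IsLast z2 g := by
        refine ⟨?_, ?_⟩
        · rw [hag2 g le_rfl]
          exact hz.1
        · intro i hi
          rw [hag2 i hi.le]
          exact hz.2 i hi
      have := hl2.unique hl3
      omega
    · intro hn
      have := hbd z g g' hz hz'
      exact ⟨by omega, z, g, g', hz, hz', rfl, hn⟩

end Pool.MP_5a0708_an
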