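import Pool.Agent.Lib.MP_5a0708_an.Spec

/-!
# MP_5a0708_an : module CodeStep (helper94)
-/

set_option autoImplicit false

namespace Pool.MP_5a0708_an.CodeStep

open Pool.MP_5a0708_an

theorem prefClosed_exch {I : Finset (List Bool)} {a b : List Bool} (hI : PrefClosed I)
    (ha' : ∀ p, p <+: a → p ≠ a → p ∈ I) (hb : b ∈ I) (hba : ¬ b <+: a) :
    PrefClosed (exch I a b) := by
  intro p q hpq
  rw [mem_exch] at hpq ⊢
  rcases hpq with ⟨h1, h2⟩ | ⟨s, hs, hps⟩
  · exact Or.inl ⟨hI p q h1, fun h => h2 (h.trans (List.prefix_append p q))⟩
  · rcases List.append_eq_append_iff.1 hps with ⟨a', h1, h2⟩ | ⟨c', h1, h2⟩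
    · by_cases h0 : p = a
      · right
        refine ⟨[], ?_, ?_⟩
        · rw [List.append_nil]
          exact hb
        · rw [List.append_nil]
          exact h0
      · left
        have hpa : p <+: a := ⟨a', h1.symm⟩
        exact ⟨ha' p hpa h0, fun h => hba (h.trans hpa)⟩
    · right
      refine ⟨c', ?_, h1⟩
      apply hI (b ++ c') q
      rw [List.append_assoc, ← h2]
      exact hs

/-- the address of length `|a| + m` when the address begins with `a` -/
theorem adr_of_la {x : Pt} {g : ℤ} {a t : List Bool} (h : LA x g (a ++ t)) {m : ℕ}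
    (hm : m ≤ t.length) : adr x g (a.length + m) = a ++ t.take m := by
  have h1 := adr_take x g (a.length + m) (a ++ t).length (by simpa using hm)
  rw [h.2] at h1
  rw [← h1, List.take_append, List.take_of_length_le (by omega)]
  congr 2
  omega

theorem adr_of_la_lt {x : Pt} {g : ℤ} {a : List Bool} (h : LA x g a) {m : ℕ}
    (hm : m ≤ a.length) : adr x g m = a.take m := by
  have h1 := adr_take x g m a.length hm
  rw [h.2] at h1
  exact h1.symm

theorem adr_of_la_ge {x : Pt} {g : ℤ} {a : List Bool} (h : LA x g a) {m : ℕ}
    (hm : a.length ≤ m) : ∃ s, adr x g m = a ++ s ∧ s.length = m - a.length := by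
  obtain ⟨k, rfl⟩ := Nat.exists_eq_add_of_le hm
  refine ⟨adr x (g - a.length) k, ?_, ?_⟩
  · rw [adr_add, h.2]
  · simp

theorem la_extend {x : Pt} {g : ℤ} {a : List Bool} (h : LA x g a) (d : ℕ) :
    LA x g (a ++ adr x (g - a.length) d) := by
  refine ⟨h.1, ?_⟩
  rw [List.length_append, length_adr, adr_add, h.2]

theorem la_of_prefix {x : Pt} {g : ℤ} (hx : IsLast x g) {w : List Bool} {n : ℕ}
    (h : w <+: adr x g n) : LA x g w := by
  refine ⟨hx, ?_⟩
  have hl : w.length ≤ n := by simpa using h.length_le
  rw [← adr_take x g w.length n hl]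
  exact (List.prefix_iff_eq_take.1 h).symm

end Pool.MP_5a0708_an.CodeStep

namespace Pool.MP_5a0708_an

open CodeStep in
theorem codeStep : CodeStep := by
  intro r J d θ ψ I a b hθ h0 hI hC ha ha' hb hab hba hψ hd
  refine ⟨?_, prefClosed_exch hI ha' hb hba⟩
  intro z g g'' hz hg'' n
  obtain ⟨g', hg', -, -⟩ := hθ.isLast_image h0 hz
  have H := hC z g g' hz hg'
  -- the level is at most `d`
  have hℓd : g' - g + J ≤ d := by
    by_contra hcon
    have h1 := (H d).2 (by omega)
    have h2 := hd _ h1
    rw [length_adr] at h2
    omega
  by_cases hA : LA (θ z) g' a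
  · -- Case A
    have hψA := hψ.ab (θ z) g' _ (length_adr _ _ _) (la_extend hA d)
    have hg : g'' = g' - a.length + b.length := hg''.unique hψA.1
    have hane : 0 < a.length := by
      rw [List.length_pos_iff]
      rintro rfl
      exact hab List.nil_prefix
    have hℓ1 : g' - g + J ≤ a.length := by
      by_contra hcon
      have h1 := (H a.length).2 (by omega)
      rw [hA.2] at h1
      exact ha h1
    have hℓ2 : (a.length : ℤ) - 1 < g' - g + J := by
      have h1 : adr (θ z) g' (a.length - 1) ∈ I := by
        rw [adr_of_la_lt hA (by omega)]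
        apply ha' _ (List.take_prefix _ _)
        intro h
        have := congrArg List.length h
        rw [List.length_take] at this
        omega
      have h2 := (H _).1 h1
      omega
    have hb' : LA (ψ (θ z)) g'' b := by
      rw [hg]
      exact la_append hψA
    constructor
    · intro hn
      by_contra hcon
      obtain ⟨s, hs, -⟩ := adr_of_la_ge hb' (m := n) (by omega)
      rw [mem_exch] at hn
      rcases hn with ⟨-, hn⟩ | ⟨s', -, hs'⟩
      · exact hn ⟨s, hs.symm⟩
      · have h1 : a <+: adr (ψ (θ z)) g'' n := ⟨s', hs'.symm⟩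
        have h2 : b <+: adr (ψ (θ z)) g'' n := ⟨s, hs.symm⟩
        rcases List.prefix_or_prefix_of_prefix h1 h2 with h3 | h3
        · exact hab h3
        · exact hba h3
    · intro hn
      rw [mem_exch]
      left
      rw [adr_of_la_lt hb' (m := n) (by omega)]
      refine ⟨hI.prefix_mem (List.take_prefix _ _) hb, ?_⟩
      intro h
      have := h.length_le
      rw [List.length_take] at this
      omega
  by_cases hB : LA (θ z) g' b
  · -- Case B
    have hθt := la_extend hB d
    have htl : (adr (θ z) (g' - b.length) d).length = d := length_adr _ _ _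
    have hψB := hψ.ba (θ z) g' _ htl hθt
    set t := adr (θ z) (g' - b.length) d with ht
    have hg : g'' = g' - b.length + a.length := hg''.unique hψB.1
    have hbℓ : (b.length : ℤ) < g' - g + J := by
      apply (H b.length).1
      rw [hB.2]
      exact hb
    have hψB' : LA (ψ (θ z)) g'' (a ++ t) := by
      rw [hg]
      exact hψB
    have ha'' : LA (ψ (θ z)) g'' a := la_append hψB'
    have hnotI : ∀ s, a ++ s ∉ I := fun s hs => ha (hI a s hs)
    rcases lt_or_ge n a.length with hn | hn
    · have h1 : adr (ψ (θ z)) g'' n ∈ exch I a b := by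
        rw [mem_exch]
        left
        rw [adr_of_la_lt ha'' (m := n) (by omega)]
        refine ⟨?_, fun h => hba (h.trans (List.take_prefix _ _))⟩
        apply ha' _ (List.take_prefix _ _)
        intro h
        have := congrArg List.length h
        rw [List.length_take] at this
        omega
      exact ⟨fun _ => by omega, fun _ => h1⟩
    obtain ⟨m, rfl⟩ := Nat.exists_eq_add_of_le hn
    rcases Nat.lt_or_ge d m with hm | hm
    · constructor
      · intro h1
        exfalso
        obtain ⟨s, hs, hsl⟩ := adr_of_la_ge ha'' (m := a.length + m) (by omega)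
        rw [mem_exch, hs] at h1
        rcases h1 with ⟨h1, -⟩ | ⟨s', h1, h2⟩
        · exact hnotI s h1
        · rw [List.append_cancel_left_eq] at h2
          subst h2
          have := hd _ h1
          rw [List.length_append] at this
          omega
      · intro h1
        exfalso
        omega
    · rw [adr_of_la hψB' (m := m) (by omega)]
      have h1 : a ++ t.take m ∈ exch I a b ↔ b ++ t.take m ∈ I := by
        rw [mem_exch]
        constructor
        · rintro (⟨h1, -⟩ | ⟨s', h1, h2⟩)
          · exact absurd h1 (hnotI _)
          · rw [List.append_cancel_left_eq] at h2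
            rw [h2]
            exact h1
        · intro h1
          exact Or.inr ⟨_, h1, rfl⟩
      rw [h1, ← adr_of_la hθt (m := m) (by omega), H]
      push_cast
      omega
  · -- Case C
    obtain ⟨h1, h2⟩ := hψ.other (θ z) g' hg' hA hB
    have hg : g'' = g' := hg''.unique h1
    subst hg
    rcases Nat.lt_or_ge d n with hn | hn
    · constructor
      · intro h3
        exfalso
        rw [mem_exch] at h3
        rcases h3 with ⟨h3, -⟩ | ⟨s, h3, h4⟩
        · have := hd _ h3
          rw [length_adr] at this
          omega
        · have h5 := hd _ h3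
          have h6 := congrArg List.length h4
          rw [length_adr, List.length_append] at h6
          rw [List.length_append] at h5
          omega
      · intro h3
        exfalso
        omega
    · have h3 : adr (ψ (θ z)) g'' n = adr (θ z) g'' n := by
        rw [← adr_take _ _ n d hn, h2, adr_take _ _ n d hn]
      change adr (ψ (θ z)) g'' n ∈ exch I a b ↔ _
      rw [h3, ← H n, mem_exch]
      constructor
      · rintro (⟨h4, -⟩ | ⟨s, -, h4⟩)
        · exact h4
        · exact absurd (la_of_prefix hg' ⟨s, h4.symm⟩) hA
      · intro h4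
        exact Or.inl ⟨h4, fun h5 => hB (la_of_prefix hg' h5)⟩

end Pool.MP_5a0708_an
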