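import Pool.Agent.Lib.MP_5a0708_an.Spec

/-!
# MP_5a0708_an : types of the words of the code
-/

set_option autoImplicit false

namespace Pool.MP_5a0708_an

namespace Count2

/-- the point of an address -/
def ptw (p : List Bool) : Pt := fun i => if 0 ≤ i then coreW p i.toNat else false

lemma ptw_nat (p : List Bool) (k : ℕ) : ptw p (k : ℤ) = coreW p k := by
  simp [ptw]

lemma ptw_neg (p : List Bool) {i : ℤ} (hi : i < 0) : ptw p i = false := by
  have : ¬ 0 ≤ i := by omega
  simp [ptw, this]

lemma la_ptw (p : List Bool) : LA (ptw p) p.length p := by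
  have h1 : LA (ptw p) (0 + p.length) p := by
    rw [la_iff_reads (h := p.length + 1) (by omega)]
    refine ⟨?_, ?_⟩
    · intro k _
      rw [zero_add, ptw_nat]
    · intro i hi
      have e : ((i.toNat : ℕ) : ℤ) = i := by omega
      rw [← e, ptw_nat, coreW_gt p (by omega)]
  rwa [zero_add] at h1

lemma first_ptw (p : List Bool) : IsFirst (ptw p) (ty p : ℕ) := by
  refine ⟨?_, ?_⟩
  · rw [ptw_nat, coreW_ty]
  · intro i hi
    rcases lt_or_ge i 0 with h | h
    · exact ptw_neg p h
    · have e : ((i.toNat : ℕ) : ℤ) = i := by omega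
      rw [← e, ptw_nat, coreW_lt_ty p (by omega)]

lemma eq_ptw {x : Pt} {n : ℕ} (h : IsLast x n) (h0 : ZL x 0) : x = ptw (adr x n n) := by
  have h1 : LA x (0 + (adr x n n).length) (adr x n n) := by
    rw [zero_add, length_adr]
    exact ⟨h, by rw [length_adr]⟩
  rw [la_iff_reads (h := n + 1) (by rw [length_adr]; omega)] at h1
  obtain ⟨h2, h3⟩ := h1
  funext i
  rcases lt_or_ge i 0 with h | h
  · rw [h0 i h, ptw_neg _ h]
  · have e : ((i.toNat : ℕ) : ℤ) = i := by omega
    rcases lt_or_ge i (n + 1) with h4 | h4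
    · have h5 := h2 i.toNat (by omega)
      rw [zero_add, e] at h5
      rw [h5]
      conv_rhs => rw [← e]
      rw [ptw_nat]
    · rw [h3 i (by push_cast; omega)]
      conv_rhs => rw [← e]
      rw [ptw_nat, coreW_gt _ (by rw [length_adr]; omega)]

lemma ptw_inj {p q : List Bool} (h : ptw p = ptw q) : p = q := by
  have h1 := la_ptw p
  have h2 := la_ptw q
  rw [h] at h1
  have h3 := h1.1.unique h2.1
  have h4 : p.length = q.length := by omega
  have e1 := h1.2
  have e2 := h2.2
  rw [h4] at e1
  exact e1.symm.trans e2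

end Count2

open Count2 in
theorem count2 : Count2 := by
  intro r J θ I hθ h0 hF hC k
  -- from `I` to `Std J`
  have hAB : ∀ p ∈ I.filter (fun p => ty p = k), ∃ q ∈ (Std J).filter (fun p => ty p = k),
      θ (ptw q) = ptw p := by
    intro p hp
    rw [Finset.mem_filter] at hp
    obtain ⟨hpI, hpk⟩ := hp
    set z := θ.symm (ptw p) with hz
    have hθz : θ z = ptw p := Equiv.apply_symm_apply θ _
    have hfz : IsFirst z (k : ℕ) := by
      rw [← hF, hθz, ← hpk]
      exact first_ptw p
    obtain ⟨g, hg, -, -⟩ := hθ.symm.isLast_image (symm_zpt h0) (la_ptw p).1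
    have hg' : IsLast z g := hg
    have hkg : (k : ℤ) ≤ g := by
      by_contra hcon
      have h1 := hg'.2 k (by omega)
      rw [hfz.1] at h1
      cases h1
    obtain ⟨n, rfl⟩ : ∃ n : ℕ, g = n := ⟨g.toNat, by omega⟩
    have hz0 : ZL z 0 := fun i hi => hfz.2 i (by omega)
    have hzq := eq_ptw hg' hz0
    have hlast : IsLast (θ z) (p.length : ℕ) := by
      rw [hθz]
      exact (la_ptw p).1
    have h2 := hC z n p.length hg' hlast p.length
    rw [hθz, (la_ptw p).2] at h2
    have h3 := h2.1 hpI
    refine ⟨adr z n n, ?_, ?_⟩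
    · rw [Finset.mem_filter, mem_Std, length_adr]
      refine ⟨by omega, ?_⟩
      have h4 := first_ptw (adr z n n)
      rw [← hzq] at h4
      have := h4.unique hfz
      omega
    · rw [← hzq, hθz]
  have hBA : ∀ q ∈ (Std J).filter (fun p => ty p = k), ∃ p ∈ I.filter (fun p => ty p = k),
      θ (ptw q) = ptw p := by
    intro q hq
    rw [Finset.mem_filter, mem_Std] at hq
    obtain ⟨hqJ, hqk⟩ := hq
    set z := ptw q with hz
    have hfz : IsFirst (θ z) (k : ℕ) := by
      rw [hF, ← hqk]
      exact first_ptw q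
    obtain ⟨g, hg, -, -⟩ := hθ.isLast_image h0 (la_ptw q).1
    have hg' : IsLast (θ z) g := hg
    have hkg : (k : ℤ) ≤ g := by
      by_contra hcon
      have h1 := hg'.2 k (by omega)
      rw [hfz.1] at h1
      cases h1
    obtain ⟨n, rfl⟩ : ∃ n : ℕ, g = n := ⟨g.toNat, by omega⟩
    have hz0 : ZL (θ z) 0 := fun i hi => hfz.2 i (by omega)
    have hzq := eq_ptw hg' hz0
    have h2 := hC z q.length n (la_ptw q).1 hg' n
    refine ⟨adr (θ z) n n, ?_, hzq⟩
    rw [Finset.mem_filter]
    refine ⟨h2.2 (by omega), ?_⟩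
    have h4 := first_ptw (adr (θ z) n n)
    rw [← hzq] at h4
    have := h4.unique hfz
    omega
  symm
  refine Finset.card_bij (fun q hq => (hBA q hq).choose) ?_ ?_ ?_
  · intro q hq
    exact (hBA q hq).choose_spec.1
  · intro q hq q' hq' he
    have h1 := (hBA q hq).choose_spec.2
    have h2 := (hBA q' hq').choose_spec.2
    rw [he, ← h2] at h1
    exact ptw_inj (θ.injective h1)
  · intro p hp
    obtain ⟨q, hq, h1⟩ := hAB p hp
    refine ⟨q, hq, ?_⟩
    have h2 := (hBA q hq).choose_spec.2
    exact (ptw_inj (h1.symm.trans h2)).symm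

end Pool.MP_5a0708_an
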