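import Pool.Agent.Lib.MP_5a0708_an.Spec

/-!
# MP_5a0708_an : CountBal
-/

set_option autoImplicit false

namespace Pool.MP_5a0708_an.CountBal

/-- the letter at `n` may be changed freely -/
theorem step_eq {r : ℕ} {θ : Equiv.Perm Pt} (h : IsAut r θ) (n c : ℤ) (hn : c + r ≤ n) :
    BSet θ (n + 1) c = BSet θ n c ∪ (fun z : Pt => Function.update z n true) '' BSet θ n c := by
  have key : ∀ (z w : Pt), (∀ i, i ≠ n → z i = w i) → ZL (θ z) c → ZL (θ w) c := by
    intro z w hzw hz i hi
    rw [← hz i hi]
    apply h.loc
    intro j h1 h2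
    exact (hzw j (by omega)).symm
  ext z
  constructor
  · rintro ⟨hz1, hz2⟩
    by_cases hz : z n = true
    · right
      refine ⟨Function.update z n false, ⟨?_, ?_⟩, ?_⟩
      · intro i hi
        by_cases hin : i = n
        · subst hin; simp
        · rw [Function.update_of_ne hin]
          exact hz1 i (by omega)
      · apply key z _ _ hz2
        intro i hi
        rw [Function.update_of_ne hi]
      · funext i
        by_cases hin : i = n
        · subst hin; simp [hz]
        · simp [Function.update_of_ne hin]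
    · left
      refine ⟨?_, hz2⟩
      intro i hi
      by_cases hin : i = n
      · subst hin; simpa using hz
      · exact hz1 i (by omega)
  · rintro (⟨hz1, hz2⟩ | ⟨w, ⟨hw1, hw2⟩, rfl⟩)
    · exact ⟨fun i hi => hz1 i (by omega), hz2⟩
    · refine ⟨?_, ?_⟩
      · intro i hi
        change Function.update w n true i = false
        rw [Function.update_of_ne (by omega)]
        exact hw1 i (by omega)
      · apply key w _ _ hw2
        intro i hi
        change w i = Function.update w n true i
        rw [Function.update_of_ne hi]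

theorem count {r : ℕ} {θ : Equiv.Perm Pt} (h : IsAut r θ) (c : ℤ) (K : ℕ)
    (h0 : (BSet θ (c + r) c).Finite ∧ (BSet θ (c + r) c).ncard = K) (j : ℕ) :
    (BSet θ (c + r + j) c).Finite ∧ (BSet θ (c + r + j) c).ncard = K * 2 ^ j := by
  induction j with
  | zero => simpa using h0
  | succ j ih =>
    obtain ⟨hf, hc⟩ := ih
    have e : c + r + ((j + 1 : ℕ) : ℤ) = (c + r + j) + 1 := by push_cast; ring
    rw [e, step_eq h _ _ (by omega)]
    have hinj : Set.InjOn (fun z : Pt => Function.update z (c + r + (j : ℤ)) true)
        (BSet θ (c + r + j) c) := by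
      intro z hz w hw hzw
      funext i
      by_cases hi : i = c + r + (j : ℤ)
      · rw [hz.1 i (by omega), hw.1 i (by omega)]
      · have := congrFun hzw i
        simpa [Function.update_of_ne hi] using this
    have hdisj : Disjoint (BSet θ (c + r + j) c)
        ((fun z : Pt => Function.update z (c + r + (j : ℤ)) true) '' BSet θ (c + r + j) c) := by
      rw [Set.disjoint_left]
      rintro z hz ⟨w, hw, rfl⟩
      have := hz.1 (c + r + (j : ℤ)) le_rfl
      simp at this
    refine ⟨hf.union (hf.image _), ?_⟩
    rw [Set.ncard_union_eq hdisj hf (hf.image _), hinj.ncard_image, hc, pow_succ]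
    ring

end Pool.MP_5a0708_an.CountBal

namespace Pool.MP_5a0708_an

theorem countBal (hI : CountInd) (hP : CountPow) : CountBal := by
  intro r θ h
  obtain ⟨K, hK⟩ := hI r θ h
  obtain ⟨m, hm, rfl⟩ := hP r θ K h hK
  refine ⟨(m : ℤ) - r, by omega, ?_⟩
  intro n c hn
  have hB : BSet (fun z => tr ((m : ℤ) - r) (θ z)) n c = BSet θ n (c + ((m : ℤ) - r)) := by
    ext z
    constructor
    · rintro ⟨h1, h2⟩
      refine ⟨h1, ?_⟩
      intro i hi
      have := h2 (i - ((m : ℤ) - r)) (by omega)
      change θ z (i - ((m : ℤ) - r) + ((m : ℤ) - r)) = false at this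
      rwa [sub_add_cancel] at this
    · rintro ⟨h1, h2⟩
      refine ⟨h1, ?_⟩
      intro i hi
      change θ z (i + ((m : ℤ) - r)) = false
      exact h2 _ (by omega)
  rw [hB]
  set c' : ℤ := c + ((m : ℤ) - r) with hc'
  have h0 : (BSet θ (c' + r) c').Finite ∧ (BSet θ (c' + r) c').ncard = 2 ^ m := by
    have e : BSet θ (c' + r) c' = CSet θ r zpt zpt c' := by
      ext z
      rfl
    rw [e]
    exact hK zpt zpt c'
  have h1 := CountBal.count h c' (2 ^ m) h0 (n - (c' + r)).toNat
  have e1 : c' + r + ((n - (c' + r)).toNat : ℤ) = n := by omega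
  rw [e1, ← pow_add] at h1
  have e2 : m + (n - (c' + r)).toNat = (n - c).toNat := by omega
  rw [e2] at h1
  exact h1

end Pool.MP_5a0708_an
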