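import Pool.Agent.Lib.MP_5a0708_an.Spec

/-!
# MP_5a0708_an : the number of points with given tails (module CountInd, helper45)
-/

set_option autoImplicit false

namespace Pool.MP_5a0708_an.CountInd

variable {r : ℕ} {θ : Equiv.Perm Pt}

/-- a point is determined to the left by its image -/
theorem left_det (h : IsAut r θ) {z w : Pt} {c : ℤ} (he : ∀ i : ℤ, i < c → θ z i = θ w i)
    (i : ℤ) (hi : i < c - r) : z i = w i := by
  have h1 := h.locSymm (θ z) (θ w) i (fun j _ h3 => he j (by omega))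
  simpa using h1

/-- a point is determined to the right by its image -/
theorem right_det (h : IsAut r θ) {z w : Pt} {c : ℤ} (he : ∀ i : ℤ, c ≤ i → θ z i = θ w i)
    (i : ℤ) (hi : c + r ≤ i) : z i = w i := by
  have h1 := h.locSymm (θ z) (θ w) i (fun j h3 _ => he j (by omega))
  simpa using h1

theorem cset_finite (h : IsAut r θ) (ρ lam : Pt) (c : ℤ) : (CSet θ r ρ lam c).Finite := by
  refine Set.Finite.of_finite_image
    (f := fun z : Pt => (fun k : Fin (2 * r) => z (c - r + (k : ℕ)))) (Set.toFinite _) ?_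
  rintro z ⟨hz1, hz2⟩ w ⟨hw1, hw2⟩ hzw
  funext i
  by_cases h1 : i < c - r
  · exact left_det h (fun j hj => by rw [hz2 j hj, hw2 j hj]) i h1
  · by_cases h2 : c + r ≤ i
    · rw [hz1 i h2, hw1 i h2]
    · have h3 := congrFun hzw ⟨(i - (c - r)).toNat, by omega⟩
      simp only at h3
      have e : c - r + (((i - (c - r)).toNat : ℕ) : ℤ) = i := by omega
      rw [e] at h3
      exact h3

theorem le_rho (h : IsAut r θ) (ρ ρ' lam : Pt) (c : ℤ) :
    (CSet θ r ρ lam c).ncard ≤ (CSet θ r ρ' lam c).ncard := by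
  refine Set.ncard_le_ncard_of_injOn (fun z => glue z ρ' (c + r)) ?_ ?_ (cset_finite h ρ' lam c)
  · rintro z ⟨hz1, hz2⟩
    refine ⟨fun i hi => glue_ge hi, fun i hi => ?_⟩
    rw [← hz2 i hi]
    exact h.loc _ _ i (fun j _ h2 => glue_lt (by omega))
  · rintro z ⟨hz1, hz2⟩ w ⟨hw1, hw2⟩ hzw
    funext i
    by_cases hi : c + r ≤ i
    · rw [hz1 i hi, hw1 i hi]
    · have h1 := congrFun hzw i
      simp only at h1
      rw [glue_lt (by omega), glue_lt (by omega)] at h1
      exact h1

theorem le_lam (h : IsAut r θ) (ρ lam lam' : Pt) (c : ℤ) :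
    (CSet θ r ρ lam c).ncard ≤ (CSet θ r ρ lam' c).ncard := by
  refine Set.ncard_le_ncard_of_injOn (fun z => θ.symm (glue lam' (θ z) c)) ?_ ?_
    (cset_finite h ρ lam' c)
  · rintro z ⟨hz1, hz2⟩
    refine ⟨fun i hi => ?_, fun i hi => ?_⟩
    · rw [← hz1 i hi]
      refine right_det h (c := c) (fun j hj => ?_) i hi
      rw [Equiv.apply_symm_apply, glue_ge hj]
    · rw [Equiv.apply_symm_apply, glue_lt hi]
  · rintro z ⟨hz1, hz2⟩ w ⟨hw1, hw2⟩ hzw
    have h1 : glue lam' (θ z) c = glue lam' (θ w) c := θ.symm.injective hzw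
    apply θ.injective
    funext i
    by_cases hi : i < c
    · rw [hz2 i hi, hw2 i hi]
    · have h2 := congrFun h1 i
      rw [glue_ge (by omega), glue_ge (by omega)] at h2
      exact h2

theorem le_tr (h : IsAut r θ) (ρ lam : Pt) (c k : ℤ) :
    (CSet θ r ρ lam c).ncard ≤ (CSet θ r (tr k ρ) (tr k lam) (c - k)).ncard := by
  refine Set.ncard_le_ncard_of_injOn (fun z => tr k z) ?_ ?_ (cset_finite h _ _ _)
  · rintro z ⟨hz1, hz2⟩
    refine ⟨fun i hi => ?_, fun i hi => ?_⟩
    · exact hz1 (i + k) (by omega)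
    · rw [h.comm]
      exact hz2 (i + k) (by omega)
  · intro z _ w _ hzw
    exact (trE k).injective hzw

theorem tr_zpt (k : ℤ) : tr k zpt = zpt := rfl

end Pool.MP_5a0708_an.CountInd

namespace Pool.MP_5a0708_an

open Pool.MP_5a0708_an.CountInd in
/-- The number of points with given tails does not depend on the tails. -/
theorem countInd : CountInd := by
  intro r θ h
  refine ⟨(CSet θ r zpt zpt 0).ncard, fun ρ lam c => ⟨cset_finite h ρ lam c, ?_⟩⟩
  have h1 : (CSet θ r ρ lam c).ncard = (CSet θ r zpt lam c).ncard :=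
    le_antisymm (le_rho h _ _ _ _) (le_rho h _ _ _ _)
  have h2 : (CSet θ r zpt lam c).ncard = (CSet θ r zpt zpt c).ncard :=
    le_antisymm (le_lam h _ _ _ _) (le_lam h _ _ _ _)
  have h3 : (CSet θ r zpt zpt c).ncard = (CSet θ r zpt zpt 0).ncard := by
    apply le_antisymm
    · have := le_tr h zpt zpt c c
      rwa [tr_zpt, sub_self] at this
    · have := le_tr h zpt zpt 0 (-c)
      rwa [tr_zpt, sub_neg_eq_add, zero_add] at this
  rw [h1, h2, h3]

end Pool.MP_5a0708_an
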