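import Pool.Agent.Lib.MP_5a0708_an.Spec

set_option autoImplicit false

namespace Pool.MP_5a0708_an

namespace CountPowAux

/-- points supported in `[-r, r)` -/
def F (r : ℕ) (v : Fin (2 * r) → Bool) : Pt := fun i =>
  if h : -(r : ℤ) ≤ i ∧ i < r then v ⟨(i + r).toNat, by omega⟩ else false

theorem F_inj (r : ℕ) : Function.Injective (F r) := by
  intro v w h
  funext k
  have h1 := congrFun h ((k : ℤ) - r)
  have hk := k.2
  have h2 : -(r : ℤ) ≤ (k : ℤ) - r ∧ (k : ℤ) - r < r := by omega
  simp only [F, dif_pos h2] at h1
  have e : (⟨((k : ℤ) - r + r).toNat, by omega⟩ : Fin (2 * r)) = k := by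
    apply Fin.ext
    simp
  rw [e] at h1
  exact h1

/-- the finite set of these points -/
noncomputable def T (r : ℕ) : Finset Pt := by
  classical
  exact Finset.univ.image (F r)

theorem card_T (r : ℕ) : (T r).card = 2 ^ (2 * r) := by
  classical
  unfold T
  rw [Finset.card_image_of_injective _ (F_inj r)]
  simp

theorem mem_T {r : ℕ} {z : Pt} :
    z ∈ T r ↔ (∀ i : ℤ, i < -(r : ℤ) → z i = false) ∧ ∀ i : ℤ, (r : ℤ) ≤ i → z i = false := by
  classical
  unfold T
  simp only [Finset.mem_image, Finset.mem_univ, true_and]
  constructor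
  · rintro ⟨v, rfl⟩
    refine ⟨fun i hi => ?_, fun i hi => ?_⟩
    · have : ¬ (-(r : ℤ) ≤ i ∧ i < r) := by omega
      simp only [F, dif_neg this]
    · have : ¬ (-(r : ℤ) ≤ i ∧ i < r) := by omega
      simp only [F, dif_neg this]
  · rintro ⟨h1, h2⟩
    refine ⟨fun k => z ((k : ℤ) - r), ?_⟩
    funext i
    by_cases hi : -(r : ℤ) ≤ i ∧ i < r
    · simp only [F, dif_pos hi]
      congr 1
      omega
    · simp only [F, dif_neg hi]
      rcases lt_or_ge i (-(r : ℤ)) with h3 | h3
      · exact (h1 i h3).symm
      · exact (h2 i (by omega)).symm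

end CountPowAux

open CountPowAux in
theorem countPow (hI : CountInd) : CountPow := by
  classical
  intro r θ K hθ hK
  obtain ⟨K', hK'⟩ := hI r θ.symm hθ.symm
  let m : Pt → Pt := fun z => glue (θ z) zpt 0
  have hfib : ∀ z0 ∈ T r, ((T r).filter (fun z => m z = m z0)).card = K := by
    intro z0 hz0
    have hset : (((T r).filter (fun z => m z = m z0) : Finset Pt) : Set Pt) =
        CSet θ r zpt (θ z0) 0 := by
      ext z
      simp only [Finset.coe_filter, Set.mem_ofPred_eq, CSet]
      constructor
      · rintro ⟨h1, h2⟩
        rw [mem_T] at h1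
        refine ⟨fun i hi => ?_, fun i hi => ?_⟩
        · rw [h1.2 i (by omega)]
          rfl
        · have h3 := congrFun h2 i
          simp only [m] at h3
          rw [glue_lt hi, glue_lt hi] at h3
          exact h3
      · rintro ⟨h1, h2⟩
        refine ⟨?_, ?_⟩
        · rw [mem_T]
          refine ⟨fun i hi => ?_, fun i hi => h1 i (by omega)⟩
          have h3 := hθ.locSymm (θ z) (θ z0) i (fun j _ h4 => h2 j (by omega))
          rw [Equiv.symm_apply_apply, Equiv.symm_apply_apply] at h3
          rw [h3]
          exact (mem_T.1 hz0).1 i hi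
        · funext i
          simp only [m]
          by_cases hi : i < 0
          · rw [glue_lt hi, glue_lt hi, h2 i hi]
          · rw [glue_ge (by omega), glue_ge (by omega)]
    have h1 := (hK zpt (θ z0) 0).2
    rw [← hset, Set.ncard_coe_finset] at h1
    exact h1
  have himg : ((T r).image m).card = K' := by
    have hset : (((T r).image m : Finset Pt) : Set Pt) = CSet θ.symm r zpt zpt (-(r : ℤ)) := by
      ext w
      simp only [Finset.coe_image, Set.mem_image, Finset.mem_coe, CSet, Set.mem_ofPred_eq]
      constructor
      · rintro ⟨z, hz, rfl⟩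
        rw [mem_T] at hz
        refine ⟨fun i hi => ?_, fun i hi => ?_⟩
        · simp only [m]
          rw [glue_ge (by omega)]
        · have h3 := hθ.locSymm (m z) (θ z) i (fun j _ h4 => by
            simp only [m]
            rw [glue_lt (by omega)])
          rw [Equiv.symm_apply_apply] at h3
          rw [h3, hz.1 i hi]
          rfl
      · rintro ⟨h1, h2⟩
        refine ⟨glue (θ.symm w) zpt r, ?_, ?_⟩
        · rw [mem_T]
          refine ⟨fun i hi => ?_, fun i hi => ?_⟩
          · rw [glue_lt (by omega), h2 i hi]
            rfl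
          · rw [glue_ge hi]
            rfl
        · funext i
          simp only [m]
          by_cases hi : i < 0
          · rw [glue_lt hi]
            have h3 := hθ.loc (glue (θ.symm w) zpt r) (θ.symm w) i (fun j _ h4 => by
              rw [glue_lt (by omega)])
            rw [Equiv.apply_symm_apply] at h3
            exact h3
          · rw [glue_ge (by omega), h1 i (by omega)]
    have h1 := (hK' zpt zpt (-(r : ℤ))).2
    rw [← hset, Set.ncard_coe_finset] at h1
    exact h1
  have hprod : 2 ^ (2 * r) = K' * K := by
    rw [← card_T r, Finset.card_eq_sum_card_image m (T r)]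
    rw [Finset.sum_congr rfl (g := fun _ => K) ?_]
    · rw [Finset.sum_const, himg, smul_eq_mul]
    · intro b hb
      rw [Finset.mem_image] at hb
      obtain ⟨z0, hz0, rfl⟩ := hb
      exact hfib z0 hz0
  exact (Nat.dvd_prime_pow Nat.prime_two).1 ⟨K', by rw [hprod, mul_comm]⟩

end Pool.MP_5a0708_an
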