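import Pool.Agent.Lib.MP_5a0708_an.Spec

/-!
# MP_5a0708_an : the sites of the first involution of the untyped move (module Data1, helper45)
-/

set_option autoImplicit false

namespace Pool.MP_5a0708_an.Data1

theorem reads_congr {x y : Pt} {c : ℤ} {h : ℕ} {w : ℕ → Bool}
    (hxy : ∀ j : ℤ, c ≤ j → j < c + h → x j = y j) (hr : Reads x c h w) : Reads y c h w := by
  intro k hk
  rw [← hxy (c + k) (by omega) (by omega), hr k hk]

theorem site_congr {x y : Pt} {c : ℤ} {h N : ℕ} {w : List Bool} (hN : h ≤ N)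
    (hxy : ∀ j : ℤ, c ≤ j → j < c + N → x j = y j) (hs : Site x c h N w) : Site y c h N w :=
  ⟨reads_congr (fun j h1 h2 => hxy j h1 (by omega)) hs.1,
    fun i h1 h2 => by rw [← hxy i (by omega) h2]; exact hs.2 i h1 h2⟩

theorem reads_tr {x : Pt} {c k : ℤ} {h : ℕ} {w : ℕ → Bool} :
    Reads (tr k x) c h w ↔ Reads x (c + k) h w := by
  constructor
  · intro hr j hj
    rw [← hr j hj, tr_apply]
    congr 1
    ring
  · intro hr j hj
    rw [← hr j hj, tr_apply]
    congr 1
    ring

theorem zon_tr {x : Pt} {a b k : ℤ} : ZOn (tr k x) a b ↔ ZOn x (a + k) (b + k) := by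
  constructor
  · intro hz i h1 h2
    have := hz (i - k) (by omega) (by omega)
    rw [tr_apply] at this
    rw [← this]
    congr 1
    ring
  · intro hz i h1 h2
    rw [tr_apply]
    exact hz (i + k) (by omega) (by omega)

theorem site_tr {x : Pt} {c k : ℤ} {h N : ℕ} {w : List Bool} :
    Site (tr k x) c h N w ↔ Site x (c + k) h N w := by
  unfold Site
  rw [reads_tr, zon_tr]
  have e1 : c + (h : ℤ) + k = c + k + h := by ring
  have e2 : c + (N : ℤ) + k = c + k + N := by ring
  rw [e1, e2]

theorem S0.zero {a b : List Bool} {h N : ℕ} {x : Pt} {c : ℤ} (hs : S0 a b h N x c) :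
    ZOn x (c + h) (c + N) := by
  rcases hs with hs | hs
  · exact hs.2
  · exact hs.2

/-- separation of `S0`-sites -/
theorem s0_sep {a b : List Bool} {h N : ℕ} (ha : a.length < h) (hb : b.length < h) (hN : h ≤ N)
    (hab : ¬ a <+: b) (hba : ¬ b <+: a) {x : Pt} {c c' : ℤ} (hs : S0 a b h N x c)
    (hs' : S0 a b h N x c') (hcc : c < c') : c + N < c' + h := by
  rcases hs with hs | hs <;> rcases hs' with hs' | hs'
  · have := site_sep ha ha hN (Or.inr rfl) hs hs' hcc
    omega
  · have := site_sep ha hb hN (Or.inl hba) hs hs' hcc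
    omega
  · have := site_sep hb ha hN (Or.inl hab) hs hs' hcc
    omega
  · have := site_sep hb hb hN (Or.inr rfl) hs hs' hcc
    omega

theorem s1_sep {a b : List Bool} {h N : ℕ} (ha : a.length < h) (hb : b.length < h)
    (hN : 4 * h ≤ N) (hab : ¬ a <+: b) (hba : ¬ b <+: a) {x : Pt} {c c' : ℤ}
    (hs : S1 a b h N x c) (hs' : S1 a b h N x c') (hcc : c < c') : c + N ≤ c' := by
  have h1 := s0_sep ha hb (by omega) hab hba hs.1 hs'.1 hcc
  obtain ⟨i, h2, h3, h4⟩ := hs'.2
  have h5 : c + N ≤ i := by
    by_contra hcon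
    have := S0.zero hs.1 i (by omega) (by omega)
    rw [h4] at this
    cases this
  omega

end Pool.MP_5a0708_an.Data1

namespace Pool.MP_5a0708_an

open Pool.MP_5a0708_an.Data1 in
/-- The sites of the first involution of the untyped move are data for a swap. -/
theorem data1 : Data1 := by
  intro a b h N ha hb hN hab hba
  refine ⟨?_, ?_, ?_, ?_, ?_⟩
  · -- loc
    rintro x y c hxy ⟨h1, i, h2, h3, h4⟩
    refine ⟨?_, i, h2, h3, ?_⟩
    · rcases h1 with h1 | h1
      · exact Or.inl (site_congr (by omega) (fun j h5 h6 => hxy j (by omega) (by omega)) h1)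
      · exact Or.inr (site_congr (by omega) (fun j h5 h6 => hxy j (by omega) (by omega)) h1)
    · rw [← hxy i (by omega) (by omega)]
      exact h4
  · -- cov
    intro x c k
    unfold S1 S0
    rw [site_tr, site_tr]
    refine and_congr Iff.rfl ?_
    constructor
    · rintro ⟨i, h2, h3, h4⟩
      exact ⟨i + k, by omega, by omega, h4⟩
    · rintro ⟨i, h2, h3, h4⟩
      refine ⟨i - k, by omega, by omega, ?_⟩
      rw [tr_apply, sub_add_cancel]
      exact h4
  · -- core
    rintro x c ⟨h1 | h1, _⟩
    · exact Or.inl h1.1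
    · exact Or.inr h1.1
  · -- disj
    intro x c c' hs hs' hcc
    have := s1_sep ha hb hN hab hba hs hs' hcc
    omega
  · -- mono
    intro x y hr hch c hs
    have hz : ZOn y (c + h) (c + N) := by
      intro i h1 h2
      have hx : x i = false := S0.zero hs.1 i h1 h2
      by_contra hcon
      obtain ⟨c1, hc1, h3, h4⟩ := hch i (by rw [hx]; exact fun he => hcon he.symm)
      rcases lt_trichotomy c1 c with h5 | h5 | h5
      · have := s1_sep ha hb hN hab hba hc1 hs h5
        omega
      · omega
      · have := s1_sep ha hb hN hab hba hs hc1 h5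
        omega
    obtain ⟨i, h2, h3, h4⟩ := hs.2
    refine ⟨?_, i, h2, h3, ?_⟩
    · rcases hr c hs with h5 | h5
      · exact Or.inl ⟨h5, hz⟩
      · exact Or.inr ⟨h5, hz⟩
    · by_contra hcon
      obtain ⟨c1, hc1, h5, h6⟩ := hch i (by rw [h4]; exact fun he => hcon he.symm)
      have := s1_sep ha hb hN hab hba hc1 hs (by omega)
      omega

end Pool.MP_5a0708_an
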