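import Pool.Agent.Lib.MP_5a0708_an.Spec

set_option autoImplicit false

namespace Pool.MP_5a0708_an

namespace Data2Aux

theorem zOn_tr (x : Pt) (k u v : ℤ) : ZOn (tr k x) u v ↔ ZOn x (u + k) (v + k) := by
  unfold ZOn tr
  constructor
  · intro h i h1 h2
    have := h (i - k) (by omega) (by omega)
    simpa using this
  · intro h i h1 h2
    exact h (i + k) (by omega) (by omega)

theorem reads_tr (x : Pt) (c k : ℤ) (h : ℕ) (w : ℕ → Bool) :
    Reads (tr k x) c h w ↔ Reads x (c + k) h w := by
  unfold Reads tr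
  constructor
  · intro h1 j hj
    rw [← h1 j hj]
    congr 1
    ring
  · intro h1 j hj
    rw [← h1 j hj]
    congr 1
    ring

theorem site_tr (x : Pt) (c k : ℤ) (h N : ℕ) (w : List Bool) :
    Site (tr k x) c h N w ↔ Site x (c + k) h N w := by
  unfold Site
  rw [reads_tr, zOn_tr, show c + (h : ℤ) + k = c + k + h by ring,
    show c + (N : ℤ) + k = c + k + N by ring]

theorem w_tr (a b : List Bool) (h : ℕ) (x : Pt) (c k : ℤ) :
    W a b h (tr k x) c ↔ W a b h x (c + k) := by
  unfold W S0
  rw [zOn_tr, site_tr, site_tr, show c - 2 * (h : ℤ) + k = c + k - 2 * h by ring]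

theorem s2_tr (a b : List Bool) (h N : ℕ) (x : Pt) (c k : ℤ) :
    S2 a b h N (tr k x) c ↔ S2 a b h N x (c + k) := by
  unfold S2
  rw [w_tr, zOn_tr, show c + (h : ℤ) + k = c + k + h by ring,
    show c + (N : ℤ) + k = c + k + N by ring]
  refine and_congr Iff.rfl (and_congr Iff.rfl ?_)
  constructor
  · intro h1 c' h2 h3 h4
    refine h1 (c' - k) (by omega) (by omega) ?_
    rw [w_tr]
    simpa using h4
  · intro h1 c' h2 h3 h4
    rw [w_tr] at h4
    exact h1 (c' + k) (by omega) (by omega) h4

theorem w_congr {a b : List Bool} {h : ℕ} {x y : Pt} {c : ℤ}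
    (hxy : ∀ i : ℤ, c - 2 * h ≤ i → i < c + 2 * h → x i = y i) (hw : W a b h x c) :
    W a b h y c := by
  have hs : ∀ w : List Bool, Site x c h (2 * h) w → Site y c h (2 * h) w := by
    intro w hs
    refine ⟨fun j hj => ?_, fun i hi hi' => ?_⟩
    · rw [← hxy _ (by omega) (by omega)]
      exact hs.1 j hj
    · rw [← hxy _ (by omega) (by omega)]
      exact hs.2 i hi hi'
  refine ⟨fun i hi hi' => ?_, ?_⟩
  · rw [← hxy _ (by omega) (by omega)]
    exact hw.1 i hi hi'
  · rcases hw.2 with h1 | h1
    · exact Or.inl (hs a h1)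
    · exact Or.inr (hs b h1)

theorem s0_site {a b : List Bool} {h N : ℕ} {x : Pt} {c : ℤ} (ha : a.length < h)
    (hb : b.length < h) (hs : S0 a b h N x c) :
    ∃ w : List Bool, w.length < h ∧ (w = a ∨ w = b) ∧ Site x c h N w := by
  rcases hs with hs | hs
  · exact ⟨a, ha, Or.inl rfl, hs⟩
  · exact ⟨b, hb, Or.inr rfl, hs⟩

theorem w_sep {a b : List Bool} {h : ℕ} {x : Pt} {c c' : ℤ} (ha : a.length < h)
    (hb : b.length < h) (hab : ¬ a <+: b) (hba : ¬ b <+: a) (hw : W a b h x c)
    (hw' : W a b h x c') (hcc : c < c') : c + 2 * h < c' := by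
  obtain ⟨w, hl, he, hs⟩ := s0_site ha hb hw.2
  obtain ⟨w', hl', he', hs'⟩ := s0_site ha hb hw'.2
  have hinc : ¬ w' <+: w ∨ w = w' := by
    rcases he with rfl | rfl <;> rcases he' with rfl | rfl
    · exact Or.inr rfl
    · exact Or.inl hba
    · exact Or.inl hab
    · exact Or.inr rfl
  have h1 := site_sep hl hl' (by omega) hinc hs hs' hcc
  have h2 := hs.one hl
  by_contra hcon
  rw [hw'.1 _ (by omega) (by omega)] at h2
  cases h2

end Data2Aux

open Data2Aux in
theorem data2 : Data2 := by
  intro a b h N ha hb hN hab hba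
  have hsep : ∀ (x : Pt) (c c' : ℤ), W a b h x c → W a b h x c' → c < c' → c + 2 * h < c' :=
    fun x c c' h1 h2 h3 => w_sep ha hb hab hba h1 h2 h3
  refine ⟨?_, ?_, ?_, ?_, ?_⟩
  · intro x y c hxy hs
    obtain ⟨h1, h2, h3⟩ := hs
    refine ⟨w_congr (fun i hi hi' => hxy i (by push_cast; omega) (by push_cast; omega)) h1, ?_, ?_⟩
    · intro i hi hi'
      rw [← hxy i (by push_cast; omega) (by push_cast; omega)]
      exact h2 i hi hi'
    · intro c' hc hc' hw
      refine h3 c' hc hc' (w_congr (fun i hi hi' => ?_) hw)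
      exact (hxy i (by push_cast; omega) (by push_cast; omega)).symm
  · intro x c k
    exact s2_tr a b h N x c k
  · intro x c hs
    rcases hs.1.2 with h1 | h1
    · exact Or.inl h1.1
    · exact Or.inr h1.1
  · intro x c c' hs hs' hcc
    have := hsep x c c' hs.1 hs'.1 hcc
    omega
  · intro x y hcore hch
    -- (b)
    have hB : ∀ c : ℤ, W a b h x c → W a b h y c := by
      intro c hw
      have hfar : ∀ c1 : ℤ, S2 a b h N x c1 → c1 < c → c1 + N ≤ c := by
        intro c1 hs1 hlt
        by_contra hcon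
        exact hs1.2.2 c hlt (by omega) hw
      have hL : ZOn y (c - 2 * h) c := by
        intro i hi hi'
        by_contra hne
        have hx := hw.1 i hi hi'
        obtain ⟨c1, hs1, h1, h2⟩ := hch i (by rw [hx]; exact fun h => hne h.symm)
        have := hfar c1 hs1 (by omega)
        omega
      have hR : ZOn x (c + h) (c + (2 * h : ℕ)) := by
        rcases hw.2 with h1 | h1
        · exact h1.2
        · exact h1.2
      have hR' : ZOn y (c + h) (c + (2 * h : ℕ)) := by
        intro i hi hi'
        by_contra hne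
        have hx := hR i hi hi'
        obtain ⟨c1, hs1, h1, h2⟩ := hch i (by rw [hx]; exact fun h => hne h.symm)
        rcases lt_trichotomy c1 c with hlt | heq | hgt
        · have := hfar c1 hs1 hlt
          omega
        · omega
        · have := hsep x c c1 hw hs1.1 hgt
          omega
      refine ⟨hL, ?_⟩
      by_cases hs : S2 a b h N x c
      · rcases hcore c hs with hr | hr
        · exact Or.inl ⟨hr, hR'⟩
        · exact Or.inr ⟨hr, hR'⟩
      · have heq : ∀ k : ℕ, k < h → y (c + k) = x (c + k) := by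
          intro k hk
          by_contra hne
          obtain ⟨c1, hs1, h1, h2⟩ := hch (c + k) (fun h => hne h.symm)
          rcases lt_trichotomy c1 c with hlt | heq | hgt
          · have := hfar c1 hs1 hlt
            omega
          · exact hs (heq ▸ hs1)
          · have := hsep x c c1 hw hs1.1 hgt
            omega
        rcases hw.2 with h1 | h1
        · exact Or.inl ⟨fun k hk => by rw [heq k hk]; exact h1.1 k hk, hR'⟩
        · exact Or.inr ⟨fun k hk => by rw [heq k hk]; exact h1.1 k hk, hR'⟩
    -- (c)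
    have hC : ∀ c : ℤ, W a b h y c → W a b h x c := by
      intro c hw
      by_contra hne
      have hex : ∃ i : ℤ, c - 2 * h ≤ i ∧ i < c + 2 * h ∧ x i ≠ y i := by
        by_contra hcon
        push Not at hcon
        exact hne (w_congr (fun i hi hi' => (hcon i hi hi').symm) hw)
      obtain ⟨i, hi, hi', hxy⟩ := hex
      obtain ⟨c1, hs1, h1, h2⟩ := hch i hxy
      have hw1 := hB c1 hs1.1
      rcases lt_trichotomy c1 c with hlt | heq | hgt
      · have h3 := hsep y c1 c hw1 hw hlt
        obtain ⟨w, hl, -, hs⟩ := s0_site ha hb hw.2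
        have h4 := hs.one hl
        have h5 := hs1.2.1 (c + w.length) (by omega) (by omega)
        obtain ⟨c2, hs2, h6, h7⟩ := hch (c + w.length) (by rw [h4, h5]; simp)
        exact hs1.2.2 c2 (by omega) (by omega) hs2.1
      · exact hne (heq ▸ hs1.1)
      · have := hsep y c c1 hw hw1 hgt
        omega
    -- (d)
    intro c hs
    refine ⟨hB c hs.1, ?_, fun c' h1 h2 h3 => hs.2.2 c' h1 h2 (hC c' h3)⟩
    intro i hi hi'
    by_contra hne
    have hx := hs.2.1 i hi hi'
    obtain ⟨c1, hs1, h1, h2⟩ := hch i (by rw [hx]; exact fun h => hne h.symm)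
    rcases lt_trichotomy c1 c with hlt | heq | hgt
    · have : c1 + N ≤ c := by
        by_contra hcon
        exact hs1.2.2 c hlt (by omega) hs.1
      omega
    · omega
    · exact hs.2.2 c1 hgt (by omega) hs1.1

end Pool.MP_5a0708_an
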