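import Mathlib

/-!
# MP_5a0708_an : definitions

Straightening the long runs of zeros of an automorphism of the full 2-shift by the shift and
shift-commuting involutions.
-/

set_option autoImplicit false

namespace Pool.MP_5a0708_an

/-- The points of the full 2-shift. -/
abbrev Pt : Type := ℤ → Bool

/-- `tr k x` is the point `x` translated by `k`; `tr 1` is the shift. -/
def tr (k : ℤ) (x : Pt) : Pt := fun n => x (n + k)

/-- A continuous shift-commuting involution (or the identity). -/
def IsInv (f : Pt → Pt) : Prop :=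
  Continuous f ∧ (∀ x, f (f x) = x) ∧
    (∀ x : Pt, f (fun n => x (n + 1)) = fun n => f x (n + 1))

/-- A finite composition of continuous shift-commuting involutions applied after a power of the
shift. -/
def Gen (f : Pt → Pt) : Prop :=
  ∃ k : ℤ, ∃ L : List (Pt → Pt), (∀ g ∈ L, IsInv g) ∧
    ∀ x : Pt, f x = (L.foldr (· ∘ ·) id) (fun n => x (n + k))

/-- `f` has radius `r`. -/
def Loc (r : ℕ) (f : Pt → Pt) : Prop :=
  ∀ (x y : Pt) (i : ℤ), (∀ j : ℤ, i - r ≤ j → j ≤ i + r → x j = y j) → f x i = f y i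

/-- `θ` is an automorphism such that `θ` and `θ⁻¹` have radius `r`. -/
structure IsAut (r : ℕ) (θ : Equiv.Perm Pt) : Prop where
  loc : Loc r θ
  locSymm : Loc r θ.symm
  comm : ∀ (k : ℤ) (x : Pt), θ (tr k x) = tr k (θ x)

/-- Translation as a permutation. -/
def trE (k : ℤ) : Equiv.Perm Pt where
  toFun := tr k
  invFun := tr (-k)
  left_inv x := by funext n; simp [tr]
  right_inv x := by funext n; simp [tr]

/-- The group generated by the shift and the continuous shift-commuting involutions. -/
def G : Subgroup (Equiv.Perm Pt) :=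
  Subgroup.closure ({trE 1} ∪ {ι : Equiv.Perm Pt | IsInv ι})

/-- The point `0^∞`. -/
def zpt : Pt := fun _ => false

/-- `x` vanishes on `[a, b)`. -/
def ZOn (x : Pt) (a b : ℤ) : Prop := ∀ i : ℤ, a ≤ i → i < b → x i = false

/-- `x` vanishes on `[n, ∞)`. -/
def ZR (x : Pt) (n : ℤ) : Prop := ∀ i : ℤ, n ≤ i → x i = false

/-- `x` vanishes on `(-∞, n)`. -/
def ZL (x : Pt) (n : ℤ) : Prop := ∀ i : ℤ, i < n → x i = false

/-- The last one of `x` is at `g`. -/
def IsLast (x : Pt) (g : ℤ) : Prop := x g = true ∧ ∀ i : ℤ, g < i → x i = false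

/-- The first one of `x` is at `g`. -/
def IsFirst (x : Pt) (g : ℤ) : Prop := x g = true ∧ ∀ i : ℤ, i < g → x i = false

/-- `θ` preserves the position of the last one. -/
def PresLast (θ : Pt → Pt) : Prop := ∀ (x : Pt) (g : ℤ), IsLast (θ x) g ↔ IsLast x g

/-- `θ` preserves the position of the first one. -/
def PresFirst (θ : Pt → Pt) : Prop := ∀ (x : Pt) (g : ℤ), IsFirst (θ x) g ↔ IsFirst x g

/-- The address: the letters `x (g-1), x (g-2), ..., x (g-n)`. -/
def adr (x : Pt) (g : ℤ) (n : ℕ) : List Bool :=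
  (List.range n).map (fun k : ℕ => x (g - 1 - (k : ℤ)))

/-- The last one of `x` is at `g` and the address of `x` begins with the word `w`. -/
def LA (x : Pt) (g : ℤ) (w : List Bool) : Prop := IsLast x g ∧ adr x g w.length = w

/-- The letter at place `k` of the core of the address `w`: the word `w` reversed, then a one,
then zeros. -/
def coreW (w : List Bool) (k : ℕ) : Bool := (w.reverse ++ [true]).getD k false

/-- number of leading `false` of a list -/
def lz : List Bool → ℕ
  | [] => 0
  | true :: _ => 0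
  | false :: l => lz l + 1

/-- The type of an address: the number of zeros at the end of the address `p`
(if `p` consists of zeros only: its length). It is the place of the first one in the core of `p`. -/
def ty (p : List Bool) : ℕ := lz p.reverse

/-- The word read on `[c, c+h)` is `w`. -/
def Reads (x : Pt) (c : ℤ) (h : ℕ) (w : ℕ → Bool) : Prop :=
  ∀ k : ℕ, k < h → x (c + (k : ℤ)) = w k

/-- Data for a swap of two words `A`, `B` of length `h` at the sites given by `S`. -/
structure SwapData (h R : ℕ) (A B : ℕ → Bool) (S : Pt → ℤ → Prop) : Prop where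
  loc : ∀ (x y : Pt) (c : ℤ), (∀ j : ℤ, c - R ≤ j → j ≤ c + R → x j = y j) → S x c → S y c
  cov : ∀ (x : Pt) (c k : ℤ), S (tr k x) c ↔ S x (c + k)
  core : ∀ (x : Pt) (c : ℤ), S x c → Reads x c h A ∨ Reads x c h B
  disj : ∀ (x : Pt) (c c' : ℤ), S x c → S x c' → c < c' → c + h ≤ c'
  mono : ∀ x y : Pt, (∀ c : ℤ, S x c → Reads y c h A ∨ Reads y c h B) →
    (∀ i : ℤ, x i ≠ y i → ∃ c : ℤ, S x c ∧ c ≤ i ∧ i < c + h) → ∀ c : ℤ, S x c → S y c

/-- What the elementary move exchanging the addresses `a` and `b` does near the last one;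
`d` more letters to the left are not changed. -/
structure MoveSpec (a b : List Bool) (d : ℕ) (ψ : Pt → Pt) : Prop where
  ab : ∀ (x : Pt) (g : ℤ) (t : List Bool), t.length = d → LA x g (a ++ t) →
    LA (ψ x) (g - a.length + b.length) (b ++ t)
  ba : ∀ (x : Pt) (g : ℤ) (t : List Bool), t.length = d → LA x g (b ++ t) →
    LA (ψ x) (g - b.length + a.length) (a ++ t)
  other : ∀ (x : Pt) (g : ℤ), IsLast x g → ¬ LA x g a → ¬ LA x g b →
    IsLast (ψ x) g ∧ adr (ψ x) g d = adr x g d

/-- `I` is closed under prefixes. -/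
def PrefClosed (I : Finset (List Bool)) : Prop := ∀ p q : List Bool, p ++ q ∈ I → p ∈ I

/-- All words of length `< J`. -/
def Std (J : ℕ) : Finset (List Bool) :=
  (Finset.range J).biUnion
    (fun n => Finset.image (fun v : Fin n → Bool => List.ofFn v) Finset.univ)

/-- The set `I` after the exchange of the cones at `a` (a leaf) and `b` (an internal node). -/
def exch (I : Finset (List Bool)) (a b : List Bool) : Finset (List Bool) :=
  I.filter (fun p => ¬ b <+: p) ∪
    (I.filter (fun p => b <+: p)).image (fun p => a ++ p.drop b.length)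

/-- The code of an automorphism: the internal nodes of the tree of the addresses of `θ z`;
the leaf above the address of `θ z` has length `g' - g + J`, where `g`, `g'` are the positions of
the last one of `z` and of `θ z`. -/
def Code (θ : Pt → Pt) (I : Finset (List Bool)) (J : ℕ) : Prop :=
  ∀ (z : Pt) (g g' : ℤ), IsLast z g → IsLast (θ z) g' →
    ∀ n : ℕ, adr (θ z) g' n ∈ I ↔ (n : ℤ) < g' - g + J

/-- The points `z` with a given right tail `ρ` from `c + r` on such that `θ z` has the left tail
`lam` before `c`. -/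
def CSet (θ : Pt → Pt) (r : ℕ) (ρ lam : Pt) (c : ℤ) : Set Pt :=
  {z | (∀ i : ℤ, c + r ≤ i → z i = ρ i) ∧ ∀ i : ℤ, i < c → θ z i = lam i}

/-- The points that vanish from `n` on whose image vanishes before `c`. -/
def BSet (θ : Pt → Pt) (n c : ℤ) : Set Pt := {z | ZR z n ∧ ZL (θ z) c}

/-- `v 0, ..., v (ℓ-1)` is a cell word: it begins and ends with a one and contains no `0^L`. -/
def CW (L ℓ : ℕ) (v : ℕ → Bool) : Prop :=
  0 < ℓ ∧ v 0 = true ∧ v (ℓ - 1) = true ∧
    ∀ j : ℕ, j + L ≤ ℓ → ∃ i : ℕ, j ≤ i ∧ i < j + L ∧ v i = true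

/-- `[c, c+ℓ)` is a cell of `x`: a cell word between two blocks `0^L`. -/
def CellAt (L : ℕ) (x : Pt) (c : ℤ) (ℓ : ℕ) : Prop :=
  ZOn x (c - L) c ∧ ZOn x (c + ℓ) (c + ℓ + L) ∧ CW L ℓ (fun k : ℕ => x (c + k))

/-- `θ` preserves the occurrences of `0^L` exactly and acts on every cell by a rule that depends
only on the word in the cell. -/
structure Good (L : ℕ) (θ : Pt → Pt) : Prop where
  zpres : ∀ (x : Pt) (i : ℤ), ZOn (θ x) i (i + L) ↔ ZOn x i (i + L)
  cell : ∀ (x y : Pt) (c c' : ℤ) (ℓ : ℕ), CellAt L x c ℓ → CellAt L y c' ℓ →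
    (∀ k : ℕ, k < ℓ → x (c + k) = y (c' + k)) → ∀ k : ℕ, k < ℓ → θ x (c + k) = θ y (c' + k)

end Pool.MP_5a0708_an
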