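import Pool.Agent.Lib.MP_5a0708_an.Spec

set_option autoImplicit false

namespace Pool.MP_5a0708_an

namespace ExchComb

/-- the exchange map -/
def em (a b p : List Bool) : List Bool := if b <+: p then a ++ p.drop b.length else p

theorem em_of (a b s : List Bool) : em a b (b ++ s) = a ++ s := by
  unfold em
  rw [if_pos (List.prefix_append b s)]
  simp

theorem em_not {a b p : List Bool} (h : ¬ b <+: p) : em a b p = p := by
  unfold em
  rw [if_neg h]

theorem card_exch (τ : List Bool → ℕ)
    (hτ : ∀ a b s : List Bool, τ a = τ b → τ (a ++ s) = τ (b ++ s))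
    (I : Finset (List Bool)) (hI : PrefClosed I) (a b : List Bool) (ha : a ∉ I)
    (hab : τ a = τ b) (k : ℕ) :
    ((exch I a b).filter (fun p => τ p = k)).card = (I.filter (fun p => τ p = k)).card := by
  symm
  have hτe : ∀ p, τ (em a b p) = τ p := by
    intro p
    by_cases h : b <+: p
    · obtain ⟨s, rfl⟩ := h
      rw [em_of]
      exact hτ a b s hab
    · rw [em_not h]
  have haI : ∀ s, a ++ s ∉ I := fun s hs => ha (hI a s hs)
  apply Finset.card_bij (fun p _ => em a b p)
  · intro p hp
    rw [Finset.mem_filter] at hp ⊢
    refine ⟨?_, by rw [hτe]; exact hp.2⟩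
    rw [mem_exch]
    by_cases h : b <+: p
    · obtain ⟨s, rfl⟩ := h
      exact Or.inr ⟨s, hp.1, em_of a b s⟩
    · rw [em_not h]
      exact Or.inl ⟨hp.1, h⟩
  · intro p hp q hq hpq
    rw [Finset.mem_filter] at hp hq
    by_cases h : b <+: p <;> by_cases h' : b <+: q
    · obtain ⟨s, rfl⟩ := h
      obtain ⟨t, rfl⟩ := h'
      rw [em_of, em_of] at hpq
      rw [List.append_cancel_left hpq]
    · obtain ⟨s, rfl⟩ := h
      rw [em_of, em_not h'] at hpq
      exact absurd (hpq ▸ hq.1) (haI s)
    · obtain ⟨t, rfl⟩ := h'
      rw [em_of, em_not h] at hpq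
      exact absurd (hpq ▸ hp.1) (haI t)
    · rw [em_not h, em_not h'] at hpq
      exact hpq
  · intro p hp
    rw [Finset.mem_filter, mem_exch] at hp
    obtain ⟨hp, hk⟩ := hp
    rcases hp with ⟨h1, h2⟩ | ⟨s, h1, rfl⟩
    · exact ⟨p, Finset.mem_filter.2 ⟨h1, hk⟩, em_not h2⟩
    · refine ⟨b ++ s, Finset.mem_filter.2 ⟨h1, ?_⟩, em_of a b s⟩
      rw [← hk]
      exact hτ b a s hab.symm

theorem prefClosed_exch (I : Finset (List Bool)) (hI : PrefClosed I) (a b : List Bool)
    (hpre : ∀ p, p <+: a → p ≠ a → p ∈ I) (hba : ¬ b <+: a) : PrefClosed (exch I a b) := by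
  intro p q h
  rw [mem_exch] at h ⊢
  rcases h with ⟨h1, h2⟩ | ⟨s, h1, h2⟩
  · refine Or.inl ⟨hI p q h1, fun h3 => h2 ?_⟩
    exact h3.trans (List.prefix_append p q)
  · have hp : p <+: a ++ s := ⟨q, h2⟩
    have ha : a <+: a ++ s := List.prefix_append a s
    rcases List.prefix_or_prefix_of_prefix hp ha with h3 | h3
    · by_cases hpa : p = a
      · subst hpa
        refine Or.inr ⟨[], ?_, by simp⟩
        rw [List.append_nil]
        exact hI b s h1
      · exact Or.inl ⟨hpre p h3 hpa, fun h4 => hba (h4.trans h3)⟩
    · obtain ⟨t, rfl⟩ := h3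
      refine Or.inr ⟨t, ?_, rfl⟩
      rw [List.append_assoc] at h2
      have h4 := List.append_cancel_left h2
      rw [← h4, ← List.append_assoc] at h1
      exact hI _ _ h1

end ExchComb

open ExchComb in
theorem exchComb : ExchComb := by
  intro τ hτ J Q hstep
  have main : ∀ (n : ℕ) (I : Finset (List Bool)), (Std J \ I).card = n → PrefClosed I → Q I →
      (∀ k : ℕ, (I.filter (fun p => τ p = k)).card = ((Std J).filter (fun p => τ p = k)).card) →
      Q (Std J) := by
    intro n
    induction n using Nat.strong_induction_on with
    | _ n ih =>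
      intro I hn hI hQ hcount
      by_cases hsub : Std J ⊆ I
      · have heq : I = Std J := by
          apply Finset.Subset.antisymm _ hsub
          intro p hp
          have h1 : (Std J).filter (fun q => τ q = τ p) ⊆ I.filter (fun q => τ q = τ p) :=
            Finset.filter_subset_filter _ hsub
          have h2 := Finset.eq_of_subset_of_card_le h1 (hcount (τ p)).le
          have h3 : p ∈ I.filter (fun q => τ q = τ p) := Finset.mem_filter.2 ⟨hp, rfl⟩
          rw [← h2] at h3
          exact (Finset.mem_filter.1 h3).1
        rw [← heq]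
        exact hQ
      · have hne : (Std J \ I).Nonempty := by
          rw [Finset.nonempty_iff_ne_empty]
          intro h
          exact hsub (Finset.sdiff_eq_empty_iff_subset.1 h)
        obtain ⟨a, ha, hmin⟩ := Finset.exists_min_image (Std J \ I) List.length hne
        rw [Finset.mem_sdiff] at ha
        obtain ⟨haS, haI⟩ := ha
        have haJ : a.length < J := mem_Std.1 haS
        have hpre : ∀ p, p <+: a → p ≠ a → p ∈ I := by
          intro p hp hpa
          by_contra hpI
          have hle := hp.length_le
          have hlt : p.length < a.length := by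
            rcases Nat.lt_or_ge p.length a.length with h | h
            · exact h
            · exact absurd (hp.eq_of_length (le_antisymm hle h)) hpa
          have := hmin p (Finset.mem_sdiff.2 ⟨mem_Std.2 (by omega), hpI⟩)
          omega
        have hexb : ∃ b, b ∈ I ∧ τ b = τ a ∧ b ∉ Std J := by
          by_contra hcon
          push Not at hcon
          have h1 : I.filter (fun q => τ q = τ a) ⊆ (Std J).filter (fun q => τ q = τ a) := by
            intro b hb
            rw [Finset.mem_filter] at hb ⊢
            exact ⟨hcon b hb.1 hb.2, hb.2⟩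
          have h2 := Finset.eq_of_subset_of_card_le h1 (hcount (τ a)).ge
          have h3 : a ∈ (Std J).filter (fun q => τ q = τ a) := Finset.mem_filter.2 ⟨haS, rfl⟩
          rw [← h2] at h3
          exact haI (Finset.mem_filter.1 h3).1
        obtain ⟨b, hbI, hτb, hbS⟩ := hexb
        have hbJ : J ≤ b.length := by
          rw [mem_Std] at hbS
          omega
        have hab : ¬ a <+: b := fun h => haI (hI.prefix_mem h hbI)
        have hba : ¬ b <+: a := by
          intro h
          have := h.length_le
          omega
        have hQ' := hstep I hI hQ a b haI hpre hbI hab hba hτb.symm haJ hbJ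
        have hI' := prefClosed_exch I hI a b hpre hba
        have hcount' : ∀ k : ℕ, ((exch I a b).filter (fun p => τ p = k)).card =
            ((Std J).filter (fun p => τ p = k)).card := by
          intro k
          rw [card_exch τ hτ I hI a b haI hτb.symm k]
          exact hcount k
        have hlt : (Std J \ exch I a b).card < n := by
          rw [← hn]
          apply Finset.card_lt_card
          rw [Finset.ssubset_iff_of_subset]
          · refine ⟨a, Finset.mem_sdiff.2 ⟨haS, haI⟩, ?_⟩
            rw [Finset.mem_sdiff]
            rintro ⟨-, h⟩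
            apply h
            rw [mem_exch]
            exact Or.inr ⟨[], by simpa using hbI, by simp⟩
          · intro p hp
            rw [Finset.mem_sdiff] at hp ⊢
            refine ⟨hp.1, fun hpI => hp.2 ?_⟩
            rw [mem_exch]
            refine Or.inl ⟨hpI, fun h => ?_⟩
            have h1 := h.length_le
            have h2 := mem_Std.1 hp.1
            omega
        exact ih _ hlt (exch I a b) rfl hI' hQ' hcount'
  intro I hI hQ hcount
  exact main _ I rfl hI hQ hcount

end Pool.MP_5a0708_an
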