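import Pool.Agent.Lib.MP_5a0708_an.Spec

/-!
MP_5a0708_an: module LeafComb (helper3), the number of leaves of a finite binary tree.
-/

set_option autoImplicit false

namespace Pool.MP_5a0708_an

namespace LeafComb

/-- the nodes and the leaves -/
def nodes (I : Finset (List Bool)) : Finset (List Bool) :=
  insert [] ((I ×ˢ (Finset.univ : Finset Bool)).image (fun z => z.1 ++ [z.2]))

lemma card_nodes (I : Finset (List Bool)) : (nodes I).card = 2 * I.card + 1 := by
  unfold nodes
  rw [Finset.card_insert_of_notMem, Finset.card_image_of_injective, Finset.card_product,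
    Finset.card_univ, Fintype.card_bool]
  · ring
  · rintro ⟨p, b⟩ ⟨q, c⟩ h
    have h' : p ++ [b] = q ++ [c] := h
    have h1 := List.append_inj' h' rfl
    rw [h1.1]
    have h2 : b = c := by simpa using h1.2
    rw [h2]
  · intro h
    rw [Finset.mem_image] at h
    obtain ⟨z, _, hz⟩ := h
    simp at hz

lemma mem_nodes {I : Finset (List Bool)} {p : List Bool} :
    p ∈ nodes I ↔ p = [] ∨ ∃ q ∈ I, ∃ b, p = q ++ [b] := by
  unfold nodes
  rw [Finset.mem_insert, Finset.mem_image]
  constructor
  · rintro (h | ⟨z, hz, rfl⟩)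
    · exact Or.inl h
    · exact Or.inr ⟨z.1, (Finset.mem_product.1 hz).1, z.2, rfl⟩
  · rintro (h | ⟨q, hq, b, rfl⟩)
    · exact Or.inl h
    · exact Or.inr ⟨(q, b), Finset.mem_product.2 ⟨hq, Finset.mem_univ _⟩, rfl⟩

end LeafComb

open LeafComb in
/-- Module LeafComb. -/
theorem leafComb : LeafComb := by
  intro I hI
  have hsub : I ⊆ nodes I := by
    intro p hp
    rw [mem_nodes]
    rcases List.eq_nil_or_concat' p with h | ⟨q, b, h⟩
    · exact Or.inl h
    · refine Or.inr ⟨q, hI q [b] ?_, b, ?_⟩
      · rw [← h]; exact hp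
      · exact h
  have hset : {p : List Bool | p ∉ I ∧ ∀ q, q <+: p → q ≠ p → q ∈ I} =
      ((nodes I \ I : Finset (List Bool)) : Set (List Bool)) := by
    ext p
    rw [Finset.mem_coe, Finset.mem_sdiff, mem_nodes]
    constructor
    · rintro ⟨h1, h2⟩
      refine ⟨?_, h1⟩
      rcases List.eq_nil_or_concat' p with h | ⟨q, b, h⟩
      · exact Or.inl h
      · refine Or.inr ⟨q, h2 q ⟨[b], h.symm⟩ ?_, b, h⟩
        intro hq
        rw [hq] at h
        simp at h
    · rintro ⟨h1, h2⟩
      refine ⟨h2, fun s hs hne => ?_⟩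
      rcases h1 with h | ⟨q, hq, b, rfl⟩
      · rw [h] at hs hne
        exact absurd (List.prefix_nil.1 hs) hne
      · have h3 : s <+: q := by
          rcases List.prefix_concat_iff.1 hs with h | h
          · exact absurd h hne
          · exact h
        obtain ⟨t, ht⟩ := h3
        exact hI s t (by rw [ht]; exact hq)
  rw [hset, Set.ncard_coe_finset, Finset.card_sdiff_of_subset hsub, card_nodes]
  omega

end Pool.MP_5a0708_an
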