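import Pool.Agent.Lib.MP_5a0708_an.Spec

/-!
# MP_5a0708_an : LeafCount
-/

set_option autoImplicit false

namespace Pool.MP_5a0708_an

namespace LeafCount

/-- The point with the last one at `|p| - J`, the address `p` and zero before `-J`. -/
def wp (J : ℕ) (p : List Bool) : Pt :=
  fun i => if i < -(J : ℤ) then false else coreW p (i + J).toNat

theorem wp_zl (J : ℕ) (p : List Bool) : ZL (wp J p) (-(J : ℤ)) := by
  intro i hi
  rw [wp, if_pos hi]

theorem wp_reads (J : ℕ) (p : List Bool) (h : ℕ) : Reads (wp J p) (-(J : ℤ)) h (coreW p) := by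
  intro k _
  have h1 : ¬ (-(J : ℤ) + k < -(J : ℤ)) := by omega
  have h2 : (-(J : ℤ) + k + J).toNat = k := by omega
  rw [wp, if_neg h1, h2]

theorem wp_la (J : ℕ) (p : List Bool) : LA (wp J p) (-(J : ℤ) + p.length) p := by
  rw [la_iff_reads (h := p.length + 1) (Nat.lt_succ_self _)]
  refine ⟨wp_reads J p _, ?_⟩
  intro i hi
  have h1 : ¬ (i < -(J : ℤ)) := by omega
  rw [wp, if_neg h1]
  exact coreW_gt p (by omega)

theorem eq_wp {J : ℕ} {p : List Bool} {x : Pt} (h : LA x (-(J : ℤ) + p.length) p)
    (h2 : ZL x (-(J : ℤ))) : x = wp J p := by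
  funext i
  by_cases hi : i < -(J : ℤ)
  · rw [h2 i hi, wp_zl J p i hi]
  · obtain ⟨h3, h4⟩ := (la_iff_reads (h := p.length + 1) (Nat.lt_succ_self _)).mp h
    obtain ⟨h5, h6⟩ := (la_iff_reads (h := p.length + 1) (Nat.lt_succ_self _)).mp (wp_la J p)
    by_cases hi2 : i < -(J : ℤ) + (p.length + 1 : ℕ)
    · have e : i = -(J : ℤ) + ((i + J).toNat : ℕ) := by omega
      rw [e, h3 _ (by omega), h5 _ (by omega)]
    · rw [h4 i (by omega), h6 i (by omega)]

theorem wp_inj {J : ℕ} {p q : List Bool} (h : wp J p = wp J q) : p = q := by
  have h1 := wp_la J p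
  have h2 := wp_la J q
  rw [← h] at h2
  have h3 := h1.1.unique h2.1
  have h4 : p.length = q.length := by omega
  have h5 := h1.2
  have h6 := h2.2
  rw [← h3, ← h4] at h6
  rw [← h5, h6]

end LeafCount

open LeafCount in
/-- The number of leaves. -/
theorem leafCount (hL : LeafComb) : LeafCount := by
  intro r J θ I hθ h0 hrJ hI hC
  rw [← hL I hI]
  symm
  have himg : (fun p => θ.symm (wp J p)) '' {p : List Bool | p ∉ I ∧ ∀ q, q <+: p → q ≠ p → q ∈ I}
      = {z : Pt | IsLast z 0 ∧ ZL (θ z) (-(J : ℤ))} := by
    ext z
    constructor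
    · rintro ⟨p, ⟨hp1, hp2⟩, rfl⟩
      have hθz : θ (θ.symm (wp J p)) = wp J p := Equiv.apply_symm_apply _ _
      refine ⟨?_, ?_⟩
      · have hla := wp_la J p
        obtain ⟨g, hg, hg1, hg2⟩ := hθ.symm.isLast_image (symm_zpt h0) hla.1
        have hcode := hC (θ.symm (wp J p)) g (-(J : ℤ) + p.length) hg (by rw [hθz]; exact hla.1)
        rw [hθz] at hcode
        have h1 : 0 ≤ g := by
          have h2 := hcode p.length
          rw [hla.2] at h2
          by_contra hneg
          exact hp1 (h2.mpr (by omega))
        have h3 : g ≤ 0 := by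
          by_cases hpe : p = []
          · subst hpe
            simp only [List.length_nil, Nat.cast_zero, add_zero] at hg2
            omega
          · have hlen : 0 < p.length := List.length_pos_iff.mpr hpe
            have h2 := hcode (p.length - 1)
            have h4 : adr (wp J p) (-(J : ℤ) + p.length) (p.length - 1) = p.take (p.length - 1) := by
              rw [← adr_take _ _ (p.length - 1) p.length (by omega), hla.2]
            rw [h4] at h2
            have h5 : p.take (p.length - 1) ∈ I := by
              apply hp2 _ (List.take_prefix _ _)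
              intro h6
              have h7 := congrArg List.length h6
              rw [List.length_take] at h7
              omega
            have h6 := h2.mp h5
            omega
        have h4 : g = 0 := le_antisymm h3 h1
        rw [← h4]
        exact hg
      · change ZL (θ (θ.symm (wp J p))) _
        rw [hθz]
        exact wp_zl J p
    · rintro ⟨hz1, hz2⟩
      obtain ⟨g', hg', hg1, hg2⟩ := hθ.isLast_image h0 hz1
      have hcode := hC z 0 g' hz1 hg'
      set n := (g' + J).toNat with hn
      have hnn : (n : ℤ) = g' + J := by omega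
      have hlen : (adr (θ z) g' n).length = n := length_adr _ _ _
      refine ⟨adr (θ z) g' n, ⟨?_, ?_⟩, ?_⟩
      · intro h1
        have := (hcode n).mp h1
        omega
      · intro q hq hq2
        have h1 : q.length ≤ n := by
          have := hq.length_le
          rwa [hlen] at this
        have h2 : q = adr (θ z) g' q.length := by
          rw [← adr_take _ _ q.length n h1]
          exact List.prefix_iff_eq_take.mp hq
        rw [h2]
        apply (hcode q.length).mpr
        have h3 : q.length ≠ n := by
          intro h4
          apply hq2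
          rw [h2, h4]
        omega
      · change θ.symm (wp J (adr (θ z) g' n)) = z
        rw [Equiv.symm_apply_eq]
        symm
        apply eq_wp _ hz2
        have h1 : -(J : ℤ) + (adr (θ z) g' n).length = g' := by
          rw [hlen]
          omega
        rw [h1]
        exact ⟨hg', by rw [hlen]⟩
  rw [← himg]
  symm
  apply Set.ncard_image_of_injOn
  intro p _ q _ hpq
  exact wp_inj (θ.symm.injective hpq)

end Pool.MP_5a0708_an
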