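import Pool.Agent.Lib.MP_5a0708_an.Spec

/-!
# The measure corollary
-/

set_option autoImplicit false

namespace Pool.MP_5a0708_an

namespace MeasureCor

open MeasureTheory Filter Topology

theorem meas_zon (a b : ℤ) : MeasurableSet {x : Pt | ZOn x a b} := by
  have h : {x : Pt | ZOn x a b} = ⋂ i : ℤ, {x : Pt | a ≤ i → i < b → x i = false} := by
    ext x
    simp only [Set.mem_ofPred_eq, Set.mem_iInter, ZOn]
  rw [h]
  refine MeasurableSet.iInter (fun i => ?_)
  by_cases h1 : a ≤ i ∧ i < b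
  · have h2 : {x : Pt | a ≤ i → i < b → x i = false} = (fun x : Pt => x i) ⁻¹' {false} := by
      ext x
      simp only [Set.mem_ofPred_eq, Set.mem_preimage, Set.mem_singleton_iff]
      exact ⟨fun h => h h1.1 h1.2, fun h _ _ => h⟩
    rw [h2]
    exact measurable_pi_apply i (measurableSet_singleton _)
  · have h2 : {x : Pt | a ≤ i → i < b → x i = false} = Set.univ := by
      ext x
      simp only [Set.mem_ofPred_eq, Set.mem_univ, iff_true]
      exact fun h3 h4 => absurd ⟨h3, h4⟩ h1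
    rw [h2]
    exact MeasurableSet.univ

theorem meas_ex (Q : ℤ → Prop) (L : ℕ) :
    MeasurableSet {x : Pt | ∃ p : ℤ, Q p ∧ ZOn x p (p + L)} := by
  have h : {x : Pt | ∃ p : ℤ, Q p ∧ ZOn x p (p + L)} =
      ⋃ p : ℤ, {x : Pt | Q p ∧ ZOn x p (p + L)} := by
    ext x
    simp only [Set.mem_ofPred_eq, Set.mem_iUnion]
  rw [h]
  refine MeasurableSet.iUnion (fun p => ?_)
  by_cases hQ : Q p
  · simp only [hQ, true_and]
    exact meas_zon _ _
  · simp only [hQ, false_and]
    exact MeasurableSet.const False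

theorem zon_shift (x : Pt) (a b : ℤ) :
    ZOn (fun n : ℤ => x (n + 1)) a b ↔ ZOn x (a + 1) (b + 1) := by
  constructor
  · intro h i h1 h2
    have := h (i - 1) (by omega) (by omega)
    simpa using this
  · intro h i h1 h2
    exact h (i + 1) (by omega) (by omega)

variable {μ : Measure Pt}

/-- A family of sets permuted by a measure preserving map, increasing to a set of full measure along
a sequence, consists of sets of full measure. -/
theorem full (hμ : IsProbabilityMeasure μ) {T : Pt → Pt} (hT : MeasurePreserving T μ μ)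
    (F : ℤ → Set Pt) (hF : ∀ k, MeasurableSet (F k)) (hTF : ∀ k, T ⁻¹' F k = F (k + 1))
    (κ : ℕ → ℤ) (hκ : Monotone (fun n => F (κ n))) (hae : ∀ᵐ x ∂μ, ∃ n, x ∈ F (κ n)) :
    μ (F 0) = 1 := by
  have h1 : ∀ k, μ (F (k + 1)) = μ (F k) := by
    intro k
    rw [← hTF k]
    exact hT.measure_preimage (hF k).nullMeasurableSet
  have h2 : ∀ k, μ (F k) = μ (F 0) := by
    intro k
    induction k using Int.induction_on with
    | zero => rfl
    | succ i ih => rw [h1, ih]
    | pred i ih =>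
      have := h1 (-(i : ℤ) - 1)
      rw [sub_add_cancel] at this
      rw [← this, ih]
  have h3 := tendsto_measure_iUnion_atTop (μ := μ) hκ
  have h4 : (μ ∘ fun n => F (κ n)) = fun _ => μ (F 0) := by
    funext n
    exact h2 (κ n)
  rw [h4] at h3
  have h5 := tendsto_nhds_unique h3 tendsto_const_nhds
  have h6 : μ (⋃ n, F (κ n)) = 1 := by
    have h7 : (⋃ n, F (κ n)) =ᵐ[μ] Set.univ := by
      rw [eventuallyEq_univ]
      filter_upwards [hae] with x hx
      exact Set.mem_iUnion.mpr hx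
    rw [measure_congr h7]
    exact measure_univ
  rw [← h5, h6]

/-- Continuity from below. -/
theorem small (hμ : IsProbabilityMeasure μ) (E : ℕ → Set Pt) (hE : ∀ n, MeasurableSet (E n))
    (hmono : Monotone E) (h1 : μ (⋃ n, E n) = 1) {ε : ENNReal} (hε : 0 < ε) :
    ∀ᶠ n in atTop, μ (E n)ᶜ < ε := by
  have h2 := tendsto_measure_iInter_atTop (μ := μ) (s := fun n => (E n)ᶜ)
    (fun n => (hE n).compl.nullMeasurableSet)
    (fun a b hab => Set.compl_subset_compl.mpr (hmono hab)) ⟨0, measure_ne_top _ _⟩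
  have h3 : μ (⋂ n, (E n)ᶜ) = 0 := by
    rw [← Set.compl_iUnion, prob_compl_eq_zero_iff (MeasurableSet.iUnion hE)]
    exact h1
  rw [h3] at h2
  exact h2.eventually (gt_mem_nhds hε)

end MeasureCor

open MeasureCor MeasureTheory Filter in
theorem measureCor : MeasureCor := by
  intro φ L P hP μ hμ hT hae ε hε
  -- right
  have hR : μ {x : Pt | ∃ p : ℤ, (0 : ℤ) ≤ p ∧ ZOn x p (p + L)} = 1 := by
    refine full hμ hT (fun k => {x : Pt | ∃ p : ℤ, k ≤ p ∧ ZOn x p (p + L)})
      (fun k => meas_ex _ L) ?_ (fun n => -(n : ℤ)) ?_ ?_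
    · intro k
      ext x
      simp only [Set.mem_preimage, Set.mem_ofPred_eq, zon_shift]
      constructor
      · rintro ⟨p, h1, h2⟩
        exact ⟨p + 1, by omega, by rwa [add_right_comm] at h2⟩
      · rintro ⟨p, h1, h2⟩
        refine ⟨p - 1, by omega, ?_⟩
        have e1 : p - 1 + 1 = p := by omega
        have e2 : p - 1 + (L : ℤ) + 1 = p + L := by omega
        rw [e1, e2]
        exact h2
    · intro a b hab x hx
      obtain ⟨p, h1, h2⟩ := hx
      have hab' : (a : ℤ) ≤ b := by exact_mod_cast hab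
      have h1' : -(a : ℤ) ≤ p := h1
      exact ⟨p, show -(b : ℤ) ≤ p by omega, h2⟩
    · filter_upwards [hae] with x hx
      obtain ⟨p, hp⟩ := hx
      exact ⟨p.natAbs, p, by omega, hp⟩
  have hL : μ {x : Pt | ∃ p : ℤ, p + L ≤ (0 : ℤ) ∧ ZOn x p (p + L)} = 1 := by
    refine full hμ hT (fun k => {x : Pt | ∃ p : ℤ, p + L ≤ k ∧ ZOn x p (p + L)})
      (fun k => meas_ex _ L) ?_ (fun n => (n : ℤ)) ?_ ?_
    · intro k
      ext x
      simp only [Set.mem_preimage, Set.mem_ofPred_eq, zon_shift]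
      constructor
      · rintro ⟨p, h1, h2⟩
        exact ⟨p + 1, by omega, by rwa [add_right_comm] at h2⟩
      · rintro ⟨p, h1, h2⟩
        refine ⟨p - 1, by omega, ?_⟩
        have e1 : p - 1 + 1 = p := by omega
        have e2 : p - 1 + (L : ℤ) + 1 = p + L := by omega
        rw [e1, e2]
        exact h2
    · intro a b hab x hx
      obtain ⟨p, h1, h2⟩ := hx
      have hab' : (a : ℤ) ≤ b := by exact_mod_cast hab
      have h1' : p + (L : ℤ) ≤ (a : ℤ) := h1
      exact ⟨p, show p + (L : ℤ) ≤ (b : ℤ) by omega, h2⟩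
    · filter_upwards [hae] with x hx
      obtain ⟨p, hp⟩ := hx
      exact ⟨(p + L).natAbs, p, by omega, hp⟩
  have hε2 : 0 < ε / 2 := ENNReal.half_pos hε.ne'
  have sR := small hμ (fun n : ℕ => {x : Pt | ∃ q : ℤ, ((0 : ℤ) ≤ q ∧ q + L ≤ n) ∧
    ZOn x q (q + L)}) (fun n => meas_ex _ L)
    (by
      intro a b hab x hx
      obtain ⟨p, ⟨h1, h2⟩, h3⟩ := hx
      have hab' : (a : ℤ) ≤ b := by exact_mod_cast hab
      exact ⟨p, ⟨h1, by omega⟩, h3⟩)
    (by
      rw [← hR]
      congr 1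
      ext x
      simp only [Set.mem_iUnion, Set.mem_ofPred_eq]
      constructor
      · rintro ⟨n, p, ⟨h1, -⟩, h3⟩
        exact ⟨p, h1, h3⟩
      · rintro ⟨p, h1, h3⟩
        exact ⟨(p + L).natAbs, p, ⟨h1, by omega⟩, h3⟩) hε2
  have sL := small hμ (fun n : ℕ => {x : Pt | ∃ q : ℤ, (-(n : ℤ) ≤ q ∧ q + L ≤ 0) ∧
    ZOn x q (q + L)}) (fun n => meas_ex _ L)
    (by
      intro a b hab x hx
      obtain ⟨p, ⟨h1, h2⟩, h3⟩ := hx
      have hab' : (a : ℤ) ≤ b := by exact_mod_cast hab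
      exact ⟨p, ⟨by omega, h2⟩, h3⟩)
    (by
      rw [← hL]
      congr 1
      ext x
      simp only [Set.mem_iUnion, Set.mem_ofPred_eq]
      constructor
      · rintro ⟨n, p, ⟨-, h1⟩, h3⟩
        exact ⟨p, h1, h3⟩
      · rintro ⟨p, h1, h3⟩
        exact ⟨p.natAbs, p, ⟨by omega, h1⟩, h3⟩) hε2
  obtain ⟨n, hn1, hn2⟩ := (sR.and sL).exists
  obtain ⟨ψ, hψ, hψφ⟩ := hP n
  refine ⟨ψ, hψ, ?_⟩
  refine lt_of_le_of_lt (measure_mono ?_) (lt_of_le_of_lt (measure_union_le _ _)
    (lt_of_lt_of_eq (ENNReal.add_lt_add hn1 hn2) (ENNReal.add_halves ε)))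
  intro x hx
  by_contra h
  rw [Set.mem_union, not_or, Set.notMem_compl_iff, Set.notMem_compl_iff] at h
  obtain ⟨⟨q, ⟨h1, h2⟩, h3⟩, ⟨p, ⟨h4, h5⟩, h6⟩⟩ := h
  exact hx (hψφ x ⟨p, h4, h5, h6⟩ ⟨q, h1, h2, h3⟩)

end Pool.MP_5a0708_an
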