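import Pool.Agent.Lib.MP_5a0708_an.Spec

/-!
# MP_5a0708_an : the typed move
-/

set_option autoImplicit false

namespace Pool.MP_5a0708_an

namespace MoveT

/-- the address at the new last one -/
lemma key {x y : Pt} {g : ℤ} {w w' t : List Bool} {h d : ℕ} (hw : w.length < h)
    (hw' : w'.length < h) (ht : t.length = d) (hx : LA x g (w ++ t))
    (hread : Reads y (g - w.length) h (coreW w'))
    (hun : ∀ i : ℤ, (g - w.length - d ≤ i ∧ i < g - w.length) ∨ g - w.length + h ≤ i → y i = x i) :
    LA y (g - w.length + w'.length) (w' ++ t) := by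
  have hzr : ZR y (g - w.length + h) := by
    intro i hi
    rw [hun i (Or.inr hi)]
    exact hx.1.2 i (by omega)
  have h1 : LA y (g - w.length + w'.length) w' := (la_iff_reads hw').2 ⟨hread, hzr⟩
  refine ⟨h1.1, ?_⟩
  rw [List.length_append, adr_add, h1.2]
  congr 1
  have e : g - (w.length : ℤ) + w'.length - w'.length = g - w.length := by ring
  rw [e]
  have h2 : adr y (g - w.length) t.length = adr x (g - w.length) t.length := by
    apply adr_congr
    intro i hi1 hi2
    rw [ht] at hi1
    exact hun i (Or.inl ⟨hi1, hi2⟩)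
  rw [h2]
  have h3 := hx.2
  rw [List.length_append, adr_add] at h3
  exact (List.append_inj h3 (by simp)).2

end MoveT

open MoveT in
theorem moveT (hS : Swap) (hD : TData) : MoveT := by
  intro a b d hab hba hty
  set h : ℕ := max a.length b.length + 1 with hh
  have ha : a.length < h := by omega
  have hb : b.length < h := by omega
  obtain ⟨ι, hinv, haut, -, hA, hB, hch⟩ := hS h (2 * h + d) (coreW a) (coreW b)
    (S0 a b h (2 * h + d)) (hD a b h (2 * h + d) ha hb (by omega) hab hba hty)
  have hne : a ≠ b := by
    rintro rfl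
    exact hab (List.prefix_refl _)
  have h0 : ι zpt = zpt := by
    funext i
    by_contra hcon
    obtain ⟨c, hc, -, -⟩ := hch zpt i hcon
    rcases hc with hc | hc
    · have := hc.one ha
      simp [zpt] at this
    · have := hc.one hb
      simp [zpt] at this
  -- the position of the sites
  have hpos : ∀ (x : Pt) (g c : ℤ), IsLast x g → S0 a b h (2 * h + d) x c →
      (∃ w, (w = a ∨ w = b) ∧ c + w.length = g ∧ LA x g w) ∨ c + (2 * h + d : ℕ) ≤ g := by
    intro x g c hx hc
    rcases hc with hc | hc
    · rcases site_last ha hc hx with h1 | h1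
      · exact Or.inl ⟨a, Or.inl rfl, h1⟩
      · exact Or.inr h1.2
    · rcases site_last hb hc hx with h1 | h1
      · exact Or.inl ⟨b, Or.inr rfl, h1⟩
      · exact Or.inr h1.2
  have huniq : ∀ (x : Pt) (g : ℤ) (w w' : List Bool), (w = a ∨ w = b) → (w' = a ∨ w' = b) →
      LA x g w → LA x g w' → w = w' := by
    intro x g w w' hw hw' h1 h2
    have hcomp : w <+: w' ∨ w' <+: w := by
      rcases Nat.le_total w.length w'.length with hl | hl
      · exact Or.inl (la_comparable h1 h2 hl)
      · exact Or.inr (la_comparable h2 h1 hl)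
    rcases hw with rfl | rfl <;> rcases hw' with rfl | rfl
    · rfl
    · rcases hcomp with h3 | h3
      · exact absurd h3 hab
      · exact absurd h3 hba
    · rcases hcomp with h3 | h3
      · exact absurd h3 hba
      · exact absurd h3 hab
    · rfl
  have hun : ∀ (x : Pt) (g : ℤ) (w : List Bool), (w = a ∨ w = b) → LA x g w →
      ∀ i : ℤ, (g - w.length - d ≤ i ∧ i < g - w.length) ∨ g - w.length + h ≤ i →
        ι x i = x i := by
    intro x g w hw hx i hi
    have hwh : w.length < h := by
      rcases hw with rfl | rfl
      · exact ha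
      · exact hb
    by_contra hcon
    obtain ⟨c, hc, hc1, hc2⟩ := hch x i hcon
    rcases hpos x g c hx.1 hc with ⟨w', hw', h1, h2⟩ | h1
    · have := huniq x g w w' hw hw' hx h2
      subst this
      rcases hi with hi | hi <;> omega
    · push_cast at h1
      rcases hi with hi | hi <;> omega
  refine ⟨ι, isInv_mem_G hinv, h0, ⟨?_, ?_, ?_⟩, ?_⟩
  · intro x g t ht hx
    have hx' := la_append hx
    have hs := site_of_la (2 * h + d) ha hx'
    exact key ha hb ht hx (hA x _ (Or.inl hs) hs.1) (hun x g a (Or.inl rfl) hx')
  · intro x g t ht hx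
    have hx' := la_append hx
    have hs := site_of_la (2 * h + d) hb hx'
    exact key hb ha ht hx (hB x _ (Or.inr hs) hs.1) (hun x g b (Or.inr rfl) hx')
  · intro x g hx hxa hxb
    have hu : ∀ i : ℤ, g - d ≤ i → ι x i = x i := by
      intro i hi
      by_contra hcon
      obtain ⟨c, hc, hc1, hc2⟩ := hch x i hcon
      rcases hpos x g c hx hc with ⟨w', hw', h1, h2⟩ | h1
      · rcases hw' with rfl | rfl
        · exact hxa h2
        · exact hxb h2
      · push_cast at h1
        omega
    refine ⟨⟨?_, ?_⟩, ?_⟩
    · rw [hu g (by omega)]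
      exact hx.1
    · intro i hi
      rw [hu i (by omega)]
      exact hx.2 i hi
    · apply adr_congr
      intro i hi _
      exact hu i hi
  · -- first ones
    have hsw : ∀ (x : Pt) (c : ℤ), S0 a b h (2 * h + d) x c → ∃ w w' : List Bool,
        ty w = ty a ∧ ty w' = ty a ∧ w.length < h ∧ w'.length < h ∧ Reads x c h (coreW w) ∧
          Reads (ι x) c h (coreW w') := by
      intro x c hc
      rcases hc with hc | hc
      · exact ⟨a, b, rfl, hty.symm, ha, hb, hc.1, hA x c (Or.inl hc) hc.1⟩
      · exact ⟨b, a, hty.symm, rfl, hb, ha, hc.1, hB x c (Or.inr hc) hc.1⟩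
    have hka : ty a < h := lt_of_le_of_lt (ty_le_length a) ha
    have hP : ∀ (x : Pt) (g : ℤ), IsFirst x g → IsFirst (ι x) g := by
      intro x g hx
      have hone : ∀ (c : ℤ), S0 a b h (2 * h + d) x c → g ≤ c + ty a := by
        intro c hc
        obtain ⟨w, w', hw, -, -, -, hr, -⟩ := hsw x c hc
        by_contra hcon
        have h1 := hr (ty a) hka
        rw [← hw, coreW_ty] at h1
        rw [hw, hx.2 _ (by omega)] at h1
        cases h1
      refine ⟨?_, ?_⟩
      · by_contra hcon
        have hne' : ι x g ≠ x g := by
          rw [hx.1]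
          exact hcon
        obtain ⟨c, hc, hc1, hc2⟩ := hch x g hne'
        obtain ⟨w, w', hw, hw', -, -, hr, hr'⟩ := hsw x c hc
        have h1 := hone c hc
        have e : c + (((g - c).toNat : ℕ) : ℤ) = g := by omega
        have h2 := hr (g - c).toNat (by omega)
        rw [e, hx.1] at h2
        have h3 : ty a ≤ (g - c).toNat := by
          by_contra h4
          rw [coreW_lt_ty w (by rw [hw]; omega)] at h2
          cases h2
        have h5 : (g - c).toNat = ty a := by omega
        have h6 := hr' (g - c).toNat (by omega)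
        rw [e, h5, ← hw', coreW_ty] at h6
        exact hcon h6
      · intro i hi
        by_contra hcon
        have hne' : ι x i ≠ x i := by
          rw [hx.2 i hi]
          exact hcon
        obtain ⟨c, hc, hc1, hc2⟩ := hch x i hne'
        obtain ⟨w, w', hw, hw', -, -, hr, hr'⟩ := hsw x c hc
        have h1 := hone c hc
        have e : c + (((i - c).toNat : ℕ) : ℤ) = i := by omega
        have h2 := hr' (i - c).toNat (by omega)
        rw [e, coreW_lt_ty w' (by rw [hw']; omega)] at h2
        exact hcon h2
    intro x g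
    refine ⟨fun hx => ?_, hP x g⟩
    have := hP (ι x) g hx
    rwa [hinv.2.1] at this

end Pool.MP_5a0708_an
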