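import Pool.Agent.Lib.MP_5a0708_an.Spec

/-!
# MP_5a0708_an : the untyped move (module MoveU, helper45)
-/

set_option autoImplicit false

namespace Pool.MP_5a0708_an.MoveU

/-- what is used of a swap of the cores of `a` and `b` -/
structure Sw (a b : List Bool) (h N : ℕ) (S : Pt → ℤ → Prop) (ι : Pt → Pt) : Prop where
  s0 : ∀ (x : Pt) (c : ℤ), S x c → S0 a b h N x c
  ab : ∀ (x : Pt) (c : ℤ), S x c → Reads x c h (coreW a) → Reads (ι x) c h (coreW b)
  ba : ∀ (x : Pt) (c : ℤ), S x c → Reads x c h (coreW b) → Reads (ι x) c h (coreW a)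
  ch : ∀ (x : Pt) (i : ℤ), ι x i ≠ x i → ∃ c : ℤ, S x c ∧ c ≤ i ∧ i < c + h

variable {a b : List Bool} {h N d : ℕ} {S : Pt → ℤ → Prop} {ι : Pt → Pt}

theorem s0_comm {x : Pt} {c : ℤ} : S0 a b h N x c ↔ S0 b a h N x c := Or.comm

theorem s1_comm {x : Pt} {c : ℤ} : S1 a b h N x c ↔ S1 b a h N x c :=
  and_congr s0_comm Iff.rfl

theorem w_comm {x : Pt} {c : ℤ} : W a b h x c ↔ W b a h x c := and_congr Iff.rfl s0_comm

theorem s2_comm {x : Pt} {c : ℤ} : S2 a b h N x c ↔ S2 b a h N x c := by
  unfold S2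
  rw [w_comm]
  refine and_congr Iff.rfl (and_congr Iff.rfl ?_)
  constructor
  · intro hh c' h1 h2 h3
    exact hh c' h1 h2 (w_comm.1 h3)
  · intro hh c' h1 h2 h3
    exact hh c' h1 h2 (w_comm.1 h3)

theorem Sw.symm (hs : Sw a b h N S ι) : Sw b a h N S ι :=
  ⟨fun x c hx => s0_comm.1 (hs.s0 x c hx), hs.ba, hs.ab, hs.ch⟩

/-- an address determines its site -/
theorem la_inc {x : Pt} {g : ℤ} (hab : ¬ a <+: b) (hba : ¬ b <+: a) (h1 : LA x g a)
    (h2 : LA x g b) : False := by
  rcases le_total a.length b.length with hl | hl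
  · exact hab (la_comparable h1 h2 hl)
  · exact hba (la_comparable h2 h1 hl)

/-- sites of a point with a last one -/
theorem s0_last {x : Pt} {g c : ℤ} (ha : a.length < h) (hb : b.length < h) (hx : IsLast x g)
    (hs : S0 a b h N x c) : (c + a.length = g ∧ LA x g a) ∨ (c + b.length = g ∧ LA x g b) ∨
      c + N ≤ g := by
  rcases hs with hs | hs
  · rcases site_last ha hs hx with h1 | h1
    · exact Or.inl h1
    · exact Or.inr (Or.inr h1.2)
  · rcases site_last hb hs hx with h1 | h1
    · exact Or.inr (Or.inl h1)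
    · exact Or.inr (Or.inr h1.2)

theorem s0_la {x : Pt} {g c : ℤ} (ha : a.length < h) (hb : b.length < h) (hab : ¬ a <+: b)
    (hba : ¬ b <+: a) (hx : LA x g a) (hs : S0 a b h N x c) :
    c = g - a.length ∨ c + N ≤ g := by
  rcases s0_last ha hb hx.1 hs with h1 | h1 | h1
  · left; omega
  · exact (la_inc hab hba hx h1.2).elim
  · exact Or.inr h1

/-- all sites are far: nothing changes near the last one -/
theorem far_eq (hs : Sw a b h N S ι) {x : Pt} {g : ℤ} (hf : ∀ c, S x c → c + N ≤ g) (i : ℤ)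
    (hi : g + h ≤ i + N) : ι x i = x i := by
  by_contra hcon
  obtain ⟨c, hc, h1, h2⟩ := hs.ch x i hcon
  have := hf c hc
  omega

/-- nothing changes outside the core at `g - |a|` -/
theorem near_eq (hs : Sw a b h N S ι) (ha : a.length < h) (hb : b.length < h) (hab : ¬ a <+: b)
    (hba : ¬ b <+: a) {x : Pt} {g : ℤ} (hx : LA x g a) (i : ℤ) (hi : g + h ≤ i + N)
    (ho : i < g - a.length ∨ g - a.length + h ≤ i) : ι x i = x i := by
  by_contra hcon
  obtain ⟨c, hc, h1, h2⟩ := hs.ch x i hcon
  rcases s0_la ha hb hab hba hx (hs.s0 x c hc) with h3 | h3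
  · omega
  · omega

/-- transfer of addresses -/
theorem la_transfer {x y : Pt} {g : ℤ} {w : List Bool} (hx : LA x g w)
    (he : ∀ i : ℤ, g - w.length ≤ i → y i = x i) : LA y g w := by
  refine ⟨⟨?_, ?_⟩, ?_⟩
  · rw [he g (by omega)]
    exact hx.1.1
  · intro i hi
    rw [he i (by omega)]
    exact hx.1.2 i hi
  · rw [adr_congr (x := y) (y := x) (fun i h1 h2 => he i h1)]
    exact hx.2

theorem last_transfer {x y : Pt} {g : ℤ} (hx : IsLast x g) (he : ∀ i : ℤ, g ≤ i → y i = x i) :
    IsLast y g := by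
  refine ⟨?_, ?_⟩
  · rw [he g le_rfl]
    exact hx.1
  · intro i hi
    rw [he i hi.le]
    exact hx.2 i hi

/-- splitting of an address -/
theorem la_split {x : Pt} {g : ℤ} {a t : List Bool} (hx : LA x g (a ++ t)) :
    LA x g a ∧ adr x (g - a.length) t.length = t := by
  refine ⟨la_append hx, ?_⟩
  have h2 := hx.2
  rw [List.length_append, adr_add] at h2
  exact (List.append_inj h2 (by simp)).2

theorem la_join {x : Pt} {g : ℤ} {a t : List Bool} (hx : LA x g a)
    (ht : adr x (g - a.length) t.length = t) : LA x g (a ++ t) := by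
  refine ⟨hx.1, ?_⟩
  rw [List.length_append, adr_add, hx.2, ht]

/-- the move at a site -/
theorem move (hs : Sw a b h N S ι) (hN : 3 * h + d ≤ N) (ha : a.length < h) (hb : b.length < h)
    (hab : ¬ a <+: b) (hba : ¬ b <+: a) {x : Pt} {g : ℤ} {t : List Bool} (ht : t.length = d)
    (hx : LA x g (a ++ t)) (hS : S x (g - a.length)) :
    LA (ι x) (g - a.length + b.length) (b ++ t) := by
  obtain ⟨hxa, hxt⟩ := la_split hx
  have hsite : Site x (g - a.length) h N a := site_of_la N ha hxa
  have hr : Reads (ι x) (g - a.length) h (coreW b) := hs.ab x _ hS hsite.1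
  have hz : ZR (ι x) (g - a.length + h) := by
    intro i hi
    rw [near_eq hs ha hb hab hba hxa i (by omega) (Or.inr hi)]
    exact hxa.1.2 i (by omega)
  refine la_join ((la_iff_reads hb).2 ⟨hr, hz⟩) ?_
  have e : g - (a.length : ℤ) + b.length - b.length = g - a.length := by ring
  rw [e, ← hxt, length_adr]
  refine adr_congr fun i h1 h2 => ?_
  exact near_eq hs ha hb hab hba hxa i (by omega) (Or.inl h2)

/-- no move -/
theorem stay (hs : Sw a b h N S ι) (ha : a.length < h) (hb : b.length < h)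
    (hab : ¬ a <+: b) (hba : ¬ b <+: a) {x : Pt} {g : ℤ} (hx : LA x g a)
    (hS : ¬ S x (g - a.length)) (i : ℤ) (hi : g + h ≤ i + N) : ι x i = x i := by
  refine far_eq hs (g := g) (fun c hc => ?_) i hi
  rcases s0_la ha hb hab hba hx (hs.s0 x c hc) with h1 | h1
  · exact (hS (h1 ▸ hc)).elim
  · exact h1

theorem other_eq (hs : Sw a b h N S ι) (ha : a.length < h) (hb : b.length < h) {x : Pt} {g : ℤ}
    (hx : IsLast x g) (h1 : ¬ LA x g a) (h2 : ¬ LA x g b) (i : ℤ) (hi : g + h ≤ i + N) :
    ι x i = x i := by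
  refine far_eq hs (g := g) (fun c hc => ?_) i hi
  rcases s0_last ha hb hx (hs.s0 x c hc) with h3 | h3 | h3
  · exact (h1 h3.2).elim
  · exact (h2 h3.2).elim
  · exact h3

theorem main_ab {S' : Pt → ℤ → Prop} {ι' : Pt → Pt} (hs : Sw a b h N S ι)
    (hs' : Sw a b h N S' ι') (h1 : ∀ x c, S x c ↔ S1 a b h N x c)
    (h2 : ∀ x c, S' x c ↔ S2 a b h N x c) (hN : N = 4 * h + d) (ha : a.length < h)
    (hb : b.length < h) (hab : ¬ a <+: b) (hba : ¬ b <+: a) (x : Pt) (g : ℤ) (t : List Bool)
    (ht : t.length = d) (hx : LA x g (a ++ t)) :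
    LA (ι' (ι x)) (g - a.length + b.length) (b ++ t) := by
  obtain ⟨hxa, hxt⟩ := la_split hx
  have hsite : Site x (g - a.length) h N a := site_of_la N ha hxa
  by_cases hone : ∃ i : ℤ, g - a.length - 2 * h ≤ i ∧ i < g - a.length ∧ x i = true
  · -- the first involution moves
    have hSx : S x (g - a.length) := (h1 x _).2 ⟨Or.inl hsite, hone⟩
    have hy : LA (ι x) (g - a.length + b.length) (b ++ t) :=
      move hs (by omega) ha hb hab hba ht hx hSx
    have hyb := (la_split hy).1
    obtain ⟨i, h3, h4, h5⟩ := hone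
    have hyi : ι x i = true := by
      rw [near_eq hs ha hb hab hba hxa i (by omega) (Or.inl h4)]
      exact h5
    have hn : ¬ S' (ι x) (g - a.length + b.length - b.length) := by
      rw [h2]
      intro hc
      have e : g - (a.length : ℤ) + b.length - b.length = g - a.length := by ring
      rw [e] at hc
      have := hc.1.1 i h3 h4
      rw [hyi] at this
      cases this
    refine la_transfer hy fun j hj => ?_
    rw [List.length_append] at hj
    exact stay hs'.symm hb ha hba hab hyb hn j (by push_cast at hj; omega)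
  · -- the second involution moves
    have hzx : ZOn x (g - a.length - 2 * h) (g - a.length) := by
      intro i h3 h4
      by_contra hcon
      exact hone ⟨i, h3, h4, by simpa using hcon⟩
    have hn : ¬ S x (g - a.length) := by
      rw [h1]
      rintro ⟨_, hc⟩
      exact hone hc
    have heq : ∀ i : ℤ, g + h ≤ i + N → ι x i = x i := fun i hi =>
      stay hs ha hb hab hba hxa hn i hi
    have hy : LA (ι x) g (a ++ t) := by
      refine la_transfer hx fun j hj => ?_
      rw [List.length_append] at hj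
      exact heq j (by push_cast at hj; omega)
    have hya := (la_split hy).1
    refine move hs' (by omega) ha hb hab hba ht hy ?_
    rw [h2]
    refine ⟨⟨?_, Or.inl (site_of_la (2 * h) ha hya)⟩, (site_of_la N ha hya).2, ?_⟩
    · intro i h3 h4
      rw [heq i (by omega)]
      exact hzx i h3 h4
    · intro c' h3 h4 h5
      rcases s0_la ha hb hab hba hya h5.2 with h6 | h6
      · omega
      · push_cast at h6
        omega

theorem zpt_fix (hs : Sw a b h N S ι) (ha : a.length < h) (hb : b.length < h) :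
    ι zpt = zpt := by
  funext i
  by_contra hcon
  obtain ⟨c, hc, _, _⟩ := hs.ch zpt i hcon
  rcases hs.s0 zpt c hc with h3 | h3
  · have := h3.one ha
    simp [zpt] at this
  · have := h3.one hb
    simp [zpt] at this

end Pool.MP_5a0708_an.MoveU

namespace Pool.MP_5a0708_an

open Pool.MP_5a0708_an.MoveU in
/-- The untyped move. -/
theorem moveU (hS : Swap) (h1 : Data1) (h2 : Data2) : MoveU := by
  intro a b d hab hba
  set h : ℕ := max a.length b.length + 1 with hh
  set N : ℕ := 4 * h + d with hN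
  have ha : a.length < h := by
    have := le_max_left a.length b.length
    omega
  have hb : b.length < h := by
    have := le_max_right a.length b.length
    omega
  obtain ⟨ι1, hi1, _, _, hab1, hba1, hch1⟩ := hS h N (coreW a) (coreW b) (S1 a b h N)
    (h1 a b h N ha hb (by omega) hab hba)
  obtain ⟨ι2, hi2, _, _, hab2, hba2, hch2⟩ := hS h (2 * N) (coreW a) (coreW b) (S2 a b h N)
    (h2 a b h N ha hb (by omega) hab hba)
  have hs1 : Sw a b h N (S1 a b h N) ι1 := ⟨fun x c hc => hc.1, hab1, hba1, hch1⟩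
  have hs2 : Sw a b h N (S2 a b h N) ι2 := by
    refine ⟨fun x c hc => ?_, hab2, hba2, hch2⟩
    rcases hc.1.2 with h3 | h3
    · exact Or.inl ⟨h3.1, hc.2.1⟩
    · exact Or.inr ⟨h3.1, hc.2.1⟩
  refine ⟨ι2 * ι1, G.mul_mem (isInv_mem_G hi2) (isInv_mem_G hi1), ?_, ?_, ?_, ?_⟩
  · rw [Equiv.Perm.mul_apply, zpt_fix hs1 ha hb, zpt_fix hs2 ha hb]
  · intro x g t ht hx
    rw [Equiv.Perm.mul_apply]
    exact main_ab hs1 hs2 (fun _ _ => Iff.rfl) (fun _ _ => Iff.rfl) rfl ha hb hab hba x g t ht hx
  · intro x g t ht hx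
    rw [Equiv.Perm.mul_apply]
    exact main_ab hs1.symm hs2.symm (fun _ _ => s1_comm) (fun _ _ => s2_comm) rfl hb ha hba hab
      x g t ht hx
  · intro x g hx hna hnb
    rw [Equiv.Perm.mul_apply]
    have he1 : ∀ i : ℤ, g + h ≤ i + N → ι1 x i = x i := fun i hi =>
      other_eq hs1 ha hb hx hna hnb i hi
    have hl1 : IsLast (ι1 x) g := last_transfer hx fun i hi => he1 i (by omega)
    have hna1 : ¬ LA (ι1 x) g a := by
      intro hc
      exact hna (la_transfer hc fun i hi => (he1 i (by omega)).symm)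
    have hnb1 : ¬ LA (ι1 x) g b := by
      intro hc
      exact hnb (la_transfer hc fun i hi => (he1 i (by omega)).symm)
    have he2 : ∀ i : ℤ, g + h ≤ i + N → ι2 (ι1 x) i = x i := fun i hi => by
      rw [other_eq hs2 ha hb hl1 hna1 hnb1 i hi, he1 i hi]
    refine ⟨last_transfer hx fun i hi => he2 i (by omega), ?_⟩
    exact adr_congr fun i h3 h4 => he2 i (by omega)

end Pool.MP_5a0708_an
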