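import Pool.Agent.Lib.MP_5a0708_an.Spec

/-!
# MP_5a0708_an : zero runs and cells (modules Straight, GoodOf, CellImage, helper45)
-/

set_option autoImplicit false

namespace Pool.MP_5a0708_an.Straight

theorem zr_image {θ : Equiv.Perm Pt} (h0 : θ zpt = zpt) (hl : PresLast θ) {x : Pt} {n : ℤ}
    (hx : ZR x n) : ZR (θ x) n := by
  by_cases hz : x = zpt
  · subst hz
    rw [h0]
    exact hx
  · obtain ⟨g, hg, hlast⟩ := exists_last_of_ZR hx hz
    have h1 := (hl x g).2 hlast
    exact fun i hi => h1.2 i (by omega)

theorem zl_image {θ : Equiv.Perm Pt} (h0 : θ zpt = zpt) (hf : PresFirst θ) {x : Pt} {n : ℤ}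
    (hx : ZL x n) : ZL (θ x) n := by
  by_cases hz : x = zpt
  · subst hz
    rw [h0]
    exact hx
  · obtain ⟨g, hg, hfirst⟩ := exists_first_of_ZL hx hz
    have h1 := (hf x g).2 hfirst
    exact fun i hi => h1.2 i (by omega)

theorem straight_aux {r : ℕ} {θ : Equiv.Perm Pt} (h : IsAut r θ) (h0 : θ zpt = zpt)
    (hl : PresLast θ) (hf : PresFirst θ) {L : ℕ} (hL : 2 * r ≤ L) {x : Pt} {i : ℤ}
    (hx : ZOn x i (i + L)) : ZOn (θ x) i (i + L) := by
  intro j h1 h2
  have hR : ZL (glue zpt x i) (i + L) := by
    intro k hk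
    by_cases hki : k < i
    · rw [glue_lt hki]
      rfl
    · rw [glue_ge (by omega)]
      exact hx k (by omega) hk
  have hLz : ZR (glue x zpt (i + L)) i := by
    intro k hk
    by_cases hki : k < i + L
    · rw [glue_lt hki]
      exact hx k hk hki
    · rw [glue_ge (by omega)]
      rfl
  by_cases hj : i ≤ j - r
  · have h3 : θ x j = θ (glue zpt x i) j :=
      h.loc _ _ j (fun k h4 _ => (glue_ge (by omega)).symm)
    rw [h3]
    exact zl_image h0 hf hR j h2
  · have h3 : θ x j = θ (glue x zpt (i + L)) j :=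
      h.loc _ _ j (fun k _ h4 => (glue_lt (by omega)).symm)
    rw [h3]
    exact zr_image h0 hl hLz j h1

theorem cell_image {L : ℕ} {x y : Pt} {c : ℤ} {ℓ : ℕ}
    (hz : ∀ i : ℤ, ZOn y i (i + L) ↔ ZOn x i (i + L)) (hc : CellAt L x c ℓ) :
    CellAt L y c ℓ := by
  obtain ⟨h1, h2, h3, h4, h5, h6⟩ := hc
  have hy1 : ZOn y (c - L) c := by
    have := (hz (c - L)).2 (by rw [sub_add_cancel]; exact h1)
    rwa [sub_add_cancel] at this
  have hy2 : ZOn y (c + ℓ) (c + ℓ + L) := (hz (c + ℓ)).2 h2
  refine ⟨hy1, hy2, h3, ?_, ?_, ?_⟩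
  · by_contra hcon
    have hyc : y c = false := by simpa using hcon
    have h7 : ZOn y (c - L + 1) (c - L + 1 + L) := by
      intro i h8 h9
      by_cases hi : i < c
      · exact hy1 i (by omega) hi
      · have : i = c := by omega
        rw [this]
        exact hyc
    rcases Nat.eq_zero_or_pos L with hL | hL
    · have h8 := h6 0 (by omega)
      obtain ⟨i, h9, h10, _⟩ := h8
      omega
    · have h8 := (hz (c - L + 1)).1 h7 c (by omega) (by omega)
      have h9 : x c = true := by simpa using h4
      rw [h9] at h8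
      cases h8
  · by_contra hcon
    have hyc : y (c + (ℓ - 1 : ℕ)) = false := by simpa using hcon
    have h7 : ZOn y (c + (ℓ - 1 : ℕ)) (c + (ℓ - 1 : ℕ) + L) := by
      intro i h8 h9
      by_cases hi : c + ℓ ≤ i
      · exact hy2 i hi (by omega)
      · have : i = c + (ℓ - 1 : ℕ) := by omega
        rw [this]
        exact hyc
    rcases Nat.eq_zero_or_pos L with hL | hL
    · have h8 := h6 0 (by omega)
      obtain ⟨i, h9, h10, _⟩ := h8
      omega
    · have h8 := (hz (c + (ℓ - 1 : ℕ))).1 h7 (c + (ℓ - 1 : ℕ)) (by omega) (by omega)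
      have h9 : x (c + (ℓ - 1 : ℕ)) = true := h5
      rw [h9] at h8
      cases h8
  · intro j hj
    by_contra hcon
    push Not at hcon
    have h7 : ZOn y (c + j) (c + j + L) := by
      intro i h8 h9
      have h10 := hcon (i - c).toNat (by omega) (by omega)
      have e : c + (((i - c).toNat : ℕ) : ℤ) = i := by omega
      simp only [e] at h10
      simpa using h10
    obtain ⟨i, h8, h9, h10⟩ := h6 j hj
    have h11 := (hz (c + j)).1 h7 (c + i) (by omega) (by omega)
    have h12 : x (c + i) = true := h10
    rw [h11] at h12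
    cases h12

end Pool.MP_5a0708_an.Straight

namespace Pool.MP_5a0708_an

open Pool.MP_5a0708_an.Straight

/-- Automorphisms preserving first and last ones preserve the long zero runs. -/
theorem straight : Straight := by
  intro r θ h h0 hl hf L hL x i
  constructor
  · intro hz
    have hl' : PresLast θ.symm := by
      intro x g
      have := hl (θ.symm x) g
      rw [Equiv.apply_symm_apply] at this
      exact this.symm
    have hf' : PresFirst θ.symm := by
      intro x g
      have := hf (θ.symm x) g
      rw [Equiv.apply_symm_apply] at this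
      exact this.symm
    have := straight_aux h.symm (symm_zpt h0) hl' hf' hL hz
    rwa [Equiv.symm_apply_apply] at this
  · intro hz
    exact straight_aux h h0 hl hf hL hz

/-- Such automorphisms act on the cells by a rule depending on the word only. -/
theorem goodOf : GoodOf := by
  intro r L θ h hrL hz
  refine ⟨hz, ?_⟩
  intro x y c c' ℓ hx hy hxy k hk
  have h1 : θ y (c' + k) = θ (tr (c' - c) y) (c + k) := by
    have e : c + (k : ℤ) + (c' - c) = c' + k := by ring
    rw [h.comm, tr_apply, e]
  rw [h1]
  refine h.loc _ _ _ (fun j h2 h3 => ?_)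
  rw [tr_apply]
  rcases lt_or_ge j c with h4 | h4
  · rw [hx.1 j (by omega) h4, hy.1 (j + (c' - c)) (by omega) (by omega)]
  · rcases lt_or_ge j (c + ℓ) with h5 | h5
    · have h6 := hxy (j - c).toNat (by omega)
      have e1 : c + (((j - c).toNat : ℕ) : ℤ) = j := by omega
      have e2 : c' + (((j - c).toNat : ℕ) : ℤ) = j + (c' - c) := by omega
      rw [e1, e2] at h6
      exact h6
    · rw [hx.2.1 j h5 (by omega), hy.2.1 (j + (c' - c)) (by omega) (by omega)]

/-- Maps preserving the zero blocks preserve the cells. -/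
theorem cellImage : CellImage := by
  intro L θ _ hz x c ℓ
  exact ⟨cell_image (fun i => (hz x i).symm), cell_image (hz x)⟩

end Pool.MP_5a0708_an
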