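import Pool.Agent.Lib.MP_5a0708_an.Spec

/-!
# MP_5a0708_an : the general swap lemma (module Swap, helper45)
-/

set_option autoImplicit false

namespace Pool.MP_5a0708_an.Swap

variable {h R : ℕ} {A B : ℕ → Bool} {S : Pt → ℤ → Prop}

open Classical in
/-- the swap of the words `A`, `B` at the sites -/
noncomputable def io (h : ℕ) (A B : ℕ → Bool) (S : Pt → ℤ → Prop) (x : Pt) : Pt := fun i =>
  if hc : ∃ c : ℤ, S x c ∧ c ≤ i ∧ i < c + h then
    (if Reads x hc.choose h A then B (i - hc.choose).toNat else A (i - hc.choose).toNat)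
  else x i

theorem site_unique (hS : SwapData h R A B S) {x : Pt} {c c' i : ℤ} (h1 : S x c) (h2 : S x c')
    (h3 : c ≤ i) (h4 : i < c + h) (h5 : c' ≤ i) (h6 : i < c' + h) : c = c' := by
  rcases lt_trichotomy c c' with hlt | heq | hgt
  · have := hS.disj x c c' h1 h2 hlt; omega
  · exact heq
  · have := hS.disj x c' c h2 h1 hgt; omega

open Classical in
theorem io_of (hS : SwapData h R A B S) {x : Pt} {c i : ℤ} (h1 : S x c) (h3 : c ≤ i)
    (h4 : i < c + h) :
    io h A B S x i = if Reads x c h A then B (i - c).toNat else A (i - c).toNat := by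
  have hc : ∃ c : ℤ, S x c ∧ c ≤ i ∧ i < c + h := ⟨c, h1, h3, h4⟩
  have he : hc.choose = c :=
    site_unique hS hc.choose_spec.1 h1 hc.choose_spec.2.1 hc.choose_spec.2.2 h3 h4
  unfold io
  rw [dif_pos hc, he]

theorem io_not {x : Pt} {i : ℤ} (hn : ¬ ∃ c : ℤ, S x c ∧ c ≤ i ∧ i < c + h) :
    io h A B S x i = x i := by
  unfold io
  rw [dif_neg hn]

theorem toNat_add (c : ℤ) (k : ℕ) : (c + (k : ℤ) - c).toNat = k := by omega

theorem reads_AB (hS : SwapData h R A B S) {x : Pt} {c : ℤ} (h1 : S x c) (h2 : Reads x c h A) :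
    Reads (io h A B S x) c h B := by
  intro k hk
  rw [io_of hS h1 (by omega) (by omega), if_pos h2, toNat_add]

theorem reads_notA (hS : SwapData h R A B S) {x : Pt} {c : ℤ} (h1 : S x c)
    (h2 : ¬ Reads x c h A) : Reads (io h A B S x) c h A := by
  intro k hk
  rw [io_of hS h1 (by omega) (by omega), if_neg h2, toNat_add]

theorem reads_BA (hS : SwapData h R A B S) {x : Pt} {c : ℤ} (h1 : S x c) (h2 : Reads x c h B) :
    Reads (io h A B S x) c h A := by
  by_cases h3 : Reads x c h A
  · have h4 := reads_AB hS h1 h3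
    intro k hk
    rw [h4 k hk, ← h2 k hk, h3 k hk]
  · exact reads_notA hS h1 h3

theorem reads_or (hS : SwapData h R A B S) {x : Pt} {c : ℤ} (h1 : S x c) :
    Reads (io h A B S x) c h A ∨ Reads (io h A B S x) c h B := by
  by_cases h3 : Reads x c h A
  · exact Or.inr (reads_AB hS h1 h3)
  · exact Or.inl (reads_notA hS h1 h3)

theorem changed {x : Pt} {i : ℤ} (hi : io h A B S x i ≠ x i) :
    ∃ c : ℤ, S x c ∧ c ≤ i ∧ i < c + h := by
  by_contra hn
  exact hi (io_not hn)

theorem site_io (hS : SwapData h R A B S) (x : Pt) (c : ℤ) (h1 : S x c) :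
    S (io h A B S x) c :=
  hS.mono x (io h A B S x) (fun _ hc => reads_or hS hc) (fun _ hi => changed (Ne.symm hi)) c h1

theorem site_of_io (hS : SwapData h R A B S) (x : Pt) (c : ℤ) (h1 : S (io h A B S x) c) :
    S x c := by
  refine hS.mono (io h A B S x) x ?_ ?_ c h1
  · intro c hc
    by_cases hx : S x c
    · exact hS.core x c hx
    · have hsame : ∀ k : ℕ, k < h → io h A B S x (c + k) = x (c + k) := by
        intro k hk
        apply io_not
        rintro ⟨c1, hc1, h3, h4⟩
        have h5 := site_io hS x c1 hc1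
        have h6 : c = c1 := site_unique hS hc h5 (i := c + k) (by omega) (by omega) h3 h4
        exact hx (h6 ▸ hc1)
      rcases hS.core _ c hc with h3 | h3
      · left
        intro k hk
        rw [← hsame k hk, h3 k hk]
      · right
        intro k hk
        rw [← hsame k hk, h3 k hk]
  · intro i hi
    obtain ⟨c1, hc1, h3, h4⟩ := changed hi
    exact ⟨c1, site_io hS x c1 hc1, h3, h4⟩

theorem io_io (hS : SwapData h R A B S) (x : Pt) : io h A B S (io h A B S x) = x := by
  funext i
  by_cases hc : ∃ c : ℤ, S x c ∧ c ≤ i ∧ i < c + h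
  · obtain ⟨c, hc, h3, h4⟩ := hc
    have hc' := site_io hS x c hc
    have e : c + (((i - c).toNat : ℕ) : ℤ) = i := by omega
    have hk : (i - c).toNat < h := by omega
    by_cases hA : Reads x c h A
    · have h5 := reads_BA hS hc' (reads_AB hS hc hA) (i - c).toNat hk
      have h6 := hA (i - c).toNat hk
      rw [e] at h5 h6
      rw [h5, h6]
    · have hB : Reads x c h B := (hS.core x c hc).resolve_left hA
      have h5 := reads_AB hS hc' (reads_BA hS hc hB) (i - c).toNat hk
      have h6 := hB (i - c).toNat hk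
      rw [e] at h5 h6
      rw [h5, h6]
  · have hc' : ¬ ∃ c : ℤ, S (io h A B S x) c ∧ c ≤ i ∧ i < c + h := by
      rintro ⟨c, h1, h2⟩
      exact hc ⟨c, site_of_io hS x c h1, h2⟩
    rw [io_not hc', io_not hc]

theorem reads_congr {x y : Pt} {c : ℤ} {w : ℕ → Bool}
    (hxy : ∀ j : ℤ, c ≤ j → j < c + h → x j = y j) (hr : Reads x c h w) : Reads y c h w := by
  intro k hk
  rw [← hxy (c + k) (by omega) (by omega), hr k hk]

theorem loc_io (hS : SwapData h R A B S) : Loc (R + h) (io h A B S) := by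
  intro x y i hxy
  have hxy' : ∀ j : ℤ, i - (R + h) ≤ j → j ≤ i + (R + h) → x j = y j := by
    intro j h1 h2
    exact hxy j (by push_cast; omega) (by push_cast; omega)
  by_cases hc : ∃ c : ℤ, S x c ∧ c ≤ i ∧ i < c + h
  · obtain ⟨c, hc, h3, h4⟩ := hc
    have hc' : S y c := hS.loc x y c (fun j h1 h2 => hxy' j (by omega) (by omega)) hc
    rw [io_of hS hc h3 h4, io_of hS hc' h3 h4]
    have hiff : Reads x c h A ↔ Reads y c h A :=
      ⟨reads_congr (fun j h1 h2 => hxy' j (by omega) (by omega)),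
        reads_congr (fun j h1 h2 => (hxy' j (by omega) (by omega)).symm)⟩
    by_cases hA : Reads x c h A
    · rw [if_pos hA, if_pos (hiff.1 hA)]
    · rw [if_neg hA, if_neg (fun hB => hA (hiff.2 hB))]
  · have hc' : ¬ ∃ c : ℤ, S y c ∧ c ≤ i ∧ i < c + h := by
      rintro ⟨c, h1, h2, h3⟩
      exact hc ⟨c, hS.loc y x c (fun j h4 h5 => (hxy' j (by omega) (by omega)).symm) h1, h2, h3⟩
    rw [io_not hc, io_not hc']
    exact hxy' i (by omega) (by omega)

theorem comm_io (hS : SwapData h R A B S) (k : ℤ) (x : Pt) :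
    io h A B S (tr k x) = tr k (io h A B S x) := by
  funext i
  rw [tr_apply]
  by_cases hc : ∃ c : ℤ, S (tr k x) c ∧ c ≤ i ∧ i < c + h
  · obtain ⟨c, hc, h3, h4⟩ := hc
    have hc' : S x (c + k) := (hS.cov x c k).1 hc
    rw [io_of hS hc h3 h4, io_of hS hc' (by omega) (by omega)]
    have e : i + k - (c + k) = i - c := by ring
    have hiff : Reads (tr k x) c h A ↔ Reads x (c + k) h A := by
      constructor
      · intro hr j hj
        rw [← hr j hj, tr_apply]
        congr 1
        ring
      · intro hr j hj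
        rw [← hr j hj, tr_apply]
        congr 1
        ring
    rw [e]
    by_cases hA : Reads x (c + k) h A
    · rw [if_pos hA, if_pos (hiff.2 hA)]
    · rw [if_neg hA, if_neg (fun hB => hA (hiff.1 hB))]
  · have hc' : ¬ ∃ c : ℤ, S x c ∧ c ≤ i + k ∧ i + k < c + h := by
      rintro ⟨c, h1, h2, h3⟩
      refine hc ⟨c - k, (hS.cov x (c - k) k).2 (by rw [sub_add_cancel]; exact h1), ?_, ?_⟩
      · omega
      · omega
    rw [io_not hc, io_not hc', tr_apply]

end Pool.MP_5a0708_an.Swap

namespace Pool.MP_5a0708_an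

open Pool.MP_5a0708_an.Swap in
/-- The general swap lemma. -/
theorem swap : Swap := by
  intro h R A B S hS
  set ι : Equiv.Perm Pt :=
    ⟨io h A B S, io h A B S, io_io hS, io_io hS⟩ with hι
  have hιx : ∀ x, ι x = io h A B S x := fun x => rfl
  have haut : IsAut (R + h) ι := ⟨loc_io hS, loc_io hS, comm_io hS⟩
  refine ⟨ι, haut.isInv (io_io hS), haut, ?_, ?_, ?_, ?_⟩
  · intro x c
    exact ⟨site_of_io hS x c, site_io hS x c⟩
  · intro x c h1 h2
    exact reads_AB hS h1 h2
  · intro x c h1 h2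
    exact reads_BA hS h1 h2
  · intro x i hi
    exact changed hi

end Pool.MP_5a0708_an
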