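import Pool.Agent.Lib.MP_5a0708_an.Spec

set_option autoImplicit false

namespace Pool.MP_5a0708_an

namespace TDataAux

theorem site_cov (x : Pt) (c k : ℤ) (h N : ℕ) (w : List Bool) :
    Site (tr k x) c h N w ↔ Site x (c + k) h N w := by
  unfold Site Reads ZOn tr
  constructor
  · rintro ⟨h1, h2⟩
    refine ⟨fun j hj => ?_, fun i hi hi' => ?_⟩
    · rw [← h1 j hj]
      congr 1
      ring
    · have := h2 (i - k) (by omega) (by omega)
      simpa using this
  · rintro ⟨h1, h2⟩
    refine ⟨fun j hj => ?_, fun i hi hi' => ?_⟩
    · rw [← h1 j hj]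
      congr 1
      ring
    · exact h2 (i + k) (by omega) (by omega)

theorem site_loc {x y : Pt} {c : ℤ} {h N : ℕ} {w : List Bool} (hN : h ≤ N)
    (hxy : ∀ j : ℤ, c - N ≤ j → j ≤ c + N → x j = y j) (hs : Site x c h N w) :
    Site y c h N w := by
  refine ⟨fun j hj => ?_, fun i hi hi' => ?_⟩
  · rw [← hxy _ (by omega) (by omega)]
    exact hs.1 j hj
  · rw [← hxy _ (by omega) (by omega)]
    exact hs.2 i hi hi'

end TDataAux

open TDataAux in
theorem tData : TData := by
  intro a b h N ha hb hN hab hba hty
  have hdisj : ∀ (x : Pt) (c c' : ℤ), S0 a b h N x c → S0 a b h N x c' → c < c' →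
      c + h ≤ c' := by
    intro x c c' hc hc' hcc
    rcases hc with hc | hc <;> rcases hc' with hc' | hc'
    · have := site_sep ha ha (by omega) (Or.inr rfl) hc hc' hcc
      omega
    · have := site_sep ha hb (by omega) (Or.inl hba) hc hc' hcc
      omega
    · have := site_sep hb ha (by omega) (Or.inl hab) hc hc' hcc
      omega
    · have := site_sep hb hb (by omega) (Or.inr rfl) hc hc' hcc
      omega
  refine ⟨?_, ?_, ?_, hdisj, ?_⟩
  · intro x y c hxy hs
    rcases hs with hs | hs
    · exact Or.inl (site_loc (by omega) hxy hs)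
    · exact Or.inr (site_loc (by omega) hxy hs)
  · intro x c k
    unfold S0
    rw [site_cov, site_cov]
  · intro x c hs
    rcases hs with hs | hs
    · exact Or.inl hs.1
    · exact Or.inr hs.1
  · intro x y hcore hch c hc
    have hz : ZOn x (c + h) (c + N) := by
      rcases hc with hc | hc
      · exact hc.2
      · exact hc.2
    have hzy : ZOn y (c + h) (c + N) := by
      intro i hi hi'
      by_contra hne
      have hx := hz i hi hi'
      obtain ⟨c1, hs1, h1, h2⟩ := hch i (by rw [hx]; exact fun h => hne h.symm)
      rcases lt_trichotomy c1 c with hlt | heq | hgt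
      · have := hdisj x c1 c hs1 hc hlt
        omega
      · omega
      · have h3 := hdisj x c c1 hc hs1 hgt
        -- the first one of the core at `c1`
        have hk : x (c1 + (ty a : ℤ)) = true := by
          rcases hs1 with hs1 | hs1
          · rw [hs1.1 (ty a) (lt_of_le_of_lt (ty_le_length a) ha), coreW_ty]
          · rw [hty, hs1.1 (ty b) (lt_of_le_of_lt (ty_le_length b) hb), coreW_ty]
        have h4 : c + N ≤ c1 + (ty a : ℤ) := by
          by_contra hcon
          rw [hz _ (by omega) (by omega)] at hk
          cases hk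
        have e : c1 + (((i - c1).toNat : ℕ) : ℤ) = i := by omega
        rcases hcore c1 hs1 with hr | hr
        · have h5 := hr (i - c1).toNat (by omega)
          rw [e, coreW_lt_ty a (by omega)] at h5
          exact hne h5
        · have h5 := hr (i - c1).toNat (by omega)
          rw [e, coreW_lt_ty b (by omega)] at h5
          exact hne h5
    rcases hcore c hc with hr | hr
    · exact Or.inl ⟨hr, hzy⟩
    · exact Or.inr ⟨hr, hzy⟩

end Pool.MP_5a0708_an
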