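import Pool.Agent.Lib.MP_5a0708_an.Assembly
import Pool.Agent.Lib.MP_5a0708_an.CHL
import Pool.Agent.Lib.MP_5a0708_an.Swap
import Pool.Agent.Lib.MP_5a0708_an.TData
import Pool.Agent.Lib.MP_5a0708_an.MoveT
import Pool.Agent.Lib.MP_5a0708_an.Data1
import Pool.Agent.Lib.MP_5a0708_an.Data2
import Pool.Agent.Lib.MP_5a0708_an.MoveU
import Pool.Agent.Lib.MP_5a0708_an.CodeEx
import Pool.Agent.Lib.MP_5a0708_an.CodeStep
import Pool.Agent.Lib.MP_5a0708_an.ExchComb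
import Pool.Agent.Lib.MP_5a0708_an.CountInd
import Pool.Agent.Lib.MP_5a0708_an.CountPow
import Pool.Agent.Lib.MP_5a0708_an.CountBal
import Pool.Agent.Lib.MP_5a0708_an.LeafComb
import Pool.Agent.Lib.MP_5a0708_an.LeafCount
import Pool.Agent.Lib.MP_5a0708_an.Count2
import Pool.Agent.Lib.MP_5a0708_an.Straight
import Pool.Agent.Lib.MP_5a0708_an.CellSwap
import Pool.Agent.Lib.MP_5a0708_an.CellFix
import Pool.Agent.Lib.MP_5a0708_an.CellAgree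
import Pool.Agent.Lib.MP_5a0708_an.MeasureCor

/-!
# MP_5a0708_an : the two main theorems without hypotheses
-/

set_option autoImplicit false

namespace Pool.MP_5a0708_an

theorem main_both {r : ℕ} {θ : Equiv.Perm Pt} (h : IsAut r θ) :
    (∃ ψ : Equiv.Perm Pt, ψ ∈ G ∧ ∃ L0 : ℕ, ∀ L : ℕ, L0 ≤ L → ∀ (x : Pt) (i : ℤ),
      ZOn (ψ (θ x)) i (i + L) ↔ ZOn x i (i + L)) ∧
    (∃ L : ℕ, ∀ n : ℕ, ∃ ψ : Equiv.Perm Pt, ψ ∈ G ∧ ∀ x : Pt,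
      (∃ p : ℤ, -(n : ℤ) ≤ p ∧ p + L ≤ 0 ∧ ZOn x p (p + L)) →
      (∃ q : ℤ, 0 ≤ q ∧ q + L ≤ n ∧ ZOn x q (q + L)) → ψ x 0 = θ x 0) :=
  main_perm chl (moveU swap data1 data2) (moveT swap tData) codeEx codeStep exchComb
    (countBal countInd (countPow countInd)) (leafCount leafComb) count2
    straight goodOf (cellFix (cellSwap swap) cellImage) cellAgree h

/-- Every long run of zeros can be straightened by an element of `G`. -/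
theorem zeroRuns (φ : Pt → Pt) (hc : Continuous φ) (hb : Function.Bijective φ)
    (hs : ∀ x : Pt, φ (fun n => x (n + 1)) = fun n => φ x (n + 1)) :
    ∃ ψ : Pt → Pt, Gen ψ ∧ ∃ L0 : ℕ, ∀ L : ℕ, L0 ≤ L →
      ∀ (x : Pt) (i : ℤ), ZOn (ψ (φ x)) i (i + L) ↔ ZOn x i (i + L) := by
  obtain ⟨r, θ, h1, h2⟩ := chl φ hc hb hs
  obtain ⟨⟨ψ, hψ, L0, hL0⟩, -⟩ := main_both h2
  refine ⟨ψ, gen_of_mem_G hψ, L0, ?_⟩
  intro L hLL x i
  rw [← h1]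
  exact hL0 L hLL x i

/-- Approximation by elements of `G`. -/
theorem approx (φ : Pt → Pt) (hc : Continuous φ) (hb : Function.Bijective φ)
    (hs : ∀ x : Pt, φ (fun n => x (n + 1)) = fun n => φ x (n + 1)) :
    ∃ L : ℕ, ∀ n : ℕ, ∃ ψ : Pt → Pt, Gen ψ ∧ ∀ x : Pt,
      (∃ p : ℤ, -(n : ℤ) ≤ p ∧ p + L ≤ 0 ∧ ZOn x p (p + L)) →
      (∃ q : ℤ, 0 ≤ q ∧ q + L ≤ n ∧ ZOn x q (q + L)) → ψ x 0 = φ x 0 := by
  obtain ⟨r, θ, h1, h2⟩ := chl φ hc hb hs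
  obtain ⟨-, L, hL⟩ := main_both h2
  refine ⟨L, fun n => ?_⟩
  obtain ⟨ψ, hψ, hx⟩ := hL n
  refine ⟨ψ, gen_of_mem_G hψ, ?_⟩
  intro x hp hq
  rw [hx x hp hq, h1]

end Pool.MP_5a0708_an
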